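import Pool.Agent.W2helper74.SOS.Stm2

/-!
# MP_ce7760_an : sharper gaps below the first rank of a quotient that is not SOS (helper74)
-/

open MvPolynomial

namespace Pool.Agent.W2helper74.SOS

/-- (N2) arithmetic: `k_n ≥ r`, `k_j ≥ min(k_(j+1), j)` and `k_(j+1) ≥ j+1 → k_j ≥ j+1` give
`m ≥ n r - (r-1)(r-2)/2 - 1`. Proof: `L j = M j - M (j-1)`; downwards: `L j ≥ min(r, j+1)` for
`2 ≤ j < n`, `L n ≥ r`, `L 1 ≥ 1`. Sum up (`r ≤ n`: `1 + ∑_(j=2)^n min(r, j+1)`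
`= n r - (r-1)(r-2)/2 - 1`; `r ≥ n+1`: `1 + (3 + ... + n) + r ≥` the same expression). -/
def Num2 : Prop := ∀ (n r : ℕ) (M : ℕ → ℕ), 2 ≤ n → 3 ≤ r →
  (∀ j, M j ≤ M (j + 1)) → 1 ≤ M 1 →
  (∀ j, 1 ≤ j → j + 1 ≤ n → min (M (j + 1) - M j) j ≤ M j - M (j - 1)) →
  (∀ j, 2 ≤ j → j + 1 ≤ n → j + 1 ≤ M (j + 1) - M j → j + 1 ≤ M j - M (j - 1)) →
  r + M (n - 1) ≤ M n → n * r ≤ M n + (r - 1) * (r - 2) / 2 + 1

/-- (N3) arithmetic: `k_n ≥ r` and `k_j ≥ min(k_(j+1), j)` give `m ≥ n r - r(r-1)/2`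
(`r ≤ n`: it is `Num'` with `κ = r - 1`; also true for `r > n`). -/
def Num3 : Prop := ∀ (n r : ℕ) (M : ℕ → ℕ), 1 ≤ n → (∀ j, M j ≤ M (j + 1)) →
  (∀ j, 1 ≤ j → j + 1 ≤ n → min (M (j + 1) - M j) j ≤ M j - M (j - 1)) →
  r + M (n - 1) ≤ M n → n * r ≤ M n + r * (r - 1) / 2

/-- (StarUp) If `E = h L` with `L` a space of linear forms then `m ≤ n r - r(r-1)/2` (for every
datum, psd or not). Proof: every `p j` is in the span of the `X_k e_i` (see the proof of `F6` by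
helper22), `e_i = h λ_i`, `λ_1..λ_r` independent linear forms, `r ≤ n`; extend to a basis
`λ_1..λ_n` of the linear forms. All `X_k e_i` are in the span of the `h λ_i λ_k` (`i ≤ r`, `k ≤ n`),
and by symmetry `i ≤ k` is enough: `∑_(i ≤ r) (n - i + 1) = n r - r(r-1)/2` elements. -/
def StarUp : Prop := ∀ n m r D (d : Dat n m r D),
  (∃ h : Pol n, ∀ e ∈ d.E, ∃ w : Fin n → ℂ, e = h * lf w) → m + r * (r - 1) / 2 ≤ n * r

/-- sharper gaps: a rank below the bound for quotients that are not SOS is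
`n r - r(r-1)/2` or in the interval `[n r - (r-1)(r-2)/2 - 1, n r]` -/
def Gap2 : Prop := ∀ n m : ℕ, 4 ≤ n → m ∈ S1 n →
  ∀ κ : ℕ, κ * (κ + 1) / 2 < n → m + 4 < (κ + 2) * (n + 1 - κ) →
    ∃ r : ℕ, m ≤ n * r ∧
      (m + r * (r - 1) / 2 = n * r ∨ n * r ≤ m + (r - 1) * (r - 2) / 2 + 1)

/-- (SetUp2) the set up, with the transfer of the SOS property back to the given quotient `A`:
in the proof of `setUp` (helper17) `d.a = diagonal l` and the coefficient matrix of the shifted `A'`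
is `∑ l_i u_i u_i^*`; if `d.Psd` then all `l_i > 0`, and
`A (z, conj z) = ∑_i l_i |∑_α u_i (f' α) z^α|^2` (the coefficient of `A` at `(α, β)` is the one of `A'`
at `(f' α, f' β)`). -/
def SetUp2 : Prop := ∀ n m, 2 ≤ n → 1 ≤ m → ∀ (p : Fin m → Pol n)
  (A : MvPolynomial (Fin n ⊕ Fin n) ℂ), LinearIndependent ℂ p →
  (∀ z : Fin n → ℂ, ((∑ j, ‖eval z (p j)‖ ^ 2 : ℝ) : ℂ) = ((∑ k, ‖z k‖ ^ 2 : ℝ) : ℂ) *
    eval (Sum.elim z (fun k => (starRingEnd ℂ) (z k))) A) →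
  ∃ (r D : ℕ) (d : Dat n m r D), d.Psd → ∃ (s : ℕ) (q : Fin s → Pol n), ∀ z : Fin n → ℂ,
    eval (Sum.elim z (fun k => (starRingEnd ℂ) (z k))) A = ((∑ i, ‖eval z (q i)‖ ^ 2 : ℝ) : ℂ)

end Pool.Agent.W2helper74.SOS
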