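import Pool.Agent.W2helper74.SOS.Stm2

/-! # SOS last case: piece K10 (assembly of `Last`) -/

open MvPolynomial

namespace Pool.Agent.W2helper74.SOS

/-- homogeneous polynomials of degree one are linear forms -/
lemma eq_lf_of_hom {n : ℕ} {p : Pol n} (hp : p.IsHomogeneous 1) :
    p = lf (fun k => coeff (Finsupp.single k 1) p) := by
  classical
  ext s
  unfold lf
  rw [coeff_sum]
  simp only [coeff_C_mul, coeff_X]
  by_cases hs : ∃ k, s = Finsupp.single k 1
  · obtain ⟨k, rfl⟩ := hs
    rw [Finset.sum_eq_single k]
    · simp
    · intro b _ hb
      rw [if_neg]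
      · simp
      · intro h
        exact hb (Finsupp.single_left_injective one_ne_zero h)
    · simp
  · have h0 : coeff s p = 0 := by
      by_contra h
      apply hs
      have h1 : Finsupp.degree s = 1 := by
        rw [Finsupp.degree_eq_weight_one]; exact hp h
      have h2 : s ∈ Set.range (fun a : Fin n ↦ Finsupp.single a 1) := by
        rw [Finsupp.range_single_one]; exact h1
      obtain ⟨k, hk⟩ := h2
      exact ⟨k, hk.symm⟩
    rw [h0]
    symm
    apply Finset.sum_eq_zero
    intro k _
    rw [if_neg, mul_zero]
    exact fun h => hs ⟨k, h.symm⟩

theorem last (hSet : SetUp) (hRed : Red) (hDeg : DegB) (hF5 : F5) (hF6 : F6) (hG : G')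
    (hMx : MxThree) (hCub : Cubic) : Last := by
  intro h4
  obtain ⟨r, D, ⟨d⟩⟩ := hSet 3 4 (by norm_num) (by norm_num) h4
  -- strong induction
  have main : ∀ D r, Dat 3 4 r D → False := by
    intro D
    induction D using Nat.strong_induction_on with
    | _ D ih =>
      intro r d
      by_cases hc : ∃ π : Pol 3, Prime π ∧ ∀ j, π ∣ d.p j
      · obtain ⟨π, hπ, hd⟩ := hc
        obtain ⟨D', hD', ⟨d'⟩⟩ := hRed r D d π hπ hd
        exact ih D' hD' r d'
      · push Not at hc
        have hD : D ≤ 2 := hDeg r D d hc
        interval_cases D
        · -- D = 0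
          have hp : ∀ j, d.p j = lf (fun k => coeff (Finsupp.single k 1) (d.p j)) := fun j =>
            eq_lf_of_hom (by simpa using d.p_hom j)
          let L : (Fin 3 → ℂ) →ₗ[ℂ] Pol 3 :=
            { toFun := lf
              map_add' := fun a b => by simp [lf, add_mul, Finset.sum_add_distrib]
              map_smul' := fun c a => by
                simp only [lf, Pi.smul_apply, smul_eq_mul, map_mul, RingHom.id_apply,
                  Finset.smul_sum, smul_eq_C_mul, mul_assoc] }
          have hli : LinearIndependent ℂ (fun j k => coeff (Finsupp.single k 1) (d.p j)) := by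
            apply LinearIndependent.of_comp L
            have : (L ∘ fun j k => coeff (Finsupp.single k 1) (d.p j)) = d.p := by
              funext j; exact (hp j).symm
            rw [this]
            exact d.p_ind
          have := hli.fintype_card_le_finrank
          simp at this
        · -- D = 1
          have hpsd : d.Psd := by
            apply hG
            refine ⟨1, fun e he => ?_⟩
            have hh : e.IsHomogeneous 1 := by
              have hle : d.E ≤ homogeneousSubmodule (Fin 3) ℂ 1 := by
                apply Submodule.span_le.2
                rintro _ ⟨i, rfl⟩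
                exact d.e_hom i
              exact hle he
            exact ⟨_, by rw [one_mul]; exact eq_lf_of_hom hh⟩
          have h5 := hF5 3 4 r 1 d (by norm_num) hpsd
          have h6 := hF6 3 4 r 1 d
          have h7 := (hMx r 1 d).1
          simp only [show (3 - 1 : ℕ) = 2 from rfl] at h5
          omega
        · obtain ⟨π, hπ, hd⟩ := hCub r d
          obtain ⟨j, hj⟩ := hc π hπ
          exact hj (hd j)
  exact main D r d

end Pool.Agent.W2helper74.SOS
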