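import Pool.Agent.W2helper74.SOS.Stm2

/-! # SOS last case: piece K5 (CritMain) -/

namespace Pool.Agent.W2helper74.SOS

/-- coefficients of a binary cubic form -/
lemma cubExt {a0 a1 a2 a3 : ℂ}
    (h : ∀ x y : ℂ, a0 * x ^ 3 + a1 * x ^ 2 * y + a2 * x * y ^ 2 + a3 * y ^ 3 = 0) :
    a0 = 0 ∧ a1 = 0 ∧ a2 = 0 ∧ a3 = 0 := by
  have h1 := h 1 0
  have h2 := h 0 1
  have h3 := h 1 1
  have h4 := h 1 (-1)
  have e0 : a0 = 0 := by linear_combination h1
  have e3 : a3 = 0 := by linear_combination h2
  refine ⟨e0, ?_, ?_, e3⟩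
  · linear_combination (h3 - h4) / 2 - e3
  · linear_combination (h3 + h4) / 2 - e0

/-- coefficients of a binary quadratic form -/
lemma quaExt {a0 a1 a2 : ℂ}
    (h : ∀ x y : ℂ, a0 * x ^ 2 + a1 * x * y + a2 * y ^ 2 = 0) :
    a0 = 0 ∧ a1 = 0 ∧ a2 = 0 := by
  have h1 := h 1 0
  have h2 := h 0 1
  have h3 := h 1 1
  have e0 : a0 = 0 := by linear_combination h1
  have e2 : a2 = 0 := by linear_combination h2
  exact ⟨e0, by linear_combination h3 - e0 - e2, e2⟩

/-- the linear equations from R1 -/
lemma crit_lin (α β : ℂ) (a b c k : ℂ) (p q : Fin 3 → ℂ)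
    (R1 : ∀ x y X Y : ℂ,
    (α * q2 p x y * X + β * q2 q x y * Y) * (star a * X ^ 2 + star b * X * Y + star c * Y ^ 2) +
      k * (star c * x ^ 2 - star b * x * y + star a * y ^ 2) * Y *
        (c * X ^ 2 - b * X * Y + a * Y ^ 2) =
    (x * X + y * Y) * (x * q2 (cj p) X Y + y * q2 (cj q) X Y)) :
    (α * p 0 * star a = star (p 0) ∧
     α * p 0 * star b + β * q 0 * star a + k * star c * c = star (p 1) ∧
     α * p 0 * star c + β * q 0 * star b - k * star c * b = star (p 2) ∧
     β * q 0 * star c + k * star c * a = 0) ∧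
    (α * p 1 * star a = star (q 0) ∧
     α * p 1 * star b + β * q 1 * star a - k * star b * c = star (p 0) + star (q 1) ∧
     α * p 1 * star c + β * q 1 * star b + k * star b * b = star (p 1) + star (q 2) ∧
     β * q 1 * star c - k * star b * a = star (p 2)) ∧
    (α * p 2 * star a = 0 ∧
     α * p 2 * star b + β * q 2 * star a + k * star a * c = star (q 0) ∧
     α * p 2 * star c + β * q 2 * star b - k * star a * b = star (q 1) ∧
     β * q 2 * star c + k * star a * a = star (q 2)) := by
  have key : ∀ X Y : ℂ, _ ∧ _ ∧ _ := fun X Y =>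
    quaExt (a0 := (α * p 0 * X + β * q 0 * Y) * (star a * X ^ 2 + star b * X * Y + star c * Y ^ 2) +
        k * star c * Y * (c * X ^ 2 - b * X * Y + a * Y ^ 2) - X * q2 (cj p) X Y)
      (a1 := (α * p 1 * X + β * q 1 * Y) * (star a * X ^ 2 + star b * X * Y + star c * Y ^ 2) -
        k * star b * Y * (c * X ^ 2 - b * X * Y + a * Y ^ 2) - Y * q2 (cj p) X Y -
        X * q2 (cj q) X Y)
      (a2 := (α * p 2 * X + β * q 2 * Y) * (star a * X ^ 2 + star b * X * Y + star c * Y ^ 2) +
        k * star a * Y * (c * X ^ 2 - b * X * Y + a * Y ^ 2) - Y * q2 (cj q) X Y)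
      (fun x y => by
        have := R1 x y X Y
        simp only [q2] at this ⊢
        linear_combination this)
  refine ⟨?_, ?_, ?_⟩
  · obtain ⟨h0, h1, h2, h3⟩ := cubExt
      (a0 := α * p 0 * star a - star (p 0))
      (a1 := α * p 0 * star b + β * q 0 * star a + k * star c * c - star (p 1))
      (a2 := α * p 0 * star c + β * q 0 * star b - k * star c * b - star (p 2))
      (a3 := β * q 0 * star c + k * star c * a)
      (fun X Y => by
        have := (key X Y).1
        simp only [q2, cj] at this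
        linear_combination this)
    exact ⟨by linear_combination h0, by linear_combination h1, by linear_combination h2,
      by linear_combination h3⟩
  · obtain ⟨h0, h1, h2, h3⟩ := cubExt
      (a0 := α * p 1 * star a - star (q 0))
      (a1 := α * p 1 * star b + β * q 1 * star a - k * star b * c - star (p 0) - star (q 1))
      (a2 := α * p 1 * star c + β * q 1 * star b + k * star b * b - star (p 1) - star (q 2))
      (a3 := β * q 1 * star c - k * star b * a - star (p 2))
      (fun X Y => by
        have := (key X Y).2.1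
        simp only [q2, cj] at this
        linear_combination this)
    exact ⟨by linear_combination h0, by linear_combination h1, by linear_combination h2,
      by linear_combination h3⟩
  · obtain ⟨h0, h1, h2, h3⟩ := cubExt
      (a0 := α * p 2 * star a)
      (a1 := α * p 2 * star b + β * q 2 * star a + k * star a * c - star (q 0))
      (a2 := α * p 2 * star c + β * q 2 * star b - k * star a * b - star (q 1))
      (a3 := β * q 2 * star c + k * star a * a - star (q 2))
      (fun X Y => by
        have := (key X Y).2.2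
        simp only [q2, cj] at this
        linear_combination this)
    exact ⟨by linear_combination h0, by linear_combination h1, by linear_combination h2,
      by linear_combination h3⟩

lemma crit_k (α β : ℝ) (a b c k : ℂ) (p q : Fin 3 → ℂ) (hβ : 0 < β) (hαβ : β < α) (ha : a ≠ 0)
    (R1 : ∀ x y X Y : ℂ,
    (α * q2 p x y * X + β * q2 q x y * Y) * (star a * X ^ 2 + star b * X * Y + star c * Y ^ 2) +
      k * (star c * x ^ 2 - star b * x * y + star a * y ^ 2) * Y *
        (c * X ^ 2 - b * X * Y + a * Y ^ 2) =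
    (x * X + y * Y) * (x * q2 (cj p) X Y + y * q2 (cj q) X Y)) :
    k = 0 ∧ p = 0 ∧ q = 0 := by
  have hα : 0 < α := hβ.trans hαβ
  have hαc : (α : ℂ) ≠ 0 := by exact_mod_cast hα.ne'
  have hβc : (β : ℂ) ≠ 0 := by exact_mod_cast hβ.ne'
  have hsa : star a ≠ 0 := star_ne_zero.2 ha
  obtain ⟨⟨a0, a1, a2, a3⟩, ⟨b0, b1, b2, b3⟩, ⟨c0, c1, c2, c3⟩⟩ := crit_lin α β a b c k p q R1
  have p2 : p 2 = 0 := by
    rcases mul_eq_zero.1 c0 with h | h
    · exact (mul_eq_zero.1 h).resolve_left hαc
    · exact absurd h hsa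
  have e2 : α * p 1 - β * q 2 = k * c := by
    apply mul_right_cancel₀ hsa
    rw [p2] at c1
    linear_combination b0 - c1
  have e3 : β * q 1 - α * p 0 = - k * b := by
    apply mul_right_cancel₀ hsa
    rw [p2] at c2
    linear_combination b1 - a0 - c2 - star b * e2
  have e4 : β * q 0 = - k * a := by
    apply mul_right_cancel₀ hsa
    linear_combination -(b2 - a1 - c3) + star c * e2 + star b * e3
  have sα : star (α : ℂ) = α := Complex.conj_ofReal α
  have sβ : star (β : ℂ) = β := Complex.conj_ofReal β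
  -- star versions
  have e2' : α * star (p 1) - β * star (q 2) = star k * star c := by
    have := congrArg star e2
    simpa [star_sub, star_mul', sα, sβ] using this
  have e4' : β * star (q 0) = - star k * star a := by
    have := congrArg star e4
    simpa [star_mul', sα, sβ] using this
  rw [p2] at a2 c1 c2
  simp only [star_zero, mul_zero, zero_mul, zero_add] at a2 c1 c2
  -- main
  have hk : k = 0 := by
    by_contra hk
    have f1 : (β : ℂ) * (β * q 2) = - β * k * c - star k := by
      apply mul_right_cancel₀ hsa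
      linear_combination β * c1 + e4'
    have f1' : (β : ℂ) * (β * star (q 2)) = - β * star k * star c - k := by
      have := congrArg star f1
      simpa [star_sub, star_mul', sα, sβ] using this
    have f2 : (β : ℂ) ^ 2 * (c * star c) = β ^ 2 * (a * star a) + 1 := by
      apply mul_left_cancel₀ hk
      linear_combination -(β : ℂ) ^ 2 * c3 - f1' + β * star c * f1
    have g1 : (α : ℂ) * β * p 1 = - star k := by
      linear_combination β * e2 + f1
    have g1' : (α : ℂ) * β * star (p 1) = - k := by
      have := congrArg star g1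
      simpa [star_sub, star_mul', sα, sβ] using this
    have g2 : (α : ℂ) * β ^ 2 * (α * p 0 * star b) = - k * (β + α) := by
      linear_combination α * β ^ 2 * a1 + β * g1' - α * β ^ 2 * star a * e4 - α * k * f2
    have g3 : (α : ℂ) * β ^ 2 * (a * star b ^ 2) =
        - star c * (α * β ^ 2 * (b * star b) + (β + α)) := by
      apply mul_left_cancel₀ hk
      linear_combination -(α : ℂ) * β ^ 2 * star b * a2 + α * β ^ 2 * star b ^ 2 * e4 + star c * g2
    have hcc : c * star c = ((‖c‖ ^ 2 : ℝ) : ℂ) := by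
      rw [Complex.star_def, Complex.mul_conj, Complex.normSq_eq_norm_sq]
    have haa : a * star a = ((‖a‖ ^ 2 : ℝ) : ℂ) := by
      rw [Complex.star_def, Complex.mul_conj, Complex.normSq_eq_norm_sq]
    have hbb : b * star b = ((‖b‖ ^ 2 : ℝ) : ℂ) := by
      rw [Complex.star_def, Complex.mul_conj, Complex.normSq_eq_norm_sq]
    have f3 : β ^ 2 * ‖c‖ ^ 2 = β ^ 2 * ‖a‖ ^ 2 + 1 := by
      rw [hcc, haa] at f2
      exact_mod_cast f2
    have hac : ‖a‖ < ‖c‖ := by
      have hb2 : 0 < β ^ 2 := by positivity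
      have : ‖a‖ ^ 2 < ‖c‖ ^ 2 := by nlinarith
      exact lt_of_pow_lt_pow_left₀ 2 (norm_nonneg _) this
    have g4 : α * β ^ 2 * (‖a‖ * ‖b‖ ^ 2) = ‖c‖ * (α * β ^ 2 * ‖b‖ ^ 2 + (β + α)) := by
      have := congrArg norm g3
      rw [hbb] at this
      have h1 : ‖(α : ℂ) * β ^ 2 * (a * star b ^ 2)‖ = α * β ^ 2 * (‖a‖ * ‖b‖ ^ 2) := by
        rw [norm_mul, norm_mul, norm_mul, norm_pow, norm_pow, norm_star, Complex.norm_real,
          Complex.norm_real, Real.norm_of_nonneg hα.le, Real.norm_of_nonneg hβ.le]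
      have h2 : ‖- star c * ((α : ℂ) * β ^ 2 * ((‖b‖ ^ 2 : ℝ) : ℂ) + (β + α))‖ =
          ‖c‖ * (α * β ^ 2 * ‖b‖ ^ 2 + (β + α)) := by
        rw [norm_mul, norm_neg, norm_star]
        congr 1
        have : ((α : ℂ) * β ^ 2 * ((‖b‖ ^ 2 : ℝ) : ℂ) + (β + α)) =
          ((α * β ^ 2 * ‖b‖ ^ 2 + (β + α) : ℝ) : ℂ) := by push_cast; ring
        rw [this, Complex.norm_real, Real.norm_of_nonneg (by positivity)]
      rw [h1, h2] at this
      exact this
    have h5 : α * β ^ 2 * (‖a‖ * ‖b‖ ^ 2) ≤ α * β ^ 2 * (‖c‖ * ‖b‖ ^ 2) := by gcongr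
    have h6 : 0 < ‖c‖ * (β + α) := by
      have : 0 < ‖c‖ := (norm_nonneg a).trans_lt hac
      positivity
    nlinarith
  subst hk
  simp only [zero_mul, neg_zero, star_zero, add_zero, sub_zero] at *
  have q2z : q 2 = 0 := by
    have h : (β : ℂ) * q 2 * star a = 0 := by
      rw [c1]
      have : (β : ℂ) * star (q 0) = 0 := e4'
      exact (mul_eq_zero.1 this).resolve_left hβc
    rcases mul_eq_zero.1 h with h | h
    · exact (mul_eq_zero.1 h).resolve_left hβc
    · exact absurd h hsa
  have q0z : q 0 = 0 := (mul_eq_zero.1 e4).resolve_left hβc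
  have q1z : q 1 = 0 := by
    rw [q2z] at c2
    simp only [mul_zero, zero_mul] at c2
    exact star_eq_zero.1 c2.symm
  have p1z : p 1 = 0 := by
    rw [q2z] at e2
    simp only [mul_zero, sub_zero] at e2
    exact (mul_eq_zero.1 e2).resolve_left hαc
  have p0z : p 0 = 0 := by
    rw [q1z] at e3
    simp only [mul_zero, zero_sub] at e3
    exact (mul_eq_zero.1 (neg_eq_zero.1 e3)).resolve_left hαc
  refine ⟨trivial, ?_, ?_⟩
  · funext i; fin_cases i <;> simp [p0z, p1z, p2]
  · funext i; fin_cases i <;> simp [q0z, q1z, q2z]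

lemma crit_two (α β : ℝ) (a b c : ℂ) (hβ : 0 < β) (hαβ : β < α) (ha : a ≠ 0)
    (R2 : ∀ x y X Y : ℂ,
    (a * x ^ 2 + b * x * y + c * y ^ 2) * (star a * X ^ 2 + star b * X * Y + star c * Y ^ 2) *
        (α * x * X + β * y * Y) +
      (α - β) * y * Y * (star c * x ^ 2 - star b * x * y + star a * y ^ 2) *
        (c * X ^ 2 - b * X * Y + a * Y ^ 2) =
    (x * X + y * Y) ^ 3 - (x * X + y * Y) ^ 2 * (x * X / α + y * Y / β) +
      (x * X + y * Y) *
        ((a * x ^ 2 + b * x * y + c * y ^ 2) * (star a * X ^ 2 + star b * X * Y + star c * Y ^ 2)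
          )) : False := by
  have hα : 0 < α := hβ.trans hαβ
  have hαc : (α : ℂ) ≠ 0 := by exact_mod_cast hα.ne'
  have hβc : (β : ℂ) ≠ 0 := by exact_mod_cast hβ.ne'
  have key : ∀ X Y : ℂ, _ ∧ _ ∧ _ ∧ _ := fun X Y =>
    cubExt
      (a0 := α * X * a * (star a * X ^ 2 + star b * X * Y + star c * Y ^ 2) - X ^ 3
        + X ^ 3 / α - X * a * (star a * X ^ 2 + star b * X * Y + star c * Y ^ 2))
      (a1 := (α * X * b + β * Y * a) * (star a * X ^ 2 + star b * X * Y + star c * Y ^ 2) +
        (α - β) * Y * star c * (c * X ^ 2 - b * X * Y + a * Y ^ 2) - 3 * X ^ 2 * Y +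
        (2 * X ^ 2 * Y / α + X ^ 2 * Y / β) -
        (X * b + Y * a) * (star a * X ^ 2 + star b * X * Y + star c * Y ^ 2))
      (a2 := (α * X * c + β * Y * b) * (star a * X ^ 2 + star b * X * Y + star c * Y ^ 2) -
        (α - β) * Y * star b * (c * X ^ 2 - b * X * Y + a * Y ^ 2) - 3 * X * Y ^ 2 +
        (X * Y ^ 2 / α + 2 * X * Y ^ 2 / β) -
        (X * c + Y * b) * (star a * X ^ 2 + star b * X * Y + star c * Y ^ 2))
      (a3 := β * Y * c * (star a * X ^ 2 + star b * X * Y + star c * Y ^ 2) +
        (α - β) * Y * star a * (c * X ^ 2 - b * X * Y + a * Y ^ 2) - Y ^ 3 + Y ^ 3 / β -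
        Y * c * (star a * X ^ 2 + star b * X * Y + star c * Y ^ 2))
      (fun x y => by
        have := R2 x y X Y
        linear_combination this)
  obtain ⟨h30, h31, h32, -⟩ := cubExt
    (a0 := (α - 1) * a * star a - 1 + 1 / α)
    (a1 := (α - 1) * a * star b) (a2 := (α - 1) * a * star c) (a3 := 0)
    (fun X Y => by linear_combination (key X Y).1)
  obtain ⟨-, h21, -, -⟩ := cubExt
    (a0 := ((α - 1) * b) * star a)
    (a1 := (α - 1) * b * star b + (β - 1) * a * star a + (α - β) * star c * c - 3 + 2 / α + 1 / β)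
    (a2 := (α - 1) * b * star c + (β - 1) * a * star b - (α - β) * star c * b)
    (a3 := (β - 1) * a * star c + (α - β) * star c * a)
    (fun X Y => by linear_combination (key X Y).2.1)
  obtain ⟨-, -, h12, -⟩ := cubExt
    (a0 := ((α - 1) * c) * star a)
    (a1 := (α - 1) * c * star b + (β - 1) * b * star a - (α - β) * star b * c)
    (a2 := (α - 1) * c * star c + (β - 1) * b * star b + (α - β) * star b * b - 3 + 1 / α + 2 / β)
    (a3 := (β - 1) * b * star c - (α - β) * star b * a)
    (fun X Y => by linear_combination (key X Y).2.2.1)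
  obtain ⟨-, -, -, h03⟩ := cubExt
    (a0 := 0)
    (a1 := (β - 1) * c * star a + (α - β) * star a * c)
    (a2 := (β - 1) * c * star b - (α - β) * star a * b)
    (a3 := (β - 1) * c * star c + (α - β) * star a * a - 1 + 1 / β)
    (fun X Y => by linear_combination (key X Y).2.2.2)
  have hsa : star a ≠ 0 := star_ne_zero.2 ha
  by_cases h1 : α = 1
  · subst h1
    simp only [Complex.ofReal_one] at *
    have : (2 : ℂ) * (1 / β) * (1 - β) = 0 := by
      field_simp at h21 h03 ⊢
      linear_combination h21 + h03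
    have h1b : (1 : ℂ) - β ≠ 0 := by
      have : (1 : ℝ) - β ≠ 0 := by linarith
      exact_mod_cast this
    have h2b : (2 : ℂ) * (1 / β) ≠ 0 := by
      simp [hβc]
    exact absurd this (mul_ne_zero h2b h1b)
  · have hα1 : (α : ℂ) - 1 ≠ 0 := by
      have : α - 1 ≠ 0 := sub_ne_zero.2 h1
      exact_mod_cast this
    have hb : b = 0 := by
      rcases mul_eq_zero.1 h31 with h | h
      · exact absurd h (mul_ne_zero hα1 ha)
      · exact star_eq_zero.1 h
    have hc : c = 0 := by
      rcases mul_eq_zero.1 h32 with h | h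
      · exact absurd h (mul_ne_zero hα1 ha)
      · exact star_eq_zero.1 h
    subst hb hc
    simp only [star_zero, mul_zero, zero_mul, zero_add, add_zero, zero_sub] at *
    have haa : a * star a * α = 1 := by
      apply mul_left_cancel₀ hα1
      field_simp at h30
      linear_combination h30
    have h4 : (β : ℂ) ^ 2 = α := by
      field_simp at h03
      have : (α : ℂ) * (((α - β) * a * star a - 1) * β + 1) = 0 := by
        have : ((α - β) * a * star a - 1) * β + 1 = (0 : ℂ) := by
          linear_combination h03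
        rw [this]; ring
      linear_combination -this + β * (α - β) * haa
    have h4' : β ^ 2 = α := by exact_mod_cast h4
    have h5 : (-3 + 1 / α + 2 / β : ℝ) = 0 := by
      have : (-3 + 1 / α + 2 / β : ℂ) = 0 := by linear_combination h12
      exact_mod_cast this
    have hb1 : 1 < β := by nlinarith
    have ha1 : 1 < α := hb1.trans hαβ
    have i1 : 1 / α < 1 := by rw [div_lt_one hα]; exact ha1
    have i2 : 2 / β < 2 := by rw [div_lt_iff₀ hβ]; linarith
    linarith

/-- (K5) -/
theorem critMain : CritMain := by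
  intro α β a b c k p q hβ hαβ ha R1 R2
  obtain ⟨rfl, rfl, rfl⟩ := crit_k α β a b c k p q hβ hαβ ha R1
  refine crit_two α β a b c hβ hαβ ha (fun x y X Y => ?_)
  have := R2 x y X Y
  simp only [q2, cj, Pi.zero_apply, star_zero] at this
  linear_combination this

end Pool.Agent.W2helper74.SOS
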