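import Pool.Agent.W2helper74.SOS.Six
import Pool.Agent.W2helper74.SOS.K5
import Pool.Agent.W2helper74.SOS.K10
import Pool.Agent.W2helper54.SOS.K6
import Pool.Agent.W2helper12.SOS.K4
import Pool.Agent.W2helper4.SOS.K2
import Pool.Agent.W2helper47.SOS.K9
import Pool.Agent.W2helper52.SOS.K8
import Pool.Agent.W2helper18.SOS.J9b

/-! # MP_ce7760_an : final assembly (the pieces of `Stm`, `Stm2`, `Stm3`) -/

open MvPolynomial

namespace Pool.Agent.W2helper74.SOS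

theorem last_of_base (hB : Base) : Last :=
  last Pool.Agent.W2helper17.SOS.setUp Pool.Agent.W2helper4.SOS.red
    Pool.Agent.W2helper12.SOS.K4.pDegB Pool.Agent.W2helper22.SOSG.f5 Pool.Agent.W2helper22.SOSG.f6
    Pool.Agent.W2helper22.SOSG.g' Pool.Agent.W2helper12.SOS.K4.mxThree
    (Pool.Agent.W2helper47.SOS.cubic hB (Pool.Agent.W2helper54.SOS.crit critMain) nf_proof)

theorem gap2 (h2 : Num2) (h3 : Num3) (hS : StarUp) : Gap2 :=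
  gap2_of Pool.Agent.W2helper12.SOS.pB1
    (Pool.Agent.W2helper19.SOS.c1 Pool.Agent.W2helper12.SOS.pB1 Pool.Agent.W2helper12.SOS.pB3
      Pool.Agent.W2helper66.SOS.b4 Pool.Agent.W2helper66.SOS.b5)
    Pool.Agent.W2helper12.SOS.pC2'
    (Pool.Agent.W2helper19.SOS.c3 Pool.Agent.W2helper12.SOS.pB1 Pool.Agent.W2helper12.SOS.pB2
      Pool.Agent.W2helper12.SOS.pB3 Pool.Agent.W2helper66.SOS.b4 Pool.Agent.W2helper66.SOS.b5)
    Pool.Agent.W2helper17.SOS.setUp Pool.Agent.W2helper17.SOS.datAlg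
    Pool.Agent.W2helper22.SOSG.f5 Pool.Agent.W2helper22.SOSG.f6 Pool.Agent.W2helper22.SOSG.g main
    h2 h3 hS

/-- Ebenfelt's SOS conjecture -/
theorem conjecture (hL : Last) : ∀ n m : ℕ, 1 ≤ n → m ∈ S1 n →
    ∀ κ : ℕ, ¬ (κ * n < m ∧ m + κ * (κ + 1) / 2 < (κ + 1) * n) := by
  intro n m hn hm
  refine main.2 n m hn ?_ hm
  rintro ⟨rfl, rfl⟩
  exact hL hm

theorem sets (hL : Last) :
    (∀ m, m ∈ S1 1) ∧ (∀ m, m ∈ S1 2 ↔ m = 0 ∨ 2 ≤ m) ∧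
    (∀ m, m ∈ S1 3 ↔ m = 0 ∨ m = 3 ∨ 5 ≤ m) ∧ (∀ m, m ∈ S1 4 ↔ m = 0 ∨ m = 4 ∨ 7 ≤ m) ∧
    (∀ m, m ∈ S1 5 ↔ m = 0 ∨ m = 5 ∨ m = 9 ∨ m = 10 ∨ 12 ≤ m) ∧
    (∀ m, m ∈ S1 6 ↔ m = 0 ∨ m = 6 ∨ m = 11 ∨ m = 12 ∨ 15 ≤ m) := by
  obtain ⟨c1, c2, c3, c4, c5⟩ := Pool.Agent.W2helper18.SOS.con
  have hc := conjecture hL
  refine ⟨c1, fun m => ⟨fun h => ?_, c2 m⟩, fun m => ⟨fun h => ?_, c3 m⟩,
    fun m => ⟨fun h => ?_, c4 m⟩, fun m => ⟨fun h => ?_, c5 m⟩, fun m => ⟨fun h => ?_, con6 m⟩⟩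
  · have h0 := hc 2 m (by norm_num) h 0
    omega
  · have h0 := hc 3 m (by norm_num) h 0
    have h1 := hc 3 m (by norm_num) h 1
    omega
  · have h0 := hc 4 m (by norm_num) h 0
    have h1 := hc 4 m (by norm_num) h 1
    omega
  · have h0 := hc 5 m (by norm_num) h 0
    have h1 := hc 5 m (by norm_num) h 1
    have h2 := hc 5 m (by norm_num) h 2
    omega
  · have h0 := hc 6 m (by norm_num) h 0
    have h1 := hc 6 m (by norm_num) h 1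
    have h2 := hc 6 m (by norm_num) h 2
    omega

end Pool.Agent.W2helper74.SOS
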