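import Pool.Agent.W2helper74.SOS.Stm3
import Pool.Agent.W2helper18.SOS.J9a
import Pool.Agent.W2helper22.SOSG.F

set_option autoImplicit false

/-!
# MP_ce7760_an : arithmetic (`Num2`, `Num3`) and the bound for stars (`StarUp`)
-/

open MvPolynomial

namespace Pool.Agent.W2helper74.SOS

open Pool.Agent.W2helper22.SOSG

theorem num3 : Num3 := by
  intro n r M hn hmono h1 h2
  obtain ⟨D, hD⟩ : ∃ D : ℕ → ℕ, ∀ i, M (i + 1) = M i + D i :=
    ⟨fun i => M (i + 1) - M i, fun i => by have := hmono i; simp only; omega⟩
  have hDs : ∀ i, M (i + 1) - M i = D i := fun i => by rw [hD i]; omega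
  have h1' : ∀ i, i + 2 ≤ n → min (D (i + 1)) (i + 1) ≤ D i := by
    intro i hi
    have := h1 (i + 1) (by omega) (by omega)
    rwa [hDs (i + 1), Nat.add_sub_cancel, hDs i] at this
  obtain ⟨N, rfl⟩ : ∃ N, n = N + 1 := ⟨n - 1, by omega⟩
  rw [Nat.add_sub_cancel, hD N] at h2
  have pass : ∀ k i, i + k = N → min (i + 1) r ≤ D i := by
    intro k
    induction k with
    | zero =>
      intro i hi
      have : i = N := by omega
      rw [this]
      omega
    | succ k ih =>
      intro i hi
      have a := ih (i + 1) (by omega)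
      have b := h1' i (by omega)
      omega
  have hsum : ∀ t, t ≤ N + 1 → r * t ≤ M t + ∑ i ∈ Finset.range t, (r - 1 - i) := by
    intro t
    induction t with
    | zero => intro _; simp
    | succ t ih =>
      intro ht
      have a := ih (by omega)
      have b := pass (N - t) t (by omega)
      have c := hD t
      rw [Finset.sum_range_succ, Nat.mul_succ, c]
      omega
  have hS := hsum (N + 1) le_rfl
  have ht := Pool.Agent.W2helper18.SOS.tri_le r (N + 1)
  rw [mul_comm] at hS
  omega

theorem num2 : Num2 := by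
  intro n r M hn hr hmono hM1 h1 h3 h2
  obtain ⟨D, hD⟩ : ∃ D : ℕ → ℕ, ∀ i, M (i + 1) = M i + D i :=
    ⟨fun i => M (i + 1) - M i, fun i => by have := hmono i; simp only; omega⟩
  have hDs : ∀ i, M (i + 1) - M i = D i := fun i => by rw [hD i]; omega
  have h1' : ∀ i, i + 2 ≤ n → min (D (i + 1)) (i + 1) ≤ D i := by
    intro i hi
    have := h1 (i + 1) (by omega) (by omega)
    rwa [hDs (i + 1), Nat.add_sub_cancel, hDs i] at this
  have h3' : ∀ i, 1 ≤ i → i + 2 ≤ n → i + 2 ≤ D (i + 1) → i + 2 ≤ D i := by
    intro i hi1 hi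
    have := h3 (i + 1) (by omega) (by omega)
    rwa [hDs (i + 1), Nat.add_sub_cancel, hDs i] at this
  obtain ⟨N, rfl⟩ : ∃ N, n = N + 2 := ⟨n - 2, by omega⟩
  have e1 : N + 2 - 1 = N + 1 := by omega
  rw [e1, hD (N + 1)] at h2
  have pass : ∀ k i, i + k = N → 1 ≤ i → min (i + 2) r ≤ D i := by
    intro k
    induction k with
    | zero =>
      intro i hi hi1
      have : i = N := by omega
      subst this
      have a := h1' i le_rfl
      have b := h3' i hi1 le_rfl
      by_cases c : i + 2 ≤ D (i + 1)
      · have := b c; omega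
      · omega
    | succ k ih =>
      intro i hi hi1
      have a := ih (i + 1) (by omega) (by omega)
      have b := h1' i (by omega)
      have b' := h3' i hi1 (by omega)
      by_cases c : i + 2 ≤ D (i + 1)
      · have := b' c; omega
      · omega
  -- sum: M (t+1) ≥ 1 + ∑_{i=1}^{t} min (i+2) r
  have hsum : ∀ t, t ≤ N → r * t + 1 ≤ M (t + 1) + ∑ i ∈ Finset.range t, (r - 2 - (i + 1)) := by
    intro t
    induction t with
    | zero => intro _; simp; omega
    | succ t ih =>
      intro ht
      have a := ih (by omega)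
      have b := pass (N - (t + 1)) (t + 1) (by omega) (by omega)
      have c := hD (t + 1)
      rw [Finset.sum_range_succ, Nat.mul_succ, c]
      omega
  have hS := hsum N le_rfl
  have ht := Pool.Agent.W2helper18.SOS.tri_le (r - 2) N
  have h5 : ∀ i ∈ Finset.range N, r - 2 - (i + 1) = (r - 2) - 1 - i := fun i _ => by omega
  rw [Finset.sum_congr rfl h5] at hS
  have h6 : M (N + 2) = M (N + 1) + D (N + 1) := hD (N + 1)
  rw [mul_comm] at hS
  obtain ⟨s, rfl⟩ : ∃ s, r = s + 3 := ⟨r - 3, by omega⟩
  have e3 : s + 3 - 2 = s + 1 := by omega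
  have e4 : s + 3 - 1 = s + 2 := by omega
  have e5 : s + 1 - 1 = s := by omega
  simp only [e3, e4, e5] at hS ht ⊢
  have e6 : (s + 2) * (s + 1) = (s + 1) * s + 2 * (s + 1) := by ring
  have e7 : (N + 2) * (s + 3) = N * (s + 3) + 2 * (s + 3) := by ring
  rw [e6, e7]
  generalize ∑ i ∈ Finset.range N, (s - i) = S at hS ht
  generalize (s + 1) * s = P at ht ⊢
  generalize N * (s + 3) = Q at hS ⊢
  omega


theorem V_le_span {n m r D : ℕ} (d : Dat n m r D) :
    d.V ≤ Submodule.span ℂ (Set.range fun q : Fin n × Fin r => X q.1 * d.e q.2) := by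
  unfold Dat.V
  rw [Submodule.span_le]
  rintro _ ⟨j, rfl⟩
  by_contra hc
  obtain ⟨φ, hφ, hker⟩ := Submodule.exists_le_ker_of_notMem hc
  have h2 : ∀ k i, φ (X k * d.e i) = 0 := fun k i =>
    LinearMap.mem_ker.mp (hker (Submodule.subset_span ⟨(k, i), rfl⟩))
  have h3 : ∀ w : Fin n → ℂ, ∑ j, star (eval w (d.p j)) * φ (d.p j) = 0 := by
    intro w
    have h := congrArg φ (main_pol d w)
    simpa only [map_sum, map_smul, smul_eq_mul, h2, mul_zero, Finset.sum_const_zero] using h
  have h4 : ∑ j, star (φ (d.p j)) • d.p j = 0 := by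
    apply MvPolynomial.funext
    intro w
    have h := congrArg star (h3 w)
    simp only [star_sum, star_mul, star_star, star_zero] at h
    simp only [map_sum, smul_eval, map_zero]
    rw [← h]
  have h5 := Fintype.linearIndependent_iff.mp d.p_ind _ h4 j
  apply hφ
  have := congrArg star h5
  simpa using this

lemma lf_sum_smul {n r : ℕ} (w : Fin r → Fin n → ℂ) (g : Fin r → ℂ) :
    lf (∑ i, g i • w i) = ∑ i, C (g i) * lf (w i) := by
  simp only [lf, Finset.sum_apply, Pi.smul_apply, smul_eq_mul, map_sum, map_mul,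
    Finset.sum_mul, Finset.mul_sum]
  rw [Finset.sum_comm]
  refine Finset.sum_congr rfl fun i _ => Finset.sum_congr rfl fun k _ => ?_
  ring

/-- antisymmetric matrix with given entries below the diagonal -/
def anti {r : ℕ} (c : ((l : Fin r) × Fin l) → ℂ) (i l : Fin r) : ℂ :=
  if h : (i : ℕ) < l then c ⟨l, ⟨i, h⟩⟩ else if h : (l : ℕ) < i then - c ⟨i, ⟨l, h⟩⟩ else 0

lemma anti_swap {r : ℕ} (c : ((l : Fin r) × Fin l) → ℂ) (i l : Fin r) :
    anti c i l = - anti c l i := by
  unfold anti
  rcases lt_trichotomy (i : ℕ) l with h | h | h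
  · rw [dif_pos h, dif_neg (by omega), dif_pos h, neg_neg]
  · rw [dif_neg (by omega), dif_neg (by omega), dif_neg (by omega), dif_neg (by omega), neg_zero]
  · rw [dif_neg (by omega), dif_pos h, dif_pos h]

theorem starUp : StarUp := by
  intro n m r D d ⟨h, hh⟩
  have hw : ∀ i, ∃ w : Fin n → ℂ, d.e i = h * lf w := fun i =>
    hh _ (Submodule.subset_span (Set.mem_range_self i))
  choose w hw using hw
  rcases Nat.eq_zero_or_pos r with hr | hr
  · subst hr
    have := f6 n m 0 D d
    simpa using this
  have hwi : LinearIndependent ℂ w := by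
    rw [Fintype.linearIndependent_iff]
    intro g hg
    have h1 : ∑ i, g i • d.e i = 0 := by
      have h3 : ∑ i, g i • d.e i = h * ∑ i, C (g i) * lf (w i) := by
        rw [Finset.mul_sum]
        refine Finset.sum_congr rfl fun i _ => ?_
        rw [hw, smul_eq_C_mul]
        ring
      rw [h3, ← lf_sum_smul, hg]
      simp [lf]
    exact Fintype.linearIndependent_iff.mp d.e_ind g h1
  -- the map to the products and the syzygies
  let Φ : (Fin n × Fin r → ℂ) →ₗ[ℂ] Pol n :=
    Fintype.linearCombination ℂ (fun q : Fin n × Fin r => (X q.1 * d.e q.2 : Pol n))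
  have hΦ : ∀ c, Φ c = ∑ q : Fin n × Fin r, c q • (X q.1 * d.e q.2 : Pol n) := fun c =>
    Fintype.linearCombination_apply ℂ _ c
  let Ψ : (((l : Fin r) × Fin l) → ℂ) →ₗ[ℂ] (Fin n × Fin r → ℂ) :=
    { toFun := fun c q => ∑ i, anti c i q.2 * w i q.1
      map_add' := by
        intro c c'
        funext q
        simp only [Pi.add_apply]
        rw [← Finset.sum_add_distrib]
        refine Finset.sum_congr rfl fun i _ => ?_
        rw [← add_mul]
        congr 1
        unfold anti
        split_ifs <;> simp <;> ring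
      map_smul' := by
        intro t c
        funext q
        simp only [Pi.smul_apply, smul_eq_mul, RingHom.id_apply]
        rw [Finset.mul_sum]
        refine Finset.sum_congr rfl fun i _ => ?_
        rw [← mul_assoc]
        congr 1
        unfold anti
        split_ifs <;> simp }
  have hΨ : ∀ c q, Ψ c q = ∑ i, anti c i q.2 * w i q.1 := fun _ _ => rfl
  have hinj : Function.Injective Ψ := by
    rw [injective_iff_map_eq_zero]
    intro c hc
    have h1 : ∀ l i, anti c i l = 0 := by
      intro l
      apply Fintype.linearIndependent_iff.mp hwi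
      funext k
      have h2 := congrFun hc (k, l)
      rw [hΨ] at h2
      simpa only [Finset.sum_apply, Pi.smul_apply, smul_eq_mul, Pi.zero_apply] using h2
    funext ⟨l, i⟩
    have h2 := h1 l ⟨i, by omega⟩
    unfold anti at h2
    rw [dif_pos i.2] at h2
    exact h2
  have hcomp : ∀ c, Φ (Ψ c) = 0 := by
    intro c
    rw [hΦ, Fintype.sum_prod_type, Finset.sum_comm]
    have h1 : ∀ l, ∑ k, Ψ c (k, l) • (X k * d.e l : Pol n) =
        h * ∑ i, C (anti c i l) * (lf (w i) * lf (w l)) := by
      intro l
      have h2 : ∑ k, Ψ c (k, l) • (X k * d.e l : Pol n) =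
          lf (∑ i, anti c i l • w i) * d.e l := by
        rw [lf, Finset.sum_mul]
        refine Finset.sum_congr rfl fun k _ => ?_
        rw [smul_eq_C_mul, hΨ]
        simp only [Finset.sum_apply, Pi.smul_apply, smul_eq_mul]
        ring
      rw [h2, lf_sum_smul, hw, Finset.sum_mul, Finset.mul_sum]
      refine Finset.sum_congr rfl fun i _ => ?_
      ring
    simp only [h1]
    rw [← Finset.mul_sum]
    have h3 : ∑ l, ∑ i, (C (anti c i l) : Pol n) * (lf (w i) * lf (w l)) =
        - ∑ l, ∑ i, (C (anti c i l) : Pol n) * (lf (w i) * lf (w l)) := by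
      conv_lhs => rw [Finset.sum_comm]
      rw [← Finset.sum_neg_distrib]
      refine Finset.sum_congr rfl fun l _ => ?_
      rw [← Finset.sum_neg_distrib]
      refine Finset.sum_congr rfl fun i _ => ?_
      rw [anti_swap c l i, map_neg]
      ring
    rw [self_eq_neg.mp h3, mul_zero]
  have hker : LinearMap.range Ψ ≤ LinearMap.ker Φ := by
    rintro _ ⟨c, rfl⟩
    exact LinearMap.mem_ker.mpr (hcomp c)
  have h1 := Submodule.finrank_mono hker
  rw [LinearMap.finrank_range_of_inj hinj] at h1
  have h2 := LinearMap.finrank_range_add_finrank_ker Φ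
  have h3 : d.V ≤ LinearMap.range Φ := by
    refine (V_le_span d).trans ?_
    rw [Submodule.span_le]
    rintro _ ⟨q, rfl⟩
    refine ⟨Pi.single q 1, ?_⟩
    rw [hΦ, Finset.sum_eq_single q]
    · simp
    · intro b _ hb
      simp [hb]
    · simp
  have h4 := Submodule.finrank_mono h3
  rw [finrank_V] at h4
  rw [Module.finrank_fintype_fun_eq_card, Fintype.card_prod, Fintype.card_fin,
    Fintype.card_fin] at h2
  rw [Module.finrank_fintype_fun_eq_card, Fintype.card_sigma] at h1
  simp only [Fintype.card_fin] at h1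
  rw [Fin.sum_univ_eq_sum_range (fun i => i) r, Finset.sum_range_id] at h1
  omega

end Pool.Agent.W2helper74.SOS
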