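import Pool.Agent.W2helper19.SOS.J3
import Pool.Agent.W2helper17.SOS.SetUp
import Pool.Agent.W2helper17.SOS.DatAlg
import Pool.Agent.W2helper4.SOS.J5
import Pool.Agent.W2helper18.SOS.J6
import Pool.Agent.W2helper18.SOS.J9a
import Pool.Agent.W2helper22.SOSG.F
import Pool.Agent.W2helper22.SOSG.G
import Pool.Agent.W2helper12.SOS.J1
import Pool.Agent.W2helper66.SOS.J2

/-! # SOS conjecture: assembly of `Main` -/

open MvPolynomial

namespace Pool.Agent.W2helper74.SOS

lemma triMono {a b : ℕ} (h : a ≤ b) : a * (a - 1) / 2 ≤ b * (b - 1) / 2 := by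
  apply Nat.div_le_div_right
  exact Nat.mul_le_mul h (by omega)

lemma lfNe {n : ℕ} {w : Fin n → ℂ} (hw : w ≠ 0) : lf w ≠ 0 := by
  intro h
  apply hw
  funext k
  have h1 : eval (Pi.single k 1) (lf w) = 0 := by rw [h, map_zero]
  unfold lf at h1
  simp only [map_sum, map_mul, eval_C, eval_X] at h1
  rw [Finset.sum_eq_single k] at h1
  · simpa using h1
  · intro b _ hb
    simp [Pi.single_apply, hb]
  · simp

/-- facts about the data -/
lemma finV {n m r D : ℕ} (d : Dat n m r D) : Module.finrank ℂ d.V = m := by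
  unfold Dat.V
  rw [finrank_span_eq_card d.p_ind]
  simp

lemma finE {n m r D : ℕ} (d : Dat n m r D) : Module.finrank ℂ d.E = r := by
  unfold Dat.E
  rw [finrank_span_eq_card d.e_ind]
  simp

instance {n m r D : ℕ} (d : Dat n m r D) : Module.Finite ℂ d.V :=
  FiniteDimensional.span_of_finite ℂ (Set.finite_range _)

instance {n m r D : ℕ} (d : Dat n m r D) : Module.Finite ℂ d.E :=
  FiniteDimensional.span_of_finite ℂ (Set.finite_range _)

lemma homE {n m r D : ℕ} (d : Dat n m r D) : ∀ e ∈ d.E, e.IsHomogeneous D := by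
  intro e he
  have hle : d.E ≤ homogeneousSubmodule (Fin n) ℂ D := by
    apply Submodule.span_le.2
    rintro _ ⟨i, rfl⟩
    exact d.e_hom i
  exact hle he

/-- `m ≥ 1` if `r ≥ 2` -/
lemma one_le_m {n m r D : ℕ} (hDA : DatAlg) (d : Dat n m r D) (hr : 2 ≤ r) : 1 ≤ m := by
  by_contra hm
  have hm0 : m = 0 := by omega
  obtain ⟨g, hV, hE⟩ := hDA n m r D d
  have hV0 : g.V = ⊥ := by
    rw [hV]
    apply Submodule.finrank_eq_zero.1
    rw [finV, hm0]
  have ha : ∀ w, w ≠ 0 → g.a w = 0 := by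
    intro w hw
    have h1 : lf w * g.a w ∈ g.V := by
      rw [← g.spanV]
      exact Submodule.subset_span ⟨w, rfl⟩
    rw [hV0, Submodule.mem_bot] at h1
    exact (mul_eq_zero.1 h1).resolve_left (lfNe hw)
  have hle : g.E ≤ Submodule.span ℂ {g.a 0} := by
    rw [← g.spanE]
    apply Submodule.span_le.2
    rintro _ ⟨w, rfl⟩
    by_cases hw : w = 0
    · subst hw; exact Submodule.subset_span rfl
    · show g.a w ∈ _
      rw [ha w hw]; exact Submodule.zero_mem _
  have h2 : Module.finrank ℂ g.E ≤ 1 := by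
    refine (Submodule.finrank_mono hle).trans ?_
    refine (finrank_span_le_card _).trans ?_
    simp
  rw [hE, finE] at h2
  omega

theorem main1 (hB1 : B1) (hC1 : C1) (hC2' : C2') (hC2 : C2) (hC3 : C3) (hDA : DatAlg) (hA4 : A4)
    (hF4 : F4) (hG : G) (hG' : G') (hN : Num) :
    ∀ n m r D (d : Dat n m r D) (κ : ℕ), 4 ≤ n → κ * (κ + 1) / 2 < n →
    m + 4 < (κ + 2) * (n + 1 - κ) → d.Psd := by
  intro n m r D d κ hn hκ hm
  by_contra hnp
  have h4 := hF4 n m r D d hnp
  have hr : κ + 2 ≤ r := by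
    by_contra h
    have h1 : r ≤ κ + 1 := by omega
    have h2 := triMono h1
    have h3 : (κ + 1) * (κ + 1 - 1) = κ * (κ + 1) := by
      rw [Nat.add_sub_cancel, mul_comm]
    rw [h3] at h2
    omega
  have hr3 : 3 ≤ r := by
    by_contra h
    have h1 : r ≤ 2 := by omega
    have h2 := triMono h1
    simp at h2
    omega
  have hE2 : ¬ mx d.E 2 ≤ 2 := by
    intro h
    obtain ⟨q, hq⟩ := hG n D d.E inferInstance (homE d) (by rw [finE]; exact hr3) h
    exact hnp (hG' n m r D d ⟨q, hq⟩)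
  obtain ⟨g, hV, hE⟩ := hDA n m r D d
  have hm1 : 1 ≤ m := one_le_m hDA d (by omega)
  obtain ⟨-, -, -, hMn, hmono⟩ := hB1 n d.V inferInstance
  have hκn : κ ≤ n := by
    rcases Nat.eq_zero_or_pos κ with h | h
    · omega
    · have : κ ≤ κ * (κ + 1) / 2 := by
        rw [Nat.le_div_iff_mul_le (by norm_num)]
        nlinarith
      omega
  have hM1 : 1 ≤ mx d.V 1 := by
    have := hC2' n d.V inferInstance 1
    rw [finV] at this
    omega
  have h := hN n κ (mx d.V) hn hκn hmono hM1 (fun j h1 h2 => hC1 n d.V inferInstance j h1 h2)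
    (fun j h1 h2 h3 h4 h5 => by
      have := hC2 n g j (mx d.V (j + 1) - mx d.V j) h1 h2 h3 (by rw [hV]) (by rw [hV]; exact h5.symm)
      rw [hE] at this
      rcases this with h | h
      · rw [finE] at h; omega
      · exact hE2 h)
    (fun j h1 h2 h3 => by
      by_contra h4
      have := hC3 n g j h1 h2 (by rw [hV]; exact h3) (by rw [hV]; omega)
      rw [hE] at this
      exact hE2 this)
    (by rw [hMn, finV]; exact hA4 n m r D d 1 le_rfl (by omega))
    (by rw [hMn, finV]; exact hA4 n m r D d 2 (by norm_num) (by omega))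
  rw [hMn, finV] at h
  omega

theorem main_of (hB1 : B1) (hC1 : C1) (hC2' : C2') (hC2 : C2) (hC3 : C3) (hSU : SetUp)
    (hDA : DatAlg) (hA4 : A4) (hF4 : F4) (hF5 : F5) (hF6 : F6) (hG : G) (hG' : G') (hN : Num)
    (hN' : Num') : Main := by
  have hP1 := main1 hB1 hC1 hC2' hC2 hC3 hDA hA4 hF4 hG hG' hN
  refine ⟨hP1, ?_⟩
  intro n m hn h34 hm κ ⟨h1, h2⟩
  set T := κ * (κ + 1) / 2 with hT
  have hTκ : κ ≤ T := by
    rcases Nat.eq_zero_or_pos κ with h | h
    · omega
    · rw [hT, Nat.le_div_iff_mul_le (by norm_num)]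
      nlinarith
  have e1 : (κ + 1) * n = κ * n + n := by ring
  have hTn : T < n := by omega
  rcases Nat.lt_or_ge n 2 with hn2 | hn2
  · have : n = 1 := by omega
    subst this
    omega
  obtain ⟨r, D, ⟨d⟩⟩ := hSU n m hn2 (by omega) hm
  obtain ⟨-, -, -, hMn, hmono⟩ := hB1 n d.V inferInstance
  rw [finV] at hMn
  have hM1 : 1 ≤ mx d.V 1 := by
    have := hC2' n d.V inferInstance 1
    rw [finV] at this
    omega
  have hA := hA4 n m r D d 1 le_rfl (by omega)
  by_cases hpsd : d.Psd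
  · have h5 := hF5 n m r D d hn hpsd
    have h6 := hF6 n m r D d
    have hκr : κ + 1 ≤ r := by
      by_contra h
      have : r ≤ κ := by omega
      have := Nat.mul_le_mul_left n this
      rw [mul_comm n κ] at this
      omega
    have := hN' n κ (mx d.V) (by omega) hmono
      (fun j h1 h2 => hC1 n d.V inferInstance j h1 h2) (by omega)
    rw [hMn] at this
    omega
  · rcases Nat.lt_or_ge n 4 with hn4 | hn4
    · have hn23 : n = 2 ∨ n = 3 := by omega
      rcases hn23 with rfl | rfl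
      · have hκ : κ ≤ 1 := by omega
        interval_cases κ <;> simp at hT hA <;> omega
      · have hκ : κ ≤ 2 := by omega
        have hC := hC1 3 d.V inferInstance 2 (by norm_num) (by norm_num)
        have hmo := hmono 1
        simp only [show (2 : ℕ) + 1 = 3 from rfl, show (2 : ℕ) - 1 = 1 from rfl,
          show (3 : ℕ) - 1 = 2 from rfl, show (1 : ℕ) + 1 = 2 from rfl] at hC hmo hA
        interval_cases κ <;> simp at hT <;> omega
    · apply hpsd
      apply hP1 n m r D d κ hn4 hTn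
      -- arithmetic
      have hκn : κ ≤ n := by omega
      obtain ⟨t, rfl⟩ := Nat.exists_eq_add_of_le hκn
      have e2 : (κ + 2) * (κ + t + 1 - κ) = (κ + 2) * (t + 1) := by
        congr 1; omega
      rw [e2]
      have hTT : κ * (κ + 1) = 2 * T := by
        rw [hT]
        exact (Nat.mul_div_cancel' (Nat.even_mul_succ_self κ).two_dvd).symm
      nlinarith

theorem main : Main :=
  main_of Pool.Agent.W2helper12.SOS.pB1
    (Pool.Agent.W2helper19.SOS.c1 Pool.Agent.W2helper12.SOS.pB1 Pool.Agent.W2helper12.SOS.pB3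
      Pool.Agent.W2helper66.SOS.b4 Pool.Agent.W2helper66.SOS.b5)
    Pool.Agent.W2helper12.SOS.pC2'
    (Pool.Agent.W2helper19.SOS.c2 Pool.Agent.W2helper12.SOS.pB1 Pool.Agent.W2helper12.SOS.pB2
      Pool.Agent.W2helper12.SOS.pB3 Pool.Agent.W2helper66.SOS.b4 Pool.Agent.W2helper66.SOS.b5
      Pool.Agent.W2helper12.SOS.pC2')
    (Pool.Agent.W2helper19.SOS.c3 Pool.Agent.W2helper12.SOS.pB1 Pool.Agent.W2helper12.SOS.pB2
      Pool.Agent.W2helper12.SOS.pB3 Pool.Agent.W2helper66.SOS.b4 Pool.Agent.W2helper66.SOS.b5)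
    Pool.Agent.W2helper17.SOS.setUp Pool.Agent.W2helper17.SOS.datAlg
    (Pool.Agent.W2helper4.SOS.a4 Pool.Agent.W2helper12.SOS.pB1 Pool.Agent.W2helper12.SOS.pB2
      Pool.Agent.W2helper12.SOS.pB3)
    Pool.Agent.W2helper18.SOS.f4 Pool.Agent.W2helper22.SOSG.f5 Pool.Agent.W2helper22.SOSG.f6
    Pool.Agent.W2helper22.SOSG.g Pool.Agent.W2helper22.SOSG.g' Pool.Agent.W2helper18.SOS.num
    Pool.Agent.W2helper18.SOS.num'

end Pool.Agent.W2helper74.SOS
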