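import Pool.Agent.W2helper18.SOS.J9b

/-! # `19 ∈ S_1(6)` (a quotient which is not a sum of squares) -/

open MvPolynomial

namespace Pool.Agent.W2helper74.SOS

open Pool.Agent.W2helper18.SOS

/-- independence from private monomials -/
lemma indep_of_private {n m : ℕ} (e1 e2 : Fin m → Fin n → ℕ) (c1 c2 : Fin m → ℂ)
    (h1 : Function.Injective e1) (h2 : ∀ i j, e2 i ≠ e1 j) (h3 : ∀ i, c1 i ≠ 0) :
    LinearIndependent ℂ (fun j => monomial (fs (e1 j)) (c1 j) + monomial (fs (e2 j)) (c2 j)) := by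
  rw [Fintype.linearIndependent_iff]
  intro g hg i
  have h := congrArg (coeff (fs (e1 i))) hg
  rw [coeff_sum, coeff_zero, Finset.sum_eq_single i] at h
  · rw [coeff_smul, coeff_add, coeff_monomial, coeff_monomial, if_pos rfl,
      if_neg (fun hh => h2 i i (fs_inj hh)), add_zero, smul_eq_mul] at h
    exact (mul_eq_zero.1 h).resolve_right (h3 i)
  · intro j _ hj
    rw [coeff_smul, coeff_add, coeff_monomial, coeff_monomial,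
      if_neg (fun hh => hj (h1 (fs_inj hh))), if_neg (fun hh => h2 j i (fs_inj hh)), add_zero,
      smul_zero]
  · simp

lemma eval_mon {n : ℕ} (e : Fin n → ℕ) (c : ℂ) (z : Fin n → ℂ) :
    eval z (monomial (fs e) c) = c * ∏ k, z k ^ e k := by
  rw [eval_monomial, Finsupp.prod_fintype _ _ (by simp)]
  rfl

/-- first exponents -/
def ex1 : Fin 19 → Fin 6 → ℕ :=
  ![![3, 0, 0, 0, 0, 0], ![1, 2, 0, 0, 0, 0], ![0, 3, 0, 0, 0, 0],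
    ![2, 0, 1, 0, 0, 0], ![2, 0, 0, 0, 1, 0],
    ![0, 2, 0, 1, 0, 0], ![0, 2, 0, 0, 0, 1],
    ![0, 2, 1, 0, 0, 0], ![0, 2, 0, 0, 1, 0],
    ![2, 0, 0, 1, 0, 0], ![2, 0, 0, 0, 0, 1],
    ![1, 0, 2, 0, 0, 0], ![1, 0, 1, 1, 0, 0],
    ![0, 1, 0, 1, 1, 0], ![1, 0, 1, 0, 0, 1],
    ![0, 1, 1, 0, 0, 1], ![1, 0, 0, 1, 1, 0],
    ![1, 0, 0, 0, 2, 0], ![1, 0, 0, 0, 1, 1]]

/-- second exponents -/
def ex2 : Fin 19 → Fin 6 → ℕ :=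
  ![![0, 0, 0, 0, 0, 0], ![0, 0, 0, 0, 0, 0], ![0, 0, 0, 0, 0, 0],
    ![1, 1, 0, 1, 0, 0], ![1, 1, 0, 0, 0, 1],
    ![1, 1, 1, 0, 0, 0], ![1, 1, 0, 0, 1, 0],
    ![0, 0, 0, 0, 0, 0], ![0, 0, 0, 0, 0, 0],
    ![0, 0, 0, 0, 0, 0], ![0, 0, 0, 0, 0, 0],
    ![0, 1, 1, 1, 0, 0], ![0, 1, 0, 2, 0, 0],
    ![1, 0, 1, 0, 1, 0], ![0, 1, 0, 1, 0, 1],
    ![1, 0, 1, 0, 1, 0], ![0, 1, 0, 1, 0, 1],
    ![0, 1, 0, 0, 1, 1], ![0, 1, 0, 0, 0, 2]]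

/-- first coefficients; `r = √7`, `s = √(18/7)` -/
noncomputable def co1 (r s : ℂ) : Fin 19 → ℂ :=
  ![1, s, 5 * r / 7, 5 / 3, 5 / 3, 20 * r / 21, 20 * r / 21, 5 * r / 7, 5 * r / 7, 1, 1,
    4 / 3, 4 / 3, 5 / 3, 4 / 3, 5 / 3, 4 / 3, 4 / 3, 4 / 3]

/-- second coefficients -/
noncomputable def co2 (r : ℂ) : Fin 19 → ℂ :=
  ![0, 0, 0, 4 / 3, 4 / 3, r / 3, r / 3, 0, 0, 0, 0,
    5 / 3, 5 / 3, 4 / 3, 5 / 3, 4 / 3, 5 / 3, 5 / 3, 5 / 3]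

lemma nineteen : 19 ∈ S1 6 := by
  set r : ℂ := ((Real.sqrt 7 : ℝ) : ℂ) with hr
  set s : ℂ := ((Real.sqrt (18 / 7) : ℝ) : ℂ) with hs
  have hr2 : r * r = 7 := by
    rw [hr, ← Complex.ofReal_mul, Real.mul_self_sqrt (by norm_num)]; norm_num
  have hs2 : s * s = 18 / 7 := by
    rw [hs, ← Complex.ofReal_mul, Real.mul_self_sqrt (by norm_num)]; norm_num
  have hr0 : r ≠ 0 := by rintro h; rw [h] at hr2; norm_num at hr2
  have hs0 : s ≠ 0 := by rintro h; rw [h] at hs2; norm_num at hs2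
  have cr : (starRingEnd ℂ) r = r := Complex.conj_ofReal _
  have cs : (starRingEnd ℂ) s = s := Complex.conj_ofReal _
  refine ⟨fun j => monomial (fs (ex1 j)) (co1 r s j) + monomial (fs (ex2 j)) (co2 r j),
    indep_of_private ex1 ex2 _ _ (by decide +kernel) (by decide +kernel) ?_, ?_⟩
  · intro i
    fin_cases i <;> simp [co1, hr0, hs0]
  · refine ⟨X (Sum.inl 0) ^ 2 * X (Sum.inr 0) ^ 2
      - X (Sum.inl 0) * X (Sum.inl 1) * (X (Sum.inr 0) * X (Sum.inr 1))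
      + C (25 / 7) * X (Sum.inl 1) ^ 2 * X (Sum.inr 1) ^ 2
      + (C (4 / 3) * X (Sum.inl 0) * X (Sum.inl 2) + C (5 / 3) * X (Sum.inl 1) * X (Sum.inl 3)) *
        (C (4 / 3) * X (Sum.inr 0) * X (Sum.inr 2) + C (5 / 3) * X (Sum.inr 1) * X (Sum.inr 3))
      + (C (4 / 3) * X (Sum.inl 0) * X (Sum.inl 4) + C (5 / 3) * X (Sum.inl 1) * X (Sum.inl 5)) *
        (C (4 / 3) * X (Sum.inr 0) * X (Sum.inr 4) + C (5 / 3) * X (Sum.inr 1) * X (Sum.inr 5)),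
      fun z => ?_⟩
    have hn : ∀ w : ℂ, ((‖w‖ ^ 2 : ℝ) : ℂ) = w * (starRingEnd ℂ) w := by
      intro w
      rw [Complex.mul_conj, Complex.normSq_eq_norm_sq]
    have he : ∀ j : Fin 19, eval z (monomial (fs (ex1 j)) (co1 r s j) +
        monomial (fs (ex2 j)) (co2 r j)) = ![z 0 ^ 3, s * z 0 * z 1 ^ 2, 5 * r / 7 * z 1 ^ 3,
        5 / 3 * z 0 ^ 2 * z 2 + 4 / 3 * z 0 * z 1 * z 3,
        5 / 3 * z 0 ^ 2 * z 4 + 4 / 3 * z 0 * z 1 * z 5,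
        20 * r / 21 * z 1 ^ 2 * z 3 + r / 3 * z 0 * z 1 * z 2,
        20 * r / 21 * z 1 ^ 2 * z 5 + r / 3 * z 0 * z 1 * z 4,
        5 * r / 7 * z 1 ^ 2 * z 2, 5 * r / 7 * z 1 ^ 2 * z 4, z 0 ^ 2 * z 3, z 0 ^ 2 * z 5,
        z 2 * (4 / 3 * z 0 * z 2 + 5 / 3 * z 1 * z 3),
        z 3 * (4 / 3 * z 0 * z 2 + 5 / 3 * z 1 * z 3),
        z 4 * (4 / 3 * z 0 * z 2 + 5 / 3 * z 1 * z 3),
        z 5 * (4 / 3 * z 0 * z 2 + 5 / 3 * z 1 * z 3),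
        z 2 * (4 / 3 * z 0 * z 4 + 5 / 3 * z 1 * z 5),
        z 3 * (4 / 3 * z 0 * z 4 + 5 / 3 * z 1 * z 5),
        z 4 * (4 / 3 * z 0 * z 4 + 5 / 3 * z 1 * z 5),
        z 5 * (4 / 3 * z 0 * z 4 + 5 / 3 * z 1 * z 5)] j := by
      intro j
      fin_cases j <;> simp [eval_mon, ex1, ex2, co1, co2, Fin.prod_univ_succ] <;> ring
    rw [Complex.ofReal_sum, Complex.ofReal_sum]
    simp only [hn, he]
    simp only [Fin.sum_univ_succ, Finset.univ_eq_empty, Finset.sum_empty]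
    simp [cr, cs, map_ofNat]
    generalize (starRingEnd ℂ) (z 0) = c0
    generalize (starRingEnd ℂ) (z 1) = c1
    generalize (starRingEnd ℂ) (z 2) = c2
    generalize (starRingEnd ℂ) (z 3) = c3
    generalize (starRingEnd ℂ) (z 4) = c4
    generalize (starRingEnd ℂ) (z 5) = c5
    linear_combination (z 0 * z 1 ^ 2 * c0 * c1 ^ 2) * hs2 +
      (25 / 49 * (z 1 ^ 3 * c1 ^ 3 + z 1 ^ 2 * z 2 * c1 ^ 2 * c2 + z 1 ^ 2 * z 4 * c1 ^ 2 * c4) +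
        (20 / 21 * z 1 ^ 2 * z 3 + 1 / 3 * z 0 * z 1 * z 2) *
          (20 / 21 * c1 ^ 2 * c3 + 1 / 3 * c0 * c1 * c2) +
        (20 / 21 * z 1 ^ 2 * z 5 + 1 / 3 * z 0 * z 1 * z 4) *
          (20 / 21 * c1 ^ 2 * c5 + 1 / 3 * c0 * c1 * c4)) * hr2

end Pool.Agent.W2helper74.SOS
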