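import Pool.Agent.W2helper74.SOS.Final
import Pool.Agent.W2helper17.SOS.SetUp2
import Pool.Agent.W2helper74.SOS.L
import Pool.Agent.W2helper66.SOS.K7

set_option autoImplicit false

/-!
# Ebenfelt's SOS conjecture, and the sets `S_1(n)` for `n ≤ 6`

`S_1(n)` is the set of all ranks `m` of sums of squares `∑_(j ≤ m) |p_j(z)|²` of linearly independent
holomorphic polynomials on `ℂⁿ` which are divisible by `‖z‖²`. We prove:

* (gap theorem, conjectured by Ebenfelt) if `m ∈ S_1(n)` then for no `κ`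
  `κ n < m < (κ + 1) n - κ (κ + 1) / 2`. No hypothesis on `n`, on the degree or on the quotient.
* Let `n ≥ 4`, `κ (κ + 1) / 2 < n` and `m < (κ + 2) (n + 1 - κ) - 4`. Then every quotient
  `A = ∑_(j ≤ m) |p_j|² / ‖z‖²` is itself a sum of squares, and the gaps are larger: there is an `r`
  with `m = n r - r (r - 1) / 2` or `n r - (r - 1) (r - 2) / 2 - 1 ≤ m ≤ n r`.
* the exact sets: `S_1(1) = ℕ`, `S_1(2) = {0} ∪ [2, ∞)`, `S_1(3) = {0, 3} ∪ [5, ∞)`,
  `S_1(4) = {0, 4} ∪ [7, ∞)`, `S_1(5) = {0, 5, 9, 10} ∪ [12, ∞)`,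
  `S_1(6) = {0, 6, 11, 12} ∪ [15, ∞)`.

Method. Let `V` be the span of the `p_j` (homogeneous after a shift of exponents), `a(w) = A(·, conj w)`,
`E` the span of the `a(w)`. For generic subspaces `T ⊆ ℂⁿ` of dimension `j` let `M_j = dim V|_T`,
`k_j = M_j - M_(j-1)`. One has `k_j ≥ min(k_(j+1), j)`; equality in this chain forces `E|_T` into the
space `{f : V_1 f ⊆ V|_T}` and so bounds `dim E`, or `E = h · (linear forms)`, in which case the quotient
is a sum of squares. Together with `M_t + M_(n-t) ≤ m` (orthogonality of `T` and `T^⊥`) and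
`n ≤ r (r - 1) / 2` for quotients of rank `r` which are not sums of squares this gives the first two
parts, except `(n, m) = (3, 4)`. There a separate argument (degree bound by second derivatives at a
generic point, then a unitary normal form of cubic maps at a base point or at a point where
`∑ |p_j|²` is maximal on the unit sphere) shows `4 ∉ S_1(3)`.
The value `19 ∈ S_1(6)` comes from a quotient that is not a sum of squares.
-/

open MvPolynomial

namespace Pool.Agent.W2helper74.SOS.Quotients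

/-- `∑ j, |p j (z)|² = ‖z‖² * A (z, conj z)` on `ℂⁿ` -/
def IsQuotient {n m : ℕ} (p : Fin m → MvPolynomial (Fin n) ℂ)
    (A : MvPolynomial (Fin n ⊕ Fin n) ℂ) : Prop :=
  ∀ z : Fin n → ℂ, ((∑ j, ‖eval z (p j)‖ ^ 2 : ℝ) : ℂ) =
    ((∑ k, ‖z k‖ ^ 2 : ℝ) : ℂ) * eval (Sum.elim z (fun k => (starRingEnd ℂ) (z k))) A

/-- `A (z, conj z)` is a sum of squares `∑ i, |q i (z)|²` of holomorphic polynomials -/
def IsSOS {n : ℕ} (A : MvPolynomial (Fin n ⊕ Fin n) ℂ) : Prop :=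
  ∃ (s : ℕ) (q : Fin s → MvPolynomial (Fin n) ℂ), ∀ z : Fin n → ℂ,
    eval (Sum.elim z (fun k => (starRingEnd ℂ) (z k))) A = ((∑ i, ‖eval z (q i)‖ ^ 2 : ℝ) : ℂ)

/-- `SosRanks n` is the set `S_1(n)` of all `m` such that there are `m` linearly independent
holomorphic polynomials `p 0, ..., p (m-1)` on `ℂⁿ` with `∑ j, |p j (z)|² = ‖z‖² * A (z, conj z)` for a
polynomial `A` in `z` and `conj z`. -/
def SosRanks (n : ℕ) : Set ℕ :=
  {m | ∃ p : Fin m → MvPolynomial (Fin n) ℂ, LinearIndependent ℂ p ∧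
    ∃ A : MvPolynomial (Fin n ⊕ Fin n) ℂ, IsQuotient p A}

lemma mem_iff (n m : ℕ) : m ∈ SosRanks n ↔ m ∈ Pool.Agent.W2helper74.SOS.S1 n := by
  unfold SosRanks IsQuotient Pool.Agent.W2helper74.SOS.S1
  simp only [Set.mem_ofPred_eq, pow_one]

lemma isSOS_of_zero {n : ℕ} (hn : 1 ≤ n) (p : Fin 0 → MvPolynomial (Fin n) ℂ)
    (A : MvPolynomial (Fin n ⊕ Fin n) ℂ) (hA : IsQuotient p A) : IsSOS A := by
  have h0 : (∑ k : Fin n, X (Sum.inl k) * X (Sum.inr k)) * A = 0 := by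
    apply H402.CE.t3
    intro w
    have h := hA w
    rw [map_mul, Pool.Agent.W2helper17.SOS.eval_xx]
    have h1 : ∑ k, w k * star (w k) = ((∑ k, ‖w k‖ ^ 2 : ℝ) : ℂ) := by
      push_cast
      exact Finset.sum_congr rfl (fun k _ => Complex.mul_conj' _)
    rw [h1, ← h]
    simp
  have hA0 : A = 0 := (mul_eq_zero.1 h0).resolve_left (Pool.Agent.W2helper17.SOS.xx_ne_zero hn)
  refine ⟨0, Fin.elim0, fun z => ?_⟩
  rw [hA0, map_zero]
  simp

theorem result :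
    (∀ n m κ : ℕ, 1 ≤ n → m ∈ SosRanks n →
      ¬ (κ * n < m ∧ m + κ * (κ + 1) / 2 < (κ + 1) * n)) ∧
    (∀ n m κ : ℕ, 4 ≤ n → κ * (κ + 1) / 2 < n → m + 4 < (κ + 2) * (n + 1 - κ) →
      (m ∈ SosRanks n → ∃ r : ℕ, m ≤ n * r ∧
        (m + r * (r - 1) / 2 = n * r ∨ n * r ≤ m + (r - 1) * (r - 2) / 2 + 1)) ∧
      ∀ (p : Fin m → MvPolynomial (Fin n) ℂ) (A : MvPolynomial (Fin n ⊕ Fin n) ℂ),
        LinearIndependent ℂ p → IsQuotient p A → IsSOS A) ∧
    SosRanks 1 = Set.univ ∧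
    SosRanks 2 = {m | m = 0 ∨ 2 ≤ m} ∧
    SosRanks 3 = {m | m = 0 ∨ m = 3 ∨ 5 ≤ m} ∧
    SosRanks 4 = {m | m = 0 ∨ m = 4 ∨ 7 ≤ m} ∧
    SosRanks 5 = {m | m = 0 ∨ m = 5 ∨ m = 9 ∨ m = 10 ∨ 12 ≤ m} ∧
    SosRanks 6 = {m | m = 0 ∨ m = 6 ∨ m = 11 ∨ m = 12 ∨ 15 ≤ m} := by
  have hL := Pool.Agent.W2helper74.SOS.last_of_base Pool.Agent.W2helper66.SOS.base
  obtain ⟨s1, s2, s3, s4, s5, s6⟩ := Pool.Agent.W2helper74.SOS.sets hL
  refine ⟨?_, ?_, ?_, ?_, ?_, ?_, ?_, ?_⟩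
  · intro n m κ hn hm
    exact Pool.Agent.W2helper74.SOS.conjecture hL n m hn ((mem_iff n m).1 hm) κ
  · intro n m κ hn hκ hm
    refine ⟨fun h => ?_, fun p A hp hA => ?_⟩
    · exact Pool.Agent.W2helper74.SOS.gap2 Pool.Agent.W2helper74.SOS.num2
        Pool.Agent.W2helper74.SOS.num3 Pool.Agent.W2helper74.SOS.starUp n m hn
        ((mem_iff n m).1 h) κ hκ hm
    · rcases Nat.eq_zero_or_pos m with rfl | hm1
      · exact isSOS_of_zero (by omega) p A hA
      · obtain ⟨r, D, d, hd⟩ := Pool.Agent.W2helper17.SOS.setUp2 n m (by omega) hm1 p A hp hA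
        exact hd (Pool.Agent.W2helper74.SOS.main.1 n m r D d κ hn hκ hm)
  · ext m; simp only [mem_iff, Set.mem_univ, iff_true]; exact s1 m
  · ext m; rw [mem_iff]; exact s2 m
  · ext m; rw [mem_iff]; exact s3 m
  · ext m; rw [mem_iff]; exact s4 m
  · ext m; rw [mem_iff]; exact s5 m
  · ext m; rw [mem_iff]; exact s6 m

end Pool.Agent.W2helper74.SOS.Quotients
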