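import Pool.Agent.W2helper74.SOS.S1Full
import Pool.Agent.W2helper66.SOS.K7
import Pool.Agent.W2helper5.SOS.Exi
import Pool.Agent.W2helper5.SOS.Dim
import Pool.Agent.W2helper78.SOS.Lld
import Pool.Agent.W2helper56.SOS.P3
import Pool.Agent.W2helper56.SOS.P4
import Pool.Agent.W2helper72.SOS.P5
import Pool.Agent.W2helper64.SOS.Prof
import Pool.Agent.W2helper64.SOS.T1
import Pool.Agent.W2helper64.SOS.NumR1
import Pool.Agent.W2helper64.SOS.NumR2
import Pool.Agent.W2helper3.SOS.NumR3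
import Pool.Agent.W2helper3.SOS.Sp2
import Pool.Agent.W2helper37.S1.BTX
import Pool.Agent.W2helper17.SOS.MkSub
import Pool.Agent.W2helper89.SOS.Spf
import Pool.Agent.W2helper12.SOS2.LemX
import Pool.Agent.W2helper95.SOS.P20
import Pool.Agent.W2helper62.SOS.LemH
import Pool.Agent.W2helper62.SOS.Star

set_option autoImplicit false

/-!
# MP_ce7760_an : the sets `S_1(n)` for all `n`, no hypotheses
-/

namespace Pool.Agent.W2helper74.SOS

theorem full : Full := by
  have hL := last_of_base Pool.Agent.W2helper66.SOS.base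
  exact full_of Pool.Agent.W2helper5.SOS.exi Pool.Agent.W2helper78.SOS.lld
    Pool.Agent.W2helper56.SOS.redN
    (Pool.Agent.W2helper72.SOS.degTwo Pool.Agent.W2helper37.S1.pl Pool.Agent.W2helper56.SOS.bezN
      Pool.Agent.W2helper72.SOS.fill)
    Pool.Agent.W2helper5.SOS.starSyz Pool.Agent.W2helper5.SOS.ps Pool.Agent.W2helper5.SOS.np
    Pool.Agent.W2helper5.SOS.upDim Pool.Agent.W2helper64.SOS.prof Pool.Agent.W2helper64.SOS.numA
    Pool.Agent.W2helper64.SOS.numR1 Pool.Agent.W2helper64.SOS.numR2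
    Pool.Agent.W2helper3.SOS.numR3
    Pool.Agent.W2helper62.SOS.star
    Pool.Agent.W2helper37.S1.bTX Pool.Agent.W2helper17.SOS.sub
    (Pool.Agent.W2helper89.SOS.spf Pool.Agent.W2helper17.SOS.mk)
    (Pool.Agent.W2helper3.SOS.sp2 Pool.Agent.W2helper17.SOS.sub hL)
    (Pool.Agent.W2helper95.SOS.fw Pool.Agent.W2helper12.SOS2.lemX) hL

end Pool.Agent.W2helper74.SOS
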