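import Pool.Agent.W2helper74.SOS.Stm4
import Pool.Agent.W2helper74.SOS.Final
import Pool.Agent.W2helper74.SOS.L

set_option autoImplicit false

/-!
# MP_ce7760_an : assembly of `Full` (the sets `S_1(n)` for all `n`)
-/

open MvPolynomial

namespace Pool.Agent.W2helper74.SOS

theorem tB1 : B1 := Pool.Agent.W2helper12.SOS.pB1
theorem tB2 : B2 := Pool.Agent.W2helper12.SOS.pB2
theorem tB3 : B3 := Pool.Agent.W2helper12.SOS.pB3
theorem tC2' : C2' := Pool.Agent.W2helper12.SOS.pC2'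
theorem tB4 : B4 := Pool.Agent.W2helper66.SOS.b4
theorem tB5 : B5 := Pool.Agent.W2helper66.SOS.b5
theorem tC0 : C0 := Pool.Agent.W2helper19.SOS.c0 tB2
theorem tC1 : C1 := Pool.Agent.W2helper19.SOS.c1 tB1 tB3 tB4 tB5
theorem tC2 : C2 := Pool.Agent.W2helper19.SOS.c2 tB1 tB2 tB3 tB4 tB5 tC2'
theorem tC3 : C3 := Pool.Agent.W2helper19.SOS.c3 tB1 tB2 tB3 tB4 tB5
theorem tA4 : A4 := Pool.Agent.W2helper4.SOS.a4 tB1 tB2 tB3
theorem tDA : DatAlg := Pool.Agent.W2helper17.SOS.datAlg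
theorem tSU : SetUp := Pool.Agent.W2helper17.SOS.setUp
theorem tF4 : F4 := Pool.Agent.W2helper18.SOS.f4
theorem tF5 : F5 := Pool.Agent.W2helper22.SOSG.f5
theorem tF6 : F6 := Pool.Agent.W2helper22.SOSG.f6
theorem tG : G := Pool.Agent.W2helper22.SOSG.g
theorem tG' : G' := Pool.Agent.W2helper22.SOSG.g'

/-! ### the function `mx E` -/

lemma eval_mv {n j : ℕ} (T : Matrix (Fin n) (Fin j) ℂ) (p : Pol n) (y : Fin j → ℂ) :
    eval y (res T p) = eval (T.mulVec y) p := Pool.Agent.W2helper12.SOS.eval_res T y p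

lemma mx_zero {n D : ℕ} (E : Submodule ℂ (Pol n)) (hf : Module.Finite ℂ E) (hD : 1 ≤ D)
    (hE : ∀ e ∈ E, e.IsHomogeneous D) : mx E 0 = 0 := by
  obtain ⟨T, hT⟩ := (tB1 n E hf).1 0
  rw [← hT]
  unfold rk
  have : rs E T = ⊥ := by
    rw [eq_bot_iff]
    rintro _ ⟨e, he, rfl⟩
    rw [Submodule.mem_bot]
    apply MvPolynomial.funext
    intro y
    show eval y (res T e) = _
    rw [eval_mv, map_zero]
    have h0 : T.mulVec y = 0 := by
      funext k
      simp [Matrix.mulVec, dotProduct]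
    rw [h0]
    have h1 := Pool.Agent.W2helper15.SOS.hom_eval (hE e he) 0 0
    have h2 : (fun k : Fin n => (0 : ℂ) * (0 : Fin n → ℂ) k) = 0 := by funext k; simp
    rw [h2, zero_pow (by omega), zero_mul] at h1
    exact h1
  rw [this, finrank_bot]

lemma mx_one {n D : ℕ} (E : Submodule ℂ (Pol n)) (hf : Module.Finite ℂ E)
    (hE : ∀ e ∈ E, e.IsHomogeneous D) (hr : 1 ≤ Module.finrank ℂ E) : mx E 1 = 1 := by
  obtain ⟨T, hT⟩ := (tB1 n E hf).1 1
  have h2 := tC2' n E hf 1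
  have h1 : rs E T ≤ Submodule.span ℂ {(X 0 ^ D : Pol 1)} := by
    rintro _ ⟨e, he, rfl⟩
    rw [Submodule.mem_span_singleton]
    refine ⟨eval (fun k => T k 0) e, ?_⟩
    apply MvPolynomial.funext
    intro y
    show eval y _ = eval y (res T e)
    rw [eval_mv, smul_eval, map_pow, eval_X]
    have h2 : T.mulVec y = fun k => y 0 * T k 0 := by
      funext k
      simp [Matrix.mulVec, dotProduct, mul_comm]
    rw [h2, Pool.Agent.W2helper15.SOS.hom_eval (hE e he), mul_comm]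
  have h3 : mx E 1 ≤ 1 := by
    rw [← hT]
    unfold rk
    refine (Submodule.finrank_mono h1).trans ?_
    refine (finrank_span_le_card _).trans ?_
    simp
  omega

lemma one_le_D {n m r D : ℕ} (d : Dat n m r D) (hr : 2 ≤ r) : 1 ≤ D := by
  by_contra h
  have hD : D = 0 := by omega
  subst hD
  have h1 : d.E ≤ Submodule.span ℂ {(1 : Pol n)} := by
    intro e he
    have h2 := homE d e he
    rw [Submodule.mem_span_singleton]
    refine ⟨coeff 0 e, ?_⟩
    have h3 := totalDegree_eq_zero_iff_eq_C.1 (Nat.le_zero.1 h2.totalDegree_le)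
    rw [smul_eq_C_mul, mul_one]
    exact h3.symm
  have h2 := Submodule.finrank_mono h1
  have h3 : Module.finrank ℂ (Submodule.span ℂ {(1 : Pol n)}) ≤ 1 :=
    (finrank_span_le_card _).trans (by simp)
  rw [finE] at h2
  omega

lemma homV {n m r D : ℕ} (d : Dat n m r D) : ∀ p ∈ d.V, p.IsHomogeneous (D + 1) := by
  intro e he
  have hle : d.V ≤ homogeneousSubmodule (Fin n) ℂ (D + 1) := by
    apply Submodule.span_le.2
    rintro _ ⟨i, rfl⟩
    exact d.p_hom i
  exact hle he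

/-- the profile of `E` -/
lemma profE (hP : Prof) {n m r D : ℕ} (d : Dat n m r D) (hn : 1 ≤ n) (hr : 2 ≤ r) :
    ∃ J, 1 ≤ J ∧ J ≤ n ∧ J ≤ r ∧
    ((2 * J ≤ r + 2 ∧ n * r ≤ (∑ j ∈ Finset.range n, mx d.E (j + 1)) + r * r / 4 ∧
        ∀ j, 1 ≤ j → j ≤ n → 2 * j ≤ r + 1 → 2 * j ≤ mx d.E j + 1) ∨
      (r + 3 ≤ 2 * J ∧ mx d.E J = r ∧ mx d.E (J - 1) + 1 = r ∧ mx d.E (J - 2) + 2 = r ∧
        n * r ≤ (∑ j ∈ Finset.range n, mx d.E (j + 1)) +
          (J * (J - 1) / 2 + (r + 1 - J) * (r - J) / 2) ∧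
        ∀ j, 1 ≤ j → j ≤ n → j ≤ r + 1 - J → 2 * j ≤ mx d.E j + 1)) := by
  obtain ⟨-, -, -, hEn, hmono⟩ := tB1 n d.E inferInstance
  have hD := one_le_D d hr
  refine hP n r (mx d.E) hn hr (mx_zero d.E inferInstance hD (homE d))
    (mx_one d.E inferInstance (homE d) (by rw [finE]; omega)) (by rw [hEn, finE]) hmono ?_
  intro j h1 h2
  exact tC1 n d.E inferInstance j h1 h2

/-- the star from the profile -/
lemma starE (hS : Star) {n m r D : ℕ} (d : Dat n m r D) (J : ℕ) (hJ : J ≤ n) (hJr : J ≤ r)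
    (h1 : r + 3 ≤ 2 * J)
    (h2 : mx d.E J = r) (h3 : mx d.E (J - 1) + 1 = r) (h4 : mx d.E (J - 2) + 2 = r) :
    ∃ (h : Pol n) (L : Submodule ℂ (Fin n → ℂ)), h ≠ 0 ∧ Module.finrank ℂ L = J ∧
      ∀ w ∈ L, h * lf w ∈ d.E :=
  hS n D J d.E inferInstance (homE d) (by omega) hJ (by rw [finE, h2]) (by rw [finE, h3])
    (by rw [finE, h4])

/-! ### psd quotients -/

theorem psdIn (hSS : StarSyz) (hPS : PS) (hUp : UpDim) (hP : Prof) (hNA : NumA) (hS : Star) :
    ∀ n m r D (d : Dat n m r D), 7 ≤ n → d.Psd → InS n m := by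
  intro n m r D d hn hpsd
  have hm := hPS n m r D d hpsd
  have hup := hUp n d.E inferInstance
  have h6 := tF6 n m r D d
  rw [← hm] at hup
  obtain ⟨-, -, -, hEn, hmono⟩ := tB1 n d.E inferInstance
  rcases Nat.lt_or_ge n r with hrn | hrn
  · -- r > n
    apply hNA n m hn
    have h1 : ∀ j, j < n → j + 1 ≤ mx d.E (j + 1) := by
      intro j hj
      have := tC2' n d.E inferInstance (j + 1)
      rw [finE] at this
      omega
    have h2 : ∑ j ∈ Finset.range n, (j + 1) ≤ ∑ j ∈ Finset.range n, mx d.E (j + 1) :=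
      Finset.sum_le_sum fun j hj => h1 j (Finset.mem_range.1 hj)
    have h3 : ∑ j ∈ Finset.range n, (j + 1) = n * (n + 1) / 2 := by
      have := Finset.sum_range_id_mul_two (n + 1)
      rw [Finset.sum_range_succ'] at this
      simp only [add_zero, Nat.add_sub_cancel] at this
      rw [mul_comm (n + 1) n] at this
      omega
    omega
  · rcases Nat.lt_or_ge r 2 with hr2 | hr2
    · right
      have hr : r = 0 ∨ r = 1 := by omega
      rcases hr with rfl | rfl
      · exact ⟨0, 0, by omega, by omega, Or.inl (by omega)⟩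
      · refine ⟨1, 0, by omega, ?_, Or.inl (by omega)⟩
        have h1 : ∀ j, j < n → 1 ≤ mx d.E (j + 1) := by
          intro j hj
          have := tC2' n d.E inferInstance (j + 1)
          rw [finE] at this
          omega
        have h2 : ∑ j ∈ Finset.range n, 1 ≤ ∑ j ∈ Finset.range n, mx d.E (j + 1) :=
          Finset.sum_le_sum fun j hj => h1 j (Finset.mem_range.1 hj)
        simp at h2
        omega
    · obtain ⟨J, hJ1, hJn, hJr, hJ⟩ := profE hP d (by omega) hr2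
      right
      refine ⟨r, n * r - m, hrn, by omega, ?_⟩
      rcases hJ with ⟨-, h2, -⟩ | ⟨h1, h2, h3, h4, h5, -⟩
      · left; omega
      · right
        obtain ⟨h, L, hh, hL, hhL⟩ := starE hS d J hJn hJr h1 h2 h3 h4
        have h7 := hSS n d.E inferInstance h L hh hhL
        rw [hL, finE, ← hm] at h7
        exact ⟨J, hJr, by omega, by omega, by omega⟩

/-! ### quotients that are not psd -/

lemma mxE2 {n m r D : ℕ} (d : Dat n m r D) (hr : 3 ≤ r) (hnp : ¬ d.Psd) : 3 ≤ mx d.E 2 := by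
  by_contra h
  obtain ⟨q, hq⟩ := tG n D d.E inferInstance (homE d) (by rw [finE]; exact hr) (by omega)
  exact hnp (tG' n m r D d ⟨q, hq⟩)

lemma r_ge {n m r D : ℕ} (d : Dat n m r D) (hn : 7 ≤ n) (hnp : ¬ d.Psd) : 5 ≤ r := by
  have h4 := tF4 n m r D d hnp
  by_contra h
  have h1 : r ≤ 4 := by omega
  have h2 := triMono h1
  simp at h2
  omega

/-- the information in the remaining regime -/
structure Reg (n m r D : ℕ) (d : Dat n m r D) : Prop where
  rn : n + 1 ≤ r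
  big : ∀ j, 1 ≤ j → j ≤ n → 2 * j ≤ n + 1 → 2 * j ≤ mx d.E j + 1

theorem regime (hLld : Lld) (hNP : NP) (hUp : UpDim) (hP : Prof) (hN1 : NumR1) (hN2 : NumR2)
    (hS : Star) : ∀ n m r D (d : Dat n m r D), 7 ≤ n → ¬ d.Psd →
    (InS n m ∧ (n = 7 → 24 ≤ m)) ∨ Reg n m r D d := by
  intro n m r D d hn hnp
  have hr5 := r_ge d hn hnp
  have hup := hUp n d.E inferInstance
  obtain ⟨x, hx1, hx2, hx3, hx4⟩ := hNP n m r D d hnp
  obtain ⟨J, hJ1, hJn, hJr, hJ⟩ := profE hP d (by omega) (by omega)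
  set u := Module.finrank ℂ (up d.E) with hu
  rcases hJ with ⟨h1, h2, h3⟩ | ⟨h1, h2, h3, h4, h5, h6⟩
  · rcases Nat.lt_or_ge n r with hrn | hrn
    · right
      refine ⟨by omega, fun j hj1 hj2 hj3 => h3 j hj1 hj2 (by omega)⟩
    · left
      obtain ⟨δ, hδ1, hδ2⟩ := hLld n m r D d (by omega) hnp
      exact hN1 n m r (n * r - u) x δ hn hrn hx1 (by omega) (by omega) (by omega) hδ1 hδ2
  · rcases Nat.lt_or_ge n (2 * (r + 1 - J)) with hb | hb
    · right
      refine ⟨by omega, fun j hj1 hj2 hj3 => h6 j hj1 hj2 (by omega)⟩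
    · left
      obtain ⟨h, L, hh, hL, hhL⟩ := starE hS d J hJn hJr h1 h2 h3 h4
      have h7 := hx4 h L hh hhL
      rw [hL] at h7
      refine hN2 n m J (r + 1 - J) (n * r - u) x hn hJn (by omega) (by omega) hb hx1 ?_ (by omega) ?_
      · have : r + 1 - J - 1 = r - J := by omega
        rw [this]
        omega
      · have : J + (r + 1 - J) - 1 = r := by omega
        rw [this]
        omega

/-- the consequences for `mx V` in the remaining regime -/
theorem regV (hBTX : BTX) {n m r D : ℕ} (d : Dat n m r D) (hn : 7 ≤ n) (hnp : ¬ d.Psd)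
    (hR : Reg n m r D d) :
    (∀ j, mx d.V j ≤ mx d.V (j + 1)) ∧ mx d.V 1 = 1 ∧
    (∀ j, 1 ≤ j → j + 1 ≤ n → min (mx d.V (j + 1) - mx d.V j) j ≤ mx d.V j - mx d.V (j - 1)) ∧
    (∀ j, 2 ≤ j → j + 1 ≤ n → mx d.V (j + 1) - mx d.V j ≤ j →
      mx d.V (j + 1) - mx d.V j ≠ mx d.V j - mx d.V (j - 1)) ∧
    (∀ j, 2 ≤ j → j + 1 ≤ n → j + 1 ≤ mx d.V (j + 1) - mx d.V j →
      j + 1 ≤ mx d.V j - mx d.V (j - 1)) ∧
    (∀ j, 2 ≤ j → j + 1 ≤ n → 2 * j ≤ n + 1 →
      min (2 * j - 1) (mx d.V (j + 1) - mx d.V j) ≤ mx d.V j - mx d.V (j - 1)) ∧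
    (∀ t, 1 ≤ t → t + 1 ≤ n → mx d.V t + mx d.V (n - t) ≤ mx d.V n) := by
  obtain ⟨hrn, hbig⟩ := hR
  obtain ⟨-, -, -, hMn, hmono⟩ := tB1 n d.V inferInstance
  obtain ⟨g, hV, hE⟩ := tDA n m r D d
  have hE2 := mxE2 d (by omega) hnp
  have hm1 : 1 ≤ m := one_le_m tDA d (by omega)
  refine ⟨hmono, mx_one d.V inferInstance (homV d) (by rw [finV]; omega),
    fun j h1 h2 => tC1 n d.V inferInstance j h1 h2, ?_, ?_, ?_, ?_⟩
  · intro j h1 h2 h3 h4
    have := tC2 n g j (mx d.V (j + 1) - mx d.V j) h1 h2 h3 (by rw [hV]) (by rw [hV]; exact h4.symm)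
    rw [hE, finE] at this
    omega
  · intro j h1 h2 h3
    by_contra h4
    have := tC3 n g j h1 h2 (by rw [hV]; exact h3) (by rw [hV]; omega)
    rw [hE] at this
    omega
  · intro j h1 h2 h3
    have hb := hbig j (by omega) (by omega) h3
    by_contra h4
    obtain ⟨T, -, -, h5, -, h6⟩ := hBTX n g j h1 h2 (by rw [hV, hE]; omega)
    rw [hV] at h5 h6
    have := h6 (by omega)
    omega
  · intro t h1 h2
    rw [hMn, finV]
    exact tA4 n m r D d t h1 h2

/-- a datum gives an element of `S_1` -/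
theorem dat_mem {n m r D : ℕ} (d : Dat n m r D) : m ∈ S1 n := by
  refine ⟨d.p, d.p_ind, ∑ i, ∑ l, C (d.a i l) * rename Sum.inl (d.e i) *
    rename Sum.inr (map (starRingEnd ℂ) (d.e l)), fun z => ?_⟩
  have h := d.main z z
  have h1 : ∀ w : ℂ, ((‖w‖ ^ 2 : ℝ) : ℂ) = w * star w := by
    intro w
    rw [Complex.star_def, Complex.mul_conj, Complex.normSq_eq_norm_sq]
  rw [Complex.ofReal_sum, Complex.ofReal_sum, pow_one]
  simp only [h1]
  rw [h]
  congr 1
  rw [map_sum]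
  refine Finset.sum_congr rfl fun i _ => ?_
  rw [map_sum]
  refine Finset.sum_congr rfl fun l _ => ?_
  rw [map_mul, map_mul, eval_C, eval_rename, eval_rename]
  congr 1
  rw [Sum.elim_comp_inr]
  have h2 : eval (fun k => (starRingEnd ℂ) (z k)) (map (starRingEnd ℂ) (d.e l)) =
      (starRingEnd ℂ) (eval z (d.e l)) := by
    rw [eval_map]
    have h3 := eval₂_comp_left (starRingEnd ℂ) (RingHom.id ℂ) z (d.e l)
    rw [RingHom.comp_id] at h3
    exact h3.symm
  rw [h2]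
  rfl

/-- lower bound for `n = 7` -/
theorem nonpsd7 (hLld : Lld) (hNP : NP) (hUp : UpDim) (hP : Prof) (hN1 : NumR1) (hN2 : NumR2)
    (hN3 : NumR3) (hS : Star) (hBTX : BTX) : ∀ m r D (d : Dat 7 m r D), ¬ d.Psd → 23 ≤ m := by
  intro m r D d hnp
  rcases regime hLld hNP hUp hP hN1 hN2 hS 7 m r D d le_rfl hnp with ⟨-, h⟩ | h
  · have := h rfl; omega
  · obtain ⟨c1, c2, c3, c4, c5, c6, c7⟩ := regV hBTX d le_rfl hnp h
    have := (hN3 7 (mx d.V) le_rfl c1 c2 c3 c4 c5 c6 c7).1 rfl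
    obtain ⟨-, -, -, hMn, -⟩ := tB1 7 d.V inferInstance
    rw [hMn, finV] at this
    exact this

theorem nonpsd (hLld : Lld) (hRed : RedN) (hDeg : DegTwo) (hNP : NP) (hUp : UpDim) (hP : Prof)
    (hN1 : NumR1) (hN2 : NumR2) (hN3 : NumR3) (hS : Star) (hBTX : BTX) (hSub : Sub) (hSpf : Spf)
    (hSp2 : Sp2) (hFw : Fw) (hL : Last) :
    ∀ n m, 7 ≤ n → ∀ D r (d : Dat n m r D), ¬ d.Psd → InS n m := by
  intro n m hn D
  induction D using Nat.strong_induction_on with
  | _ D ih =>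
    intro r d hnp
    rcases regime hLld hNP hUp hP hN1 hN2 hS n m r D d hn hnp with ⟨h, -⟩ | hR
    · exact h
    by_cases hπ : ∃ π : Pol n, Prime π ∧ ∀ i, π ∣ d.e i
    · obtain ⟨π, hπ1, hπ2⟩ := hπ
      obtain ⟨D', hD', d', hd'⟩ := hRed n m r D d π (by omega) (by have := hR.rn; omega) hπ1 hπ2
      exact ih D' hD' r d' (fun h => hnp (hd' h))
    push Not at hπ
    obtain ⟨c1, c2, c3, c4, c5, c6, c7⟩ := regV hBTX d hn hnp hR
    obtain ⟨-, -, -, hMn, -⟩ := tB1 n d.V inferInstance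
    rw [finV] at hMn
    obtain ⟨g, hV, hE⟩ := tDA n m r D d
    have hrn := hR.rn
    rcases (hN3 n (mx d.V) hn c1 c2 c3 c4 c5 c6 c7).2 with h | ⟨hn7, h7, h2, h3, h4, h56⟩ |
      ⟨hn9, h9, h2, h3, h4, h5⟩
    · rw [hMn] at h; exact h
    · exfalso
      subst hn7
      rw [hMn] at h7
      subst h7
      rcases h56 with ⟨h5, h6⟩ | ⟨h5, h6⟩
      · -- k = (1,3,5,5,5,3,1)
        have hD2 : D = 2 := hDeg 7 23 r D d (by norm_num) (mxE2 d (by omega) hnp) (by omega)
          (by omega) hπ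
        subst hD2
        have hb := hR.big 4 (by norm_num) (by norm_num) (by norm_num)
        obtain ⟨T, hT, hT1, hT2, hT3, -⟩ := hBTX 7 g 4 (by norm_num) (by norm_num)
          (by rw [hV, hE]; simp only [show (4 : ℕ) - 1 = 3 from rfl]; omega)
        rw [hV] at hT1 hT2 hT3
        simp only [show (4 : ℕ) - 1 = 3 from rfl, show (4 : ℕ) + 1 = 5 from rfl] at hT2 hT3
        have hf : ∃ f : Pol 4, f ≠ 0 ∧ ∀ w w' : Fin 4 → ℂ, lf w * lf w' * f ∈ rs d.V T := by
          by_contra hc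
          push Not at hc
          have := hT3 (fun f hf => by
            by_contra hf0
            obtain ⟨w, w', hw⟩ := hc f hf0
            exact hw (hf w w'))
          omega
        obtain ⟨f, hf0, hf⟩ := hf
        obtain ⟨m', r', d', hm', -⟩ := hSpf 7 23 r d T f hT hf0 hf
        have hm4 : m' = 4 := by omega
        subst hm4
        exact hL (dat_mem d')
      · -- k = (1,3,5,5,4,3,2)
        have h := hFw 7 g (by norm_num) (by rw [hV]; simp only [show (7 : ℕ) - 1 = 6 from rfl]; omega)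
          (by rw [hV]; simp only [show (7 : ℕ) - 1 = 6 from rfl, show (7 : ℕ) - 2 = 5 from rfl]; omega)
          (by rw [hV]; simp only [show (7 : ℕ) - 3 = 4 from rfl, show (7 : ℕ) - 2 = 5 from rfl]; omega)
          (by
            rw [hE]
            have := tC2' 7 d.E inferInstance 5
            rw [finE] at this
            simp only [show (7 : ℕ) - 2 = 5 from rfl]
            omega)
          (by
            intro c hc
            by_contra hc0
            rw [hV] at hc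
            have hcD : c.IsHomogeneous D := by
              have h0 : (X 0 : Pol 7) * c ≠ 0 := mul_ne_zero (X_ne_zero 0) hc0
              obtain ⟨a, b, ha, hb, hab⟩ := Pool.Agent.W2helper4.SOS.isHomogeneous_of_mul h0
                (homV d _ (hc 0))
              have ha1 : a = 1 := ha.inj_right (isHomogeneous_X ℂ (0 : Fin 7)) (X_ne_zero 0)
              have : b = D := by omega
              rw [← this]
              exact hb
            obtain ⟨m', r', d', hm', -, -, -, hpsd⟩ := hSub 7 23 r D d c (by norm_num) hc0 hcD hc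
            have := nonpsd7 hLld hNP hUp hP hN1 hN2 hN3 hS hBTX m' r' D d' (fun h => hnp (hpsd h))
            omega)
        rw [hE, finE] at h
        omega
    · exfalso
      subst hn9
      rw [hMn] at h9
      subst h9
      have hD2 : D = 2 := hDeg 9 37 r D d (by norm_num) (mxE2 d (by omega) hnp) (by omega)
        (by omega) hπ
      subst hD2
      have hb := hR.big 4 (by norm_num) (by norm_num) (by norm_num)
      obtain ⟨T, hT, hT1, hT2, hT3, hT4⟩ := hBTX 9 g 4 (by norm_num) (by norm_num)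
        (by rw [hV, hE]; simp only [show (4 : ℕ) - 1 = 3 from rfl]; omega)
      rw [hV] at hT1 hT2 hT3 hT4
      simp only [show (4 : ℕ) - 1 = 3 from rfl, show (4 : ℕ) + 1 = 5 from rfl] at hT2 hT3 hT4
      have hf : ∃ f : Pol 4, f ≠ 0 ∧ ∀ w w' : Fin 4 → ℂ, lf w * lf w' * f ∈ rs d.V T := by
        by_contra hc
        push Not at hc
        have := hT3 (fun f hf => by
          by_contra hf0
          obtain ⟨w, w', hw⟩ := hc f hf0
          exact hw (hf w w'))
        omega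
      obtain ⟨f, hf0, hf⟩ := hf
      obtain ⟨m', r', d', hm', hEE⟩ := hSpf 9 37 r d T f hT hf0 hf
      have hm4 : m' = 5 := by omega
      subst hm4
      have := hT4 (by omega)
      exact hSp2 r' 2 d' (by omega)

/-- decidable form -/
lemma inS_iff (n m : ℕ) : InS n m ↔ n * n ≤ m ∨ ∃ r ∈ Finset.range (n + 1), m ≤ n * r ∧
    (n * r - m ≤ r * r / 4 ∨ ∃ a ∈ Finset.range (r + 1), r + 1 ≤ 2 * a ∧
      a * (a - 1) / 2 ≤ n * r - m ∧
      n * r - m ≤ a * (a - 1) / 2 + (r + 1 - a) * (r - a) / 2) := by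
  unfold InS
  constructor
  · rintro (h | ⟨r, s, h1, h2, h3⟩)
    · exact Or.inl h
    · right
      have hs : n * r - m = s := by omega
      refine ⟨r, Finset.mem_range.2 (by omega), by omega, ?_⟩
      rw [hs]
      rcases h3 with h3 | ⟨a, h4, h5, h6, h7⟩
      · exact Or.inl h3
      · exact Or.inr ⟨a, Finset.mem_range.2 (by omega), h5, h6, h7⟩
  · rintro (h | ⟨r, h1, h2, h3⟩)
    · exact Or.inl h
    · right
      rw [Finset.mem_range] at h1
      refine ⟨r, n * r - m, by omega, by omega, ?_⟩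
      rcases h3 with h3 | ⟨a, h4, h5, h6, h7⟩
      · exact Or.inl h3
      · rw [Finset.mem_range] at h4
        exact Or.inr ⟨a, by omega, h5, h6, h7⟩

/-- the elements of the set for small `n` -/
lemma inS_small (n m : ℕ) (hn : 1 ≤ n) (hn6 : n ≤ 6) : InS n m ∨ (n = 6 ∧ m = 19) ↔
    (n = 1 ∨ (n = 2 ∧ (m = 0 ∨ 2 ≤ m)) ∨ (n = 3 ∧ (m = 0 ∨ m = 3 ∨ 5 ≤ m)) ∨
      (n = 4 ∧ (m = 0 ∨ m = 4 ∨ 7 ≤ m)) ∨ (n = 5 ∧ (m = 0 ∨ m = 5 ∨ m = 9 ∨ m = 10 ∨ 12 ≤ m)) ∨
      (n = 6 ∧ (m = 0 ∨ m = 6 ∨ m = 11 ∨ m = 12 ∨ 15 ≤ m))) := by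
  rcases Nat.lt_or_ge m 36 with hm | hm
  · rw [inS_iff]
    have : ∀ n ∈ Finset.Icc 1 6, ∀ m ∈ Finset.range 36,
        ((n * n ≤ m ∨ ∃ r ∈ Finset.range (n + 1), m ≤ n * r ∧
        (n * r - m ≤ r * r / 4 ∨ ∃ a ∈ Finset.range (r + 1), r + 1 ≤ 2 * a ∧
          a * (a - 1) / 2 ≤ n * r - m ∧
          n * r - m ≤ a * (a - 1) / 2 + (r + 1 - a) * (r - a) / 2)) ∨ (n = 6 ∧ m = 19)) ↔
        (n = 1 ∨ (n = 2 ∧ (m = 0 ∨ 2 ≤ m)) ∨ (n = 3 ∧ (m = 0 ∨ m = 3 ∨ 5 ≤ m)) ∨
          (n = 4 ∧ (m = 0 ∨ m = 4 ∨ 7 ≤ m)) ∨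
          (n = 5 ∧ (m = 0 ∨ m = 5 ∨ m = 9 ∨ m = 10 ∨ 12 ≤ m)) ∨
          (n = 6 ∧ (m = 0 ∨ m = 6 ∨ m = 11 ∨ m = 12 ∨ 15 ≤ m))) := by
      decide +kernel
    exact this n (Finset.mem_Icc.2 ⟨hn, hn6⟩) m (Finset.mem_range.2 hm)
  · constructor
    · intro _
      omega
    · intro _
      left; left
      have : n * n ≤ 6 * 6 := Nat.mul_le_mul hn6 hn6
      omega

/-- the assembly of the final theorem -/
theorem full_of (hExi : Exi) (hLld : Lld) (hRed : RedN) (hDeg : DegTwo) (hSS : StarSyz) (hPS : PS)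
    (hNP : NP) (hUp : UpDim) (hP : Prof) (hNA : NumA) (hN1 : NumR1) (hN2 : NumR2) (hN3 : NumR3)
    (hS : Star) (hBTX : BTX) (hSub : Sub) (hSpf : Spf) (hSp2 : Sp2) (hFw : Fw) (hL : Last) :
    Full := by
  intro n m hn
  rcases Nat.lt_or_ge n 7 with hn7 | hn7
  · rw [inS_small n m hn (by omega)]
    obtain ⟨s1, s2, s3, s4, s5, s6⟩ := sets hL
    have hn' : n = 1 ∨ n = 2 ∨ n = 3 ∨ n = 4 ∨ n = 5 ∨ n = 6 := by omega
    rcases hn' with rfl | rfl | rfl | rfl | rfl | rfl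
    · simp [s1 m]
    · rw [s2 m]; omega
    · rw [s3 m]; omega
    · rw [s4 m]; omega
    · rw [s5 m]; omega
    · rw [s6 m]; omega
  · constructor
    · intro h
      left
      rcases Nat.eq_zero_or_pos m with rfl | hm
      · exact Or.inr ⟨0, 0, by omega, by omega, Or.inl (by omega)⟩
      obtain ⟨r, D, ⟨d⟩⟩ := tSU n m (by omega) hm h
      by_cases hpsd : d.Psd
      · exact psdIn hSS hPS hUp hP hNA hS n m r D d hn7 hpsd
      · exact nonpsd hLld hRed hDeg hNP hUp hP hN1 hN2 hN3 hS hBTX hSub hSpf hSp2 hFw hL n m hn7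
          D r d hpsd
    · rintro (h | ⟨h, -⟩)
      · exact hExi n m hn h
      · omega

end Pool.Agent.W2helper74.SOS
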