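import Pool.Agent.W2helper74.SOS.Nineteen
import Pool.Agent.W2helper74.SOS.Main
import Pool.Agent.W2helper74.SOS.Stm3

/-! # `S_1(6)` and the sharper gaps -/

open MvPolynomial

namespace Pool.Agent.W2helper74.SOS

open Pool.Agent.W2helper18.SOS

lemma six15 : 15 ∈ S1 6 := by
  have h := shift_mem ({![1, 0, 0, 0, 0, 0], ![0, 1, 0, 0, 0, 0], ![0, 0, 1, 0, 0, 0]} :
    Finset (Fin 6 → ℕ))
  have e : (shift ({![1, 0, 0, 0, 0, 0], ![0, 1, 0, 0, 0, 0], ![0, 0, 1, 0, 0, 0]} :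
      Finset (Fin 6 → ℕ))).card = 15 := by
    decide +kernel
  rwa [e] at h

lemma six16 : 16 ∈ S1 6 := by
  have h := shift_mem ({![1, 1, 0, 0, 0, 0], ![0, 1, 1, 0, 0, 0], ![1, 0, 1, 0, 0, 0]} :
    Finset (Fin 6 → ℕ))
  have e : (shift ({![1, 1, 0, 0, 0, 0], ![0, 1, 1, 0, 0, 0], ![1, 0, 1, 0, 0, 0]} :
      Finset (Fin 6 → ℕ))).card = 16 := by
    decide +kernel
  rwa [e] at h

lemma six20 : 20 ∈ S1 6 := by
  have h := shift_mem ({![2, 0, 0, 0, 0, 0], ![1, 1, 0, 0, 0, 0], ![1, 0, 1, 0, 0, 0],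
    ![0, 2, 0, 0, 0, 0]} : Finset (Fin 6 → ℕ))
  have e : (shift ({![2, 0, 0, 0, 0, 0], ![1, 1, 0, 0, 0, 0], ![1, 0, 1, 0, 0, 0],
      ![0, 2, 0, 0, 0, 0]} : Finset (Fin 6 → ℕ))).card = 20 := by
    decide +kernel
  rwa [e] at h

theorem con6 : ∀ m, m = 0 ∨ m = 6 ∨ m = 11 ∨ m = 12 ∨ 15 ≤ m → m ∈ S1 6 := by
  have h6 : 6 ∈ S1 6 := self_mem (by norm_num)
  have h11 : 11 ∈ S1 6 := two_mem (by norm_num)
  have h12 : 12 ∈ S1 6 := add_mem (by norm_num) h6 h6
  rintro m (rfl | rfl | rfl | rfl | hm)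
  · exact zero_mem 6
  · exact h6
  · exact h11
  · exact h12
  · refine from_block (by norm_num) 15 (fun m h1 h2 => ?_) m hm
    obtain rfl | rfl | rfl | rfl | rfl | rfl : m = 15 ∨ m = 16 ∨ m = 17 ∨ m = 18 ∨ m = 19 ∨
      m = 20 := by omega
    · exact six15
    · exact six16
    · exact add_mem (by norm_num) h6 h11
    · exact add_mem (by norm_num) h6 h12
    · exact nineteen
    · exact six20

theorem gap2_of (hB1 : B1) (hC1 : C1) (hC2' : C2') (hC3 : C3) (hSU : SetUp) (hDA : DatAlg)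
    (hF5 : F5) (hF6 : F6) (hG : G) (hM : Main) (hN2 : Num2) (hN3 : Num3) (hS : StarUp) :
    Gap2 := by
  intro n m hn hm κ hκ hmκ
  rcases Nat.eq_zero_or_pos m with rfl | hm1
  · exact ⟨0, by omega, Or.inl (by simp)⟩
  obtain ⟨r, D, ⟨d⟩⟩ := hSU n m (by omega) hm1 hm
  have hpsd := hM.1 n m r D d κ hn hκ hmκ
  have h5 := hF5 n m r D d (by omega) hpsd
  have h6 := hF6 n m r D d
  refine ⟨r, h6, ?_⟩
  obtain ⟨-, -, -, hMn, hmono⟩ := hB1 n d.V inferInstance
  rw [finV] at hMn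
  have hM1 : 1 ≤ mx d.V 1 := by
    have := hC2' n d.V inferInstance 1
    rw [finV] at this
    omega
  have hc1 := fun j h1 h2 => hC1 n d.V inferInstance j h1 h2
  rcases Nat.lt_or_ge r 3 with hr | hr
  · -- r ≤ 2
    have h3 := hN3 n r (mx d.V) (by omega) hmono hc1 (by omega)
    rw [hMn] at h3
    interval_cases r
    · left; omega
    · left; omega
    · right; omega
  · by_cases hE : mx d.E 2 ≤ 2
    · left
      obtain ⟨q, hq⟩ := hG n D d.E inferInstance (homE d) (by rw [finE]; exact hr) hE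
      have h1 := hS n m r D d ⟨q, hq⟩
      have h3 := hN3 n r (mx d.V) (by omega) hmono hc1 (by omega)
      rw [hMn] at h3
      omega
    · right
      obtain ⟨g, hV, hE'⟩ := hDA n m r D d
      have h2 := hN2 n r (mx d.V) (by omega) hr hmono hM1 hc1
        (fun j h1 h2 h3 => by
          by_contra h4
          have := hC3 n g j h1 h2 (by rw [hV]; exact h3) (by rw [hV]; omega)
          rw [hE'] at this
          exact hE this) (by omega)
      rw [hMn] at h2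
      exact h2

end Pool.Agent.W2helper74.SOS
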