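import Mathlib

/-!
# MP_ce7760_an : Ebenfelt's SOS conjecture - statement file (helper74)

Target (all `n ≠ 3`): if `m ∈ S_1(n)` then there is no `κ` with `κ n < m < (κ+1) n - κ(κ+1)/2`.
Every part below is one `Prop`; the paper proof is in the comment before it.
Notation in the comments: for `U ⊆ ℂ[z_1..z_j]` let `U|_T = {p ∘ T}`, `0`-th restriction `|_h` to
`h = {z_last = 0}`; `V_1 = V_1(j)` = linear forms in `j` variables; `mx U i` = maximum of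
`dim U|_T` over all linear `T : ℂ^i → ℂ^n`.
-/

open MvPolynomial

namespace Pool.Agent.W2helper74.SOS

/-- polynomials in `n` variables -/
abbrev Pol (n : ℕ) := MvPolynomial (Fin n) ℂ

/-- the linear form `∑ k, w k X_k` -/
noncomputable def lf {n : ℕ} (w : Fin n → ℂ) : Pol n := ∑ k, C (w k) * X k

/-- `p ↦ p ∘ T` for the linear map `T : ℂ^j → ℂ^n`, `(T x)_k = ∑ i, T k i * x i` -/
noncomputable def res {n j : ℕ} (T : Matrix (Fin n) (Fin j) ℂ) : Pol n →ₐ[ℂ] Pol j :=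
  aeval (fun k => lf (T k))

/-- the restriction `V|_T = {p ∘ T : p ∈ V}` -/
noncomputable def rs {n j : ℕ} (V : Submodule ℂ (Pol n)) (T : Matrix (Fin n) (Fin j) ℂ) :
    Submodule ℂ (Pol j) := V.map (res T).toLinearMap

/-- the dimension of `V|_T` -/
noncomputable def rk {n j : ℕ} (V : Submodule ℂ (Pol n)) (T : Matrix (Fin n) (Fin j) ℂ) : ℕ :=
  Module.finrank ℂ (rs V T)

/-- the maximal dimension of a restriction of `V` to a space of dimension `j` -/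
noncomputable def mx {n : ℕ} (V : Submodule ℂ (Pol n)) (j : ℕ) : ℕ :=
  sSup (Set.range (fun T : Matrix (Fin n) (Fin j) ℂ => rk V T))

/-- the standard embedding `ℂ^j → ℂ^N`, `x ↦ (x, 0)` (for `j ≤ N`) -/
def emb (j N : ℕ) : Matrix (Fin N) (Fin j) ℂ := fun a b => if (a : ℕ) = (b : ℕ) then 1 else 0

/-- the space `E(U) = {f : V_1 f ⊆ U}` -/
def EE {j : ℕ} (U : Submodule ℂ (Pol j)) : Submodule ℂ (Pol j) where
  carrier := {f | ∀ i, X i * f ∈ U}
  add_mem' := fun ha hb i => by rw [mul_add]; exact U.add_mem (ha i) (hb i)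
  zero_mem' := fun i => by rw [mul_zero]; exact U.zero_mem
  smul_mem' := fun c x hx i => by rw [mul_smul_comm]; exact U.smul_mem c (hx i)

/-! ### Part B : one parameter families -/

/-- (B1) trivialities about `mx` for finite dimensional `V`: it is attained, it is the maximum,
`mx V j ≤ dim V`, `mx V n = dim V` (use `T = 1`), monotone in `j`
(`T : ℂ^j → ℂ^n` factors through `ℂ^(j+1)`: `T = T' * emb j (j+1)` with `T'` = `T` and a column 0). -/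
def B1 : Prop := ∀ (n : ℕ) (V : Submodule ℂ (Pol n)), Module.Finite ℂ V →
  (∀ j, ∃ T : Matrix (Fin n) (Fin j) ℂ, rk V T = mx V j) ∧
  (∀ j (T : Matrix (Fin n) (Fin j) ℂ), rk V T ≤ mx V j) ∧
  (∀ j, mx V j ≤ Module.finrank ℂ V) ∧
  mx V n = Module.finrank ℂ V ∧ (∀ j, mx V j ≤ mx V (j + 1))

/-- (B2) lower semicontinuity along polynomial curves of matrices: `rk V (T t) ≥ rk V (T t₁)` for
all but finitely many `t`.
Proof: pick `v_1..v_s ∈ V`, `s = rk V (T t₁)`, with `v_i ∘ T(t₁)` independent; each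
`v_i ∘ T(t)` is a polynomial in `t` with coefficients in `Pol j`; pick `s` linear functionals
(coefficients of monomials or dual functionals) `φ_a` with `det φ_a (v_i ∘ T(t₁)) ≠ 0`; the
determinant is a polynomial in `t`, not zero, so it has finitely many roots. -/
def B2 : Prop := ∀ (n j : ℕ) (V : Submodule ℂ (Pol n)), Module.Finite ℂ V →
  ∀ (T : Matrix (Fin n) (Fin j) (Polynomial ℂ)) (t₁ : ℂ),
    {t : ℂ | rk V (T.map (Polynomial.eval t)) < rk V (T.map (Polynomial.eval t₁))}.Finite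

/-- (B3) common maximisers. Proof: choose `T` maximising `∑ i, rk (V i) (T * emb (d i) N)` (the
values are bounded naturals). If for some `i` there is `T'` with a larger `i`-th term (note that
every `n × d i` matrix is `T' * emb (d i) N` for some `T'` when `d i ≤ N`), consider
`T + t (T' - T)`: by (B2) for all but finitely many `t` all terms are `≥` those of `T`, and the
`i`-th is `≥` that of `T'`; contradiction. -/
def B3 : Prop := ∀ (n N s : ℕ) (V : Fin s → Submodule ℂ (Pol n)) (d : Fin s → ℕ),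
  (∀ i, Module.Finite ℂ (V i)) → (∀ i, d i ≤ N) →
  ∃ T : Matrix (Fin n) (Fin N) ℂ, ∀ i, rk (V i) (T * emb (d i) N) = mx (V i) (d i)

/-- (B4) Let `U ⊆ ℂ[z_1..z_(j+1)]` be finite dimensional such that `h = {z_last = 0}` has maximal
`dim U|_h` among all restrictions to `ℂ^j`. If `z_last g ∈ U` then `V_1(h) g|_h ⊆ U|_h`.
Proof: Key claim (K): if `p = z_last^i g ∈ U` and `λ` is a linear form in `j` variables, then
`λ^i g|_h ∈ U|_h`. Let `T_t : ℂ^j → ℂ^(j+1)`, `x ↦ (x, t λ(x))`; `p ∘ T_t = t^i λ^i (g ∘ T_t)`.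
Let `u_1..u_s ∈ U` restrict to a basis of `U|_h`. If `λ^i g|_h ∉ U|_h` then at `t = 0` the
polynomials `u_1 ∘ T_t, ..., u_s ∘ T_t, λ^i (g ∘ T_t)` are independent, hence they are for all but
finitely many `t`; for such `t ≠ 0` we get `rk U T_t ≥ s + 1`, contradiction.
For `i = 1` this is (B4). -/
def B4 : Prop := ∀ (j : ℕ) (U : Submodule ℂ (Pol (j + 1))), Module.Finite ℂ U →
  (∀ T : Matrix (Fin (j + 1)) (Fin j) ℂ, rk U T ≤ rk U (emb j (j + 1))) →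
  ∀ g : Pol (j + 1), X (Fin.last j) * g ∈ U → ∀ w : Fin j → ℂ,
    lf w * res (emb j (j + 1)) g ∈ rs U (emb j (j + 1))

/-- (B5) Same `U`. If some nonzero `p ∈ U` is divisible by `z_last^2` then there is `f ≠ 0` with
`μ ν f ∈ U|_h` for all linear forms `μ, ν` (`j ≥ 1`).
Proof: `p = z_last^i g`, `i ≥ 2`, `z_last ∤ g` (maximal `i`), so `g_0 = g|_h ≠ 0`. By (K)
`(λ + s μ + t ν)^i g_0 ∈ U|_h` for all `s, t ∈ ℂ`; `U|_h` is a subspace and this is a polynomial in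
`s` and `t`, so each coefficient is in `U|_h` (Vandermonde, or: a polynomial family lying in a
subspace for infinitely many `t` has all coefficients there). The coefficient of `s t` is
`i (i-1) λ^(i-2) μ ν g_0`. Take `f = λ^(i-2) g_0` with `λ = X_0`. -/
def B5 : Prop := ∀ (j : ℕ) (U : Submodule ℂ (Pol (j + 1))), Module.Finite ℂ U → 1 ≤ j →
  (∀ T : Matrix (Fin (j + 1)) (Fin j) ℂ, rk U T ≤ rk U (emb j (j + 1))) →
  (∃ p ∈ U, p ≠ 0 ∧ X (Fin.last j) ^ 2 ∣ p) →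
    ∃ f : Pol j, f ≠ 0 ∧ ∀ w w' : Fin j → ℂ, lf w * lf w' * f ∈ rs U (emb j (j + 1))

/-! ### Part C : the algebraic core -/

/-- The algebraic data: `V` is spanned by `ℓ_w a(w)`, `E` by the `a(w)`; `a` is polynomial and
homogeneous in `w` (this is what `hom` expresses: the top coefficient of `a (t w + u)` is `a w`). -/
structure Alg (n : ℕ) where
  V : Submodule ℂ (Pol n)
  E : Submodule ℂ (Pol n)
  a : (Fin n → ℂ) → Pol n
  finV : Module.Finite ℂ V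
  finE : Module.Finite ℂ E
  spanV : Submodule.span ℂ (Set.range fun w => lf w * a w) = V
  spanE : Submodule.span ℂ (Set.range a) = E
  hom : ∀ w u : Fin n → ℂ, ∃ (d : ℕ) (c : ℕ → Pol n), c d = a w ∧
    ∀ t : ℂ, a (t • w + u) = ∑ k ∈ Finset.range (d + 1), t ^ k • c k

/-- (C1) `k_j ≥ min(k_(j+1), j)` where `k_i = mx V i - mx V (i-1)`; `1 ≤ j < n`. Holds for every
finite dimensional `V` with `n ≥ j+1`.
Proof: (B3) gives `T : ℂ^(j+1) → ℂ^n` with `rk V T = mx V (j+1)`, `rk V (T emb_j) = mx V j`,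
`rk V (T emb_(j-1)) = mx V (j-1)`. `U = V|_T` satisfies the hypothesis of (B4), (B5),
`U|_h = V|_(T emb_j)` and `k_(j+1) = dim {p ∈ U : z_last ∣ p}` (kernel of the restriction to `h`).
`k_j = dim {p ∈ U|_h : z_last ∣ p} ≥ dim EE(U|_h)` (multiply by `z_last`). If no nonzero element of
`U` is divisible by `z_last^2` then `z_last g ↦ g|_h` is injective from `{p ∈ U : z_last ∣ p}` to
`EE(U|_h)` by (B4), so `dim EE(U|_h) ≥ k_(j+1)`; otherwise (B5) gives `V_1(j) f ⊆ EE(U|_h)`, so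
`dim EE(U|_h) ≥ j`. -/
def C1 : Prop := ∀ (n : ℕ) (V : Submodule ℂ (Pol n)), Module.Finite ℂ V → ∀ j, 1 ≤ j → j + 1 ≤ n →
  min (mx V (j + 1) - mx V j) j ≤ mx V j - mx V (j - 1)

/-- (C0) the equality case: if `T₀ : ℂ^j → ℂ^n` (`j ≥ 1`) is injective (`rank = j`),
`rk V T₀ = mx V j`, `rk V (T₀ emb_(j-1)) = mx V (j-1)` and
`dim EE(V|_T₀) = mx V j - mx V (j-1)` (`≥` suffices) then `E|_T₀ ⊆ EE(V|_T₀)`.
Proof: let `U₀ = V|_T₀`, `w ∈ ℂ^n`, `u ∈ ℂ^n` with `ℓ_u ∘ T₀ = z_last` (`T₀` injective),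
`ℓ_w ∘ T₀ = ∑ b_i z_i`. For `τ ∈ ℂ` put `ℓ_τ = τ ℓ_w∘T₀ + z_last = ℓ_(τ w + u) ∘ T₀` and
`S_τ : ℂ^(j-1) → ℂ^j`, `x ↦ ((τ b_last + 1) x_i (i < last), - τ ∑_(i<last) b_i x_i)`; `S_0 = emb`,
image of `S_τ` = kernel of `ℓ_τ` when `τ b_last + 1 ≠ 0`. By (B2) `rk U₀ S_τ ≥ mx V (j-1)` for all
but finitely many `τ`, so `dim {p ∈ U₀ : ℓ_τ ∣ p} ≤ mx V j - mx V (j-1) ≤ dim EE(U₀)`; this space
contains `ℓ_τ EE(U₀)`, hence is equal to it. As `ℓ_τ a(τ w + u)|_T₀ ∈ U₀` we get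
`a(τ w + u)|_T₀ ∈ EE(U₀)` for infinitely many `τ`, so (coefficients of a polynomial family) the top
coefficient `a(w)|_T₀` is in `EE(U₀)`. -/
def C0 : Prop := ∀ (n : ℕ) (d : Alg n) (j : ℕ), 1 ≤ j →
  ∀ T₀ : Matrix (Fin n) (Fin j) ℂ, T₀.rank = j → rk d.V T₀ = mx d.V j →
  rk d.V (T₀ * emb (j - 1) j) = mx d.V (j - 1) →
  mx d.V j - mx d.V (j - 1) ≤ Module.finrank ℂ (EE (rs d.V T₀)) →
  rs d.E T₀ ≤ EE (rs d.V T₀)

/-- (C2') `mx E j ≥ min (dim E) j` for every finite dimensional `E` (choose `min(dim E, j)` points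
of `ℂ^n` whose evaluation functionals are independent on `E` and let them be columns of `T`). -/
def C2' : Prop := ∀ (n : ℕ) (E : Submodule ℂ (Pol n)), Module.Finite ℂ E → ∀ j,
  min (Module.finrank ℂ E) j ≤ mx E j

/-- (C2) Let `2 ≤ j < n`, `k_(j+1) = k_j = c ≤ j`. Then `dim E ≤ c` or `mx E 2 ≤ 2`.
Proof: (B3) with `V` at levels `j+1, j, j-1`, `E` at levels `j+1, j, 2` and the space of linear
forms at level `j` (so that `T emb_j` has rank `j`; `rk V_1 T = rank T`, `mx V_1 j = j`).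
`U = V|_T`, `U₀ = U|_h = V|_(T emb_j)`. As in (C1) `dim EE(U₀) ≥ min(k_(j+1), j) = c = k_j`. (C0):
`E|_(T emb_j) ⊆ EE(U₀)` and `dim EE(U₀) = c` (it is `≤ k_j` by multiplication by `z_last`), so
`mx E j ≤ c`. If `c < j`, (C2') gives `dim E ≤ c`. If `c = j` and `dim E ≥ j+1` then
`mx E (j+1) ≥ j+1 > mx E j`, so some nonzero `e ∈ E|_T` is divisible by `z_last`; by (B4) (if
`z_last^2 ∤ e`; then `f = (e/z_last)|_h ≠ 0`) or (B5) applied to `E|_T` there is `f ≠ 0` with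
`V_1(j) f ⊆ E|_(T emb_j)`; dimensions: equality. Restrict to `ℂ^2`: `E|_(T emb_2) ⊆ f| V_1(2)` has
dimension `≤ 2`, and it is `mx E 2`. -/
def C2 : Prop := ∀ (n : ℕ) (d : Alg n) (j c : ℕ), 2 ≤ j → j + 1 ≤ n → c ≤ j →
  mx d.V (j + 1) - mx d.V j = c → mx d.V j - mx d.V (j - 1) = c →
  Module.finrank ℂ d.E ≤ c ∨ mx d.E 2 ≤ 2

/-- (C3) Let `2 ≤ j < n`, `k_(j+1) ≥ j+1` and `k_j ≤ j`. Then `mx E 2 ≤ 2`.
Proof: same `T`. `dim EE(U₀) ≤ k_j ≤ j`; if no nonzero element of `U` were divisible by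
`z_last^2` then `dim EE(U₀) ≥ k_(j+1) ≥ j+1`. So (B5): `V_1(j) f ⊆ EE(U₀)`, dimensions:
`EE(U₀) = V_1(j) f`, `dim = j = k_j`; (C0): `E|_(T emb_j) ⊆ V_1(j) f`; restrict to `ℂ^2`. -/
def C3 : Prop := ∀ (n : ℕ) (d : Alg n) (j : ℕ), 2 ≤ j → j + 1 ≤ n →
  j + 1 ≤ mx d.V (j + 1) - mx d.V j → mx d.V j - mx d.V (j - 1) ≤ j → mx d.E 2 ≤ 2

/-! ### Hermitian data -/

/-- A sum of squares `∑ |p_j|^2 = ‖z‖^2 A`, `A = ∑ a_il e_i conj(e_l)` of rank `r`, everything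
homogeneous, in polarised form. -/
structure Dat (n m r D : ℕ) where
  p : Fin m → Pol n
  e : Fin r → Pol n
  a : Matrix (Fin r) (Fin r) ℂ
  p_ind : LinearIndependent ℂ p
  e_ind : LinearIndependent ℂ e
  p_hom : ∀ j, (p j).IsHomogeneous (D + 1)
  e_hom : ∀ i, (e i).IsHomogeneous D
  a_herm : a.IsHermitian
  a_unit : IsUnit a.det
  main : ∀ z w : Fin n → ℂ, ∑ j, eval z (p j) * star (eval w (p j)) =
    (∑ k, z k * star (w k)) * ∑ i, ∑ l, a i l * eval z (e i) * star (eval w (e l))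

/-- the span of the `p j` -/
noncomputable def Dat.V {n m r D : ℕ} (d : Dat n m r D) : Submodule ℂ (Pol n) :=
  Submodule.span ℂ (Set.range d.p)

/-- the span of the `e i` -/
noncomputable def Dat.E {n m r D : ℕ} (d : Dat n m r D) : Submodule ℂ (Pol n) :=
  Submodule.span ℂ (Set.range d.e)

/-- `a` is positive semidefinite, i.e. `A` is itself a sum of squares -/
def Dat.Psd {n m r D : ℕ} (d : Dat n m r D) : Prop :=
  ∀ x : Fin r → ℂ, 0 ≤ (∑ i, ∑ l, d.a i l * x i * star (x l)).re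

/-- `S_1(n)`, same definition as `SosRanks 1 n` of the starting file -/
def S1 (n : ℕ) : Set ℕ :=
  {m | ∃ p : Fin m → MvPolynomial (Fin n) ℂ, LinearIndependent ℂ p ∧
    ∃ A : MvPolynomial (Fin n ⊕ Fin n) ℂ, ∀ z : Fin n → ℂ,
      ((∑ j, ‖eval z (p j)‖ ^ 2 : ℝ) : ℂ) =
        ((∑ k, ‖z k‖ ^ 2 : ℝ) : ℂ) ^ 1 *
          eval (Sum.elim z (fun k => (starRingEnd ℂ) (z k))) A}

/-- (A) set up. Proof, `n ≥ 2`, `m ≥ 1`. (1) homogenise: all `p j` vanish at `0` (put `z = 0`). Let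
`M > ` all total degrees of the `p j` and of `A`, `N` large (`N ≥ (M+1)(M+1)`). Replace
`p = ∑ p_d` (homogeneous parts) by `∑_d z_1^(M d) z_2^(N - d - M d) p_d`, i.e. exponent `α` goes to
`α + M|α| e_1 + (N - |α| - M|α|) e_2`; injective on exponents of degree `< M` (look at the
exponent of `z_1` modulo/division by `M`), so independence is preserved;
`(α, β)` of `A` goes to `(α', β')`, `α' = α + M(|α|+1) e_1 + (N - (|α|+1)(M+1)) e_2`, same for `β`,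
and the identity `∑ p_j(z) conj p_j(z) = ‖z‖^2 A` is preserved (compare exponents after
polarisation: (2)). Now all `p j` are homogeneous of degree `N`.
(2) polarisation: a polynomial `P(z,w)` with `P(z, conj z) = 0` for all `z` is `0` (this is
`H402.CE.t3` in the starting file `Pool/Agent/H402R2/CE/T3.lean`), so
`∑ p_j(z) conj(p_j)(w) = (∑ z_k w_k) A(z,w)` as polynomials (`conj(p)` = conjugate coefficients).
(3) `A` is bihomogeneous of bidegree `(N-1, N-1)` and hermitian (`conj A(w, z)`-symmetric) because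
`∑ z_k w_k` is not a zero divisor. (4) rank factorisation: `E` = span of all `A(., w)`, `e` a basis
of `E`; choose points `z_1..z_r` with `(e_i(z_l))` invertible; then
`A(z, w) = ∑ a_il e_i(z) conj(e_l)(w)` with a unique matrix `a`, hermitian by uniqueness, invertible
because the `A(., w)` span `E` (`dim = r`). -/
def SetUp : Prop := ∀ n m, 2 ≤ n → 1 ≤ m → m ∈ S1 n → ∃ r D, Nonempty (Dat n m r D)

/-- (A') a `Dat` gives an `Alg` with the same `V`, `E`: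
`a(w) = ∑_i (∑_l a_il conj(e_l)(w)) e_i`, where `conj(e_l)(w) = star (eval (star w) (e l))`;
`ℓ_w a(w) = ∑_j star (eval (star w) (p j)) p_j` and the vectors `(star (eval (star w) (p j)))_j`
span `ℂ^m` since the `p j` are independent; same for `E` with `a` invertible. Homogeneity of degree
`D` in `w` gives `hom`. -/
def DatAlg : Prop := ∀ n m r D (d : Dat n m r D), ∃ g : Alg n, g.V = d.V ∧ g.E = d.E

/-- (D) `mx V t + mx V (n-t) ≤ m`. Proof: let `S ∈ GL_n` with `rk V (S emb_t) = mx V t` (first `t`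
columns; by (B3) with the linear forms at level `n` added to get `S` invertible) and `R` invertible
with `rk V̄ ((R^{-1})^T ι') = mx V (n-t)`, `ι' = ` last `n-t` coordinates (`V̄` = conjugate
coefficients, same `mx`). Let `T_τ = S + τ (R - S)`. For all but finitely many `τ`: `det T_τ ≠ 0`,
`rk V (T_τ emb_t) = mx V t`, `rk V̄ (adj(T_τ)^T ι') = mx V (n-t)` ((B2), entries of `adj` are
polynomials in `τ`; `adj(R)^T = det R * (R^{-1})^T`). Put `L = T_τ(first t coordinates)`,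
`M = adj(T_τ)^T(last n-t coordinates)`; `∑ z_k w_k = 0` for `z ∈ L, w ∈ M`
(`T^T adj(T)^T = det`). So `∑_j p_j(z) conj(p_j)(w) = 0` on `L × M`: the span of the vectors
`(p_j(z))_j`, `z ∈ L`, (dimension `rk V = mx V t`) is orthogonal to the span of
`(conj p_j(w))_j`, `w ∈ M` (dimension `mx V (n-t)`), inside `ℂ^m`. -/
def A4 : Prop := ∀ n m r D (d : Dat n m r D) t, 1 ≤ t → t + 1 ≤ n →
  mx d.V t + mx d.V (n - t) ≤ m

/-- (F4) If `a` is not positive semidefinite then `n ≤ r(r-1)/2`.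
Proof: `Syz` = space of `σ : ℂ^n → E` linear with `σ(z)(z) = 0` for all `z` (coordinates: matrices
`σ_(k i)` with `∑ σ_(k i) z_k e_i(z) = 0`). `dim Syz ≤ r(r-1)/2`: choose `z_1..z_r` with
`(e_i(z_l))` invertible; `σ ↦ (σ(z_i)(z_l))_(i<l)` is injective: if all are `0` then `σ(z_1)`
vanishes at `z_1, ..., z_r`, so `σ(z_1) = 0`; from `σ(z_1 + t v)(z_1 + t v) = 0`:
`t σ(v)(z_1 + t v) = 0`, so `σ(v)(z_1) = 0` for all `v`; now `σ(z_2)` vanishes at `z_1` and at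
`z_2, ..., z_r`, so `σ(z_2) = 0`, and so on; finally `σ(v)(z_i) = 0` for all `v, i`, `σ = 0`.
Suppose `a` not psd: `x ∈ ℂ^r` with `∑ a_il x_i conj x_l < 0`. If `n > dim Syz` there is `v ≠ 0` in
`ℂ^n` with `∑_i σ_i(v) x_i = 0` for all `σ ∈ Syz`, so `v ⊗ x ∈ Syz^⊥ = span {z ⊗ e(z)}`:
`v ⊗ x = ∑ d_k z_k ⊗ e(z_k)`. Then `‖v‖^2 ∑ a_il x_i conj x_l =
∑ d_k conj(d_l) <z_k,z_l> A(z_k,z_l) = ∑ d_k conj(d_l) ∑_j p_j(z_k) conj p_j(z_l) ≥ 0`,
contradiction. -/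
def F4 : Prop := ∀ n m r D (d : Dat n m r D), ¬ d.Psd → n ≤ r * (r - 1) / 2

/-- (F5) If `a` is psd then `r + mx V (n-1) ≤ m` (`n ≥ 1`): `‖z‖^2 A = ∑_k ∑_i |z_k e'_i|^2` with
`e'` a basis of `E`, so every `z_k e_i ∈ V` (kernel of a psd form: if `c` is orthogonal to ...; or:
if a functional `φ` on polynomials kills all `p_j` then it kills all `z_k e'_i` because
`∑_j |φ(p_j)|^2 = ∑ |φ(z_k e'_i)|^2`). For `T : ℂ^(n-1) → ℂ^n` choose `ℓ ≠ 0` linear with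
`ℓ ∘ T = 0`; the kernel of `V → V|_T` contains `ℓ E`, of dimension `r`. -/
def F5 : Prop := ∀ n m r D (d : Dat n m r D), 1 ≤ n → d.Psd → r + mx d.V (n - 1) ≤ m

/-- (F6) `m ≤ n r`: every `p_j` is in the span of the `z_k e_i`. -/
def F6 : Prop := ∀ n m r D (_ : Dat n m r D), m ≤ n * r

/-- (G) If `mx E 2 ≤ 2` and `r ≥ 3` then `E ⊆ G V_1(n)` for some polynomial `G`.
Proof: elements of `E` are homogeneous of degree `D ≥ 1` (`r ≥ 3`). For `x ∈ ℂ^n` let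
`E_x = {u ∈ E : u(x) = 0}` and `J_x(u)(y) = ∂_y u(x)` (linear form in `y`).
(1) If `e₀(x) ≠ 0` for some `e₀ ∈ E` then for `u, v ∈ E_x` and all `y`:
`J_x(u)(y) v(y) = J_x(v)(y) u(y)`: the polynomials `e₀, u, v` restricted to `x + t y` (or to the
plane of `x, y`) are dependent; the coefficient of `e₀` is `0` (constant term in `t`), and comparing
the coefficients of `t` and of `t^D` (which are `J_x(u)(y)`, `u(y)`; if `D = 1` the claim is trivial)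
gives the determinant.
(2) `J_x` is zero or injective on `E_x` (if `J_x(u) = 0`, `J_x(v) ≠ 0` then `J_x(v) u = 0`).
(3) For `e₁, e₂ ∈ E` independent some `W_i = e₁ ∂_i e₂ - e₂ ∂_i e₁` is not zero (proof: choose
`x, y` with `(e_a(x), e_a(y))` invertible; replace `e₁, e₂` by combinations with
`e₁(x) = 1, e₂(x) = 0, e₂(y) = 1`; `c_a(t) = e_a(x + t(y-x))`; if all `W_i = 0` then
`c₁ c₂' = c₂ c₁'`; the order of vanishing at `t = 0` of the left side is one less than that of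
`c₂`, contradiction). If `W_i(x) ≠ 0` then `J_x ≠ 0` (use `u = e₁(x) e₂ - e₂(x) e₁`).
(4) Choose `x` with `W_i(x) ≠ 0`. `dim E_x = r - 1 ≥ 2`; `u, v ∈ E_x` independent, so `J_x(u)`,
`J_x(v)` independent linear forms with `J_x(u) v = J_x(v) u`; `J_x(u)` is prime and does not divide
`J_x(v)`, so `u = h J_x(u)`, and then `v' = h J_x(v')` for all `v' ∈ E_x`. `h ≠ 0`.
(5) Choose `x'` with `W_i(x') u(x') ≠ 0` (nonzero polynomials); as in (4)
`v' = h' J_(x')(v')` for `v' ∈ E_(x')`. `h(x') ≠ 0`. `dim E_x ∩ E_(x') ≥ r - 2 ≥ 1`: take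
`0 ≠ v` in it: `v = h l = h' l'`, `l' = J_(x')(v) ≠ 0`, `l'(x') = D v(x') = 0` (Euler), so `l' ∤ h`,
`l' ∣ h l`, `l'` prime: `l' ∣ l`, so `l = c l'`, `h' = c h`. So `E_(x') ⊆ h V_1`, and
`u ∈ E_x ∖ E_(x')`, so `E = E_(x') + ℂ u ⊆ h V_1`. -/
def G : Prop := ∀ (n D : ℕ) (E : Submodule ℂ (Pol n)), Module.Finite ℂ E →
  (∀ e ∈ E, e.IsHomogeneous D) → 3 ≤ Module.finrank ℂ E → mx E 2 ≤ 2 →
  ∃ h : Pol n, ∀ e ∈ E, ∃ w : Fin n → ℂ, e = h * lf w

/-- (G') If `E ⊆ h V_1(n)` then `a` is psd. Proof: `e_i = h λ_i`, `A(z,w) = h(z) conj h(w) B(z,w)`,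
`B(z,w) = ∑ a_il λ_i(z) conj λ_l(w)`. `‖z‖^2 |h(z)|^2 B(z,z) ≥ 0`, so `B(z,z) ≥ 0` when
`h(z) ≠ 0`, and by density (continuity; `h ≠ 0` if `r ≥ 1`) for all `z`. The `λ_i` are independent
linear forms, so every `x ∈ ℂ^r` is `(λ_i(z))_i` for some `z`: `∑ a_il x_i conj x_l ≥ 0`. -/
def G' : Prop := ∀ n m r D (d : Dat n m r D),
  (∃ h : Pol n, ∀ e ∈ d.E, ∃ w : Fin n → ℂ, e = h * lf w) → d.Psd

/-! ### Numerics -/

/-- (N) arithmetic. `M j` plays the role of `mx V j`, `k_j = M j - M (j-1)`.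
Proof. Let `L j = M j - M (j-1)`. `L j ≥ 1` for all `1 ≤ j ≤ n` (downwards from `hn1` by `h1`).
Downward induction on `j ≤ n`: `L j ≥ min(j+1, κ+2, n-j+1)` for `2 ≤ j ≤ n` (`hA`, see below), so
`L 2 ≥ 3` (`n ≥ 4`), so `M 2 ≥ 4`, `L n + L (n-1) ≥ 4` by `h4`, hence `L (n-1) ≥ 3` (if `L n ≥ 2`
then `L (n-1) ≥ L n + 1` when `L n ≤ min (n-1) (κ+1)`, else clear). Then again downwards
`L j ≥ min(j+1, κ+2, n-j+2)` for `2 ≤ j ≤ n-1`. Step from `j+1` to `j` (`2 ≤ j < n`): if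
`L (j+1) ≥ j+1` then `L j ≥ j+1` (`h3`); else if `L (j+1) ≥ κ+2` then `L j ≥ κ+2` (`h1`); else
`L (j+1) ≤ min j (κ+1)` and `L j ≥ L (j+1) + 1` (`h1`, `h2`).
Sum up: `M n ≥ 1 + 1 + ∑_(j=2)^(n-1) min(j+1, κ+2, n-j+2)`, and
`min(j+1, κ+2, n-j+2) ≥ (κ+2) - (κ+1-j)^+ - (κ+j-n)^+`, `∑_(j=2)^(n-1) (κ+1-j)^+ ≤ κ(κ-1)/2`, same
for the other: `M n ≥ 2 + (κ+2)(n-2) - κ(κ-1) = (κ+2)(n+1-κ) - 4` (no relation between `κ` and `n`
is needed; checked by computer). -/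
def Num : Prop := ∀ (n κ : ℕ) (M : ℕ → ℕ), 4 ≤ n → κ ≤ n →
  (∀ j, M j ≤ M (j + 1)) → 1 ≤ M 1 →
  (∀ j, 1 ≤ j → j + 1 ≤ n → min (M (j + 1) - M j) j ≤ M j - M (j - 1)) →
  (∀ j, 2 ≤ j → j + 1 ≤ n → M (j + 1) - M j ≤ j → M (j + 1) - M j ≤ κ + 1 →
    M (j + 1) - M j ≠ M j - M (j - 1)) →
  (∀ j, 2 ≤ j → j + 1 ≤ n → j + 1 ≤ M (j + 1) - M j → j + 1 ≤ M j - M (j - 1)) →
  M 1 + M (n - 1) ≤ M n → M 2 + M (n - 2) ≤ M n →
  (κ + 2) * (n + 1 - κ) ≤ M n + 4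

/-- (N') the chain bound: if `k_n ≥ κ+1` then `m ≥ (κ+1) n - κ(κ+1)/2`, for `κ + 1 ≤ n` -/
def Num' : Prop := ∀ (n κ : ℕ) (M : ℕ → ℕ), κ + 1 ≤ n →
  (∀ j, M j ≤ M (j + 1)) →
  (∀ j, 1 ≤ j → j + 1 ≤ n → min (M (j + 1) - M j) j ≤ M j - M (j - 1)) →
  κ + 1 ≤ M n - M (n - 1) → (κ + 1) * n ≤ M n + κ * (κ + 1) / 2

/-! ### Final statement -/

/-- main theorem -/
def Main : Prop :=
  (∀ n m r D (d : Dat n m r D) (κ : ℕ), 4 ≤ n → κ * (κ + 1) / 2 < n →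
    m + 4 < (κ + 2) * (n + 1 - κ) → d.Psd) ∧
  ∀ n m : ℕ, 1 ≤ n → ¬ (n = 3 ∧ m = 4) → m ∈ S1 n →
    ∀ κ : ℕ, ¬ (κ * n < m ∧ m + κ * (κ + 1) / 2 < (κ + 1) * n)

/-- (Con) the constructive side. Proof: `H402.CE.t5` (starting file
`Pool/Agent/H402R2/CE/T5.lean`) with `f = (∑ X_i) * g`, `g` = sum of distinct monomials: the number
of monomials of `f` is in `S_1(n)`; and `H402.CE.t4` (closed under `+`), `n, 2n-1 ∈ S_1(n)`.
Needed generators: `n = 1`: 1; `n = 2`: 2, 3; `n = 3`: 3, 5 (= 2n-1), 7 (`g = xy+yz+zx`);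
`n = 4`: 4, 7, 9 (`g = x+y+z`), 10 (`g = xy+yz+zx`); `n = 5`: 5, 9, 12 (`g = x+y+z`),
13 (`g = xy+yz+zx`), 16 (`g = x^2+xy+xz+y^2`). -/
def Con : Prop := (∀ m, m ∈ S1 1) ∧ (∀ m, m = 0 ∨ 2 ≤ m → m ∈ S1 2) ∧
  (∀ m, m = 0 ∨ m = 3 ∨ 5 ≤ m → m ∈ S1 3) ∧ (∀ m, m = 0 ∨ m = 4 ∨ 7 ≤ m → m ∈ S1 4) ∧
  (∀ m, m = 0 ∨ m = 5 ∨ m = 9 ∨ m = 10 ∨ 12 ≤ m → m ∈ S1 5)

end Pool.Agent.W2helper74.SOS
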