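import Pool.Agent.W2helper74.SOS.Stm

/-!
# MP_ce7760_an : the last case `n = 3`, `m = 4` of the SOS conjecture - statement file (helper74)

Plan. Suppose `d : Dat 3 4 r D`, `D` minimal (strong induction on `D`; `Red` removes common prime
factors of the `p j`, so we may assume that no prime divides all `p j`). `DegB` gives `D ≤ 2`.
`D = 0` is impossible (4 independent linear forms in 3 variables); `D = 1`: `E ⊆ V_1`, so `G'` gives
psd, `F5` and `F6` give `r + mx V 2 ≤ 4`, `4 ≤ 3 r`, and `mx V 2 = 3` (`MxThree`): contradiction.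
`D = 2`: `Cubic`.
-/

open MvPolynomial

namespace Pool.Agent.W2helper74.SOS

/-! ### Part I : reduction to cubic forms -/

/-- (K0) For `d : Dat 3 4 r D`: `mx V 2 = 3`, `mx V 1 = 1`. Proof: `mx V 1 ≤ 1` (homogeneous
polynomials in one variable), `≥ 1` by `C2'`; `A4` with `t = 1`: `mx V 2 ≤ 3`; `C1` with `j = 2`:
`min (4 - mx V 2) 2 ≤ mx V 2 - 1` excludes `mx V 2 ≤ 2` (`mx V 3 = 4` by `B1`). -/
def MxThree : Prop := ∀ r D (d : Dat 3 4 r D), mx d.V 2 = 3 ∧ mx d.V 1 = 1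

/-- (K1a) If `p ∂_i q = q ∂_i p` for all `i` then `p, q` are linearly dependent (compare piece J8;
for instance: divide by a gcd `g`, `p = g a`, `q = g b`, `a, b` relatively prime,
`a ∂_i b = b ∂_i a`, so `a ∣ ∂_i a`, degrees: `∂_i a = 0`; so `a`, `b` are constants). -/
def Wron : Prop := ∀ (n : ℕ) (p q : Pol n), (∀ i, p * pderiv i q = q * pderiv i p) →
  ∃ s t : ℂ, (s ≠ 0 ∨ t ≠ 0) ∧ C s * p = C t * q

/-- (K1b) Let `p_1..p_4 ∈ ℂ[z_1,z_2,z_3]` be independent, homogeneous of degree `N ≥ 1`, and let some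
`3 × 3` minor of `(∂_k p_j)` be nonzero. Then for some `i, k` the determinant of the `4 × 4` matrix
with rows `∂_1 p, ∂_2 p, ∂_3 p, ∂_i ∂_k p` is not zero.
Proof: let `N = (N_1..N_4)` be the signed `3 × 3` minors: `N · ∂_k p = 0`. If all the determinants
`N · ∂_i ∂_k p` vanish then `(∂_i N) · ∂_k p = 0`, so `∂_i N` is proportional to `N` (the rows
`∂_k p` have rank 3 over the fraction field): `N_a ∂_i N_b = N_b ∂_i N_a`. By (K1a) the `N_a` are
pairwise proportional, `N = g c` with `c ∈ ℂ^4`, `c ≠ 0`. So `∑ c_j ∂_k p_j = 0` for all `k`,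
`∑ c_j p_j = 0` (Euler), contradiction. -/
def Hess : Prop := ∀ (N : ℕ) (p : Fin 4 → Pol 3), 1 ≤ N → (∀ j, (p j).IsHomogeneous N) →
  LinearIndependent ℂ p →
  (∃ f : Fin 3 → Fin 4, Matrix.det (Matrix.of fun k l : Fin 3 => pderiv k (p (f l))) ≠ 0) →
  ∃ i k : Fin 3, Matrix.det (Matrix.of
    (Fin.snoc (α := fun _ => Fin 4 → Pol 3) (fun (l : Fin 3) (j : Fin 4) => pderiv l (p j))
      (fun j => pderiv i (pderiv k (p j))) : Fin 4 → Fin 4 → Pol 3)) ≠ 0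

/-- (K2) removal of a common prime factor. Proof: let `a(w) = A(., w)`, `ℓ_w a(w) ∈ V` is divisible
by `π`. If `π ∤ ℓ_w` then `π ∣ a(w)`. `π ∣ ℓ_w` holds for `w` in at most one line `ℂ w₀`; for other
`w`, and then (top coefficient of the polynomial `a(t w₀ + u)` in `t`, `u ∉ ℂ w₀`; see `Alg.hom`)
for all `w`, `π ∣ a(w)`. The `a(w)` span `E`, so `π ∣ e i`. Write `p j = π p'_j`, `e i = π e'_i`
(factors of homogeneous polynomials are homogeneous). `main` for `p', e'` and the same matrix `a`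
holds where `π(z) π(w) ≠ 0`, hence everywhere (polynomial in `z` for fixed `w`, then in `conj w`). -/
def Red : Prop := ∀ r D (d : Dat 3 4 r D) (π : Pol 3), Prime π → (∀ j, π ∣ d.p j) →
  ∃ D', D' < D ∧ Nonempty (Dat 3 4 r D')

/-- (K3) If no prime divides all `p_j` (homogeneous of degree `N`, three variables, not all zero)
then some plane `im T` contains no common zero except `0`.
Proof: the common zeros are finitely many lines. View `p_j ∈ R[X]`, `R = ℂ[z_1,z_2]`, `X = z_3`.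
Let `K = Frac R`. The ideal of `K[X]` generated by the `p_j` is generated by some `g`; the primitive
part `g₀ ∈ R[X]` of (a multiple of) `g` divides all `p_j` in `R[X]` (Gauss:
`IsPrimitive.dvd_of_fraction_map_dvd_fraction_map`), so it is a unit, `1 = ∑ c_j p_j` over `K[X]`,
and `b = ∑ a_j p_j` with `0 ≠ b ∈ R`, `a_j ∈ R[X]`. Common zeros `z` satisfy `b(z_1, z_2) = 0`, also
for a homogeneous component of `b`: `(z_1, z_2) = 0` or the ratio `z_1 : z_2` is in a finite set; the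
same for the other pairs of coordinates (permute the variables). So there are finitely many
`x_1..x_s ∈ ℂ^3 ∖ 0` such that every common zero is a multiple of some `x_i`; take `α` with
`∑ α_k (x_i)_k ≠ 0` for all `i` and `im T = {α · z = 0}`. -/
def Bez : Prop := ∀ (N : ℕ) (p : Fin 4 → Pol 3), (∀ j, (p j).IsHomogeneous N) →
  (∃ j, p j ≠ 0) → (∀ π : Pol 3, Prime π → ∃ j, ¬ π ∣ p j) →
  ∃ T : Matrix (Fin 3) (Fin 2) ℂ, ∀ x : Fin 2 → ℂ, x ≠ 0 → ∃ j, eval (T.mulVec x) (p j) ≠ 0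

/-- (K4) The degree bound. Proof. `V`, `a(w)`, `ψ_w = ℓ_w a(w) = ∑_j P_j(w) p_j`,
`P_j(w) = conj p_j (w)` (conjugate coefficients), `N = D + 1`. Suppose `D ≥ 3`.
For `T ∈ Mat(3×2)` let `w_T` = cross product of the columns (`ℓ_(w_T) ∘ T = 0`).
Open conditions on `T` (if true at `T₁` then true at `T₀ + t (T₁ - T₀)` for all but finitely many
`t`, any `T₀`): (1) `rk V T = 3`; (2) `V|_T` has no common zero `x ≠ 0` [equivalent to: the span of
the products `p q`, `p ∈ V`, `q ∈ S^(N-1)(ℂ^3)`, restricted to `T`, is all of `S^(2N-1)(ℂ^2)`,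
dimension `2N`; so it is a condition on `rk`, use (B2); two coprime forms of degree `N` in two
variables generate everything in degree `2N - 1`]; (3) `Δ(w_T) ≠ 0` for a given polynomial `Δ ≠ 0`
(every vector is a cross product). Each one holds for some `T`, so they hold simultaneously.
Let (1) hold, `w = w_T`, `u = a(w) ∘ T`. The first derivatives `∂_η ψ_w = ℓ_η a(w) + ℓ_w ∂_η a(w)`
are in `V` and restrict to `(ℓ_η ∘ T) u`. The kernel of `V → V|_T` is one dimensional and contains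
`ψ_w`. First use (3) with `Δ` = some `P_j ∂_k P_l - P_l ∂_k P_j ≠ 0` (K1a): if `u = 0` then `ψ_w` and
all `∂_η ψ_w` are in the kernel, so `Δ(w) = 0`. So `u ≠ 0`, `x u, y u` are independent, `ψ_w ≠ 0`, so
the `∂_k ψ_w` are independent: some `3 × 3` minor of `(∂_k P_j)` is not zero. So (K1b) gives `Δ ≠ 0`,
a determinant with rows `∂_1 P, ∂_2 P, ∂_3 P, ∂_i ∂_k P`. Now take `T` with (1), (2), (3) for this
`Δ`. Again `u ≠ 0` (the `∂_k ψ_w` are independent, they are not all in a line). `V|_T = <xu, yu, p>`,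
`u, p` have no common factor by (2). Second derivatives:
`∂_η ∂_η ψ_w|_T = 2 (ℓ_η ∘ T)(∂_η a(w) ∘ T) = u λ_η + κ(η) p`, `λ_η` linear form, `κ(η) ∈ ℂ`, both
quadratic in `η`. For `z ∈ ℂ^2` take `η(z)`, linear in `z`, with
`ℓ_(η(z)) ∘ T = -z_2 X_1 + z_1 X_2`; evaluating at the point `z`: `0 = u(z) Λ(z) + K(z) p(z)` with
`K(z) = κ(η(z))` a quadratic form. So `u ∣ K`, and `deg u = D ≥ 3`, so `K = 0`, `κ(η) = 0` for all
`η` in a complement of `ℂ w`, and by polarisation all second derivatives in these directions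
restrict to elements of `u V_1`, that is, they are in the span of the first derivatives and of the
kernel `ℂ ψ_w`; second derivatives with one direction `w` are `(N-1)` times first derivatives
(Euler), and `N ψ_w` = derivative in the direction `w`. So all determinants vanish at `w`:
contradiction to `Δ(w) ≠ 0`. -/
def DegB : Prop := ∀ r D (d : Dat 3 4 r D), (∀ π : Pol 3, Prime π → ∃ j, ¬ π ∣ d.p j) → D ≤ 2

/-! ### Part II : cubic forms -/

/-- linear form in two variables with coefficients `a` -/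
def q1 (a : Fin 2 → ℂ) (x y : ℂ) : ℂ := a 0 * x + a 1 * y

/-- quadratic form in two variables with coefficients `a` -/
def q2 (a : Fin 3 → ℂ) (x y : ℂ) : ℂ := a 0 * x ^ 2 + a 1 * x * y + a 2 * y ^ 2

/-- cubic form in two variables with coefficients `a` -/
def q3 (a : Fin 4 → ℂ) (x y : ℂ) : ℂ :=
  a 0 * x ^ 3 + a 1 * x ^ 2 * y + a 2 * x * y ^ 2 + a 3 * y ^ 3

/-- conjugate coefficients -/
def cj {n : ℕ} (a : Fin n → ℂ) : Fin n → ℂ := fun i => star (a i)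

/-- The vector valued cubic form `P(x,y,z) = z^3 c + z^2 l(x,y) + z r(x,y) + t(x,y)` in `ℂ^4` satisfies
`<P(z), P(w)> = 0` for `z ⊥ w`, expanded in powers of `z` (`(X,Y)` = conjugate of the second
argument, `s = xX + yY`; put `z conj(z') = -s` and compare the powers of `z`). -/
structure Sys (c : Fin 4 → ℂ) (l : Fin 4 → Fin 2 → ℂ) (r : Fin 4 → Fin 3 → ℂ)
    (t : Fin 4 → Fin 4 → ℂ) : Prop where
  E3 : ∀ X Y, ∑ j, c j * q3 (cj (t j)) X Y = 0
  E2 : ∀ x y X Y, ∑ j, q1 (l j) x y * q3 (cj (t j)) X Y =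
    (x * X + y * Y) * ∑ j, c j * q2 (cj (r j)) X Y
  E1 : ∀ x y X Y, ∑ j, q2 (r j) x y * q3 (cj (t j)) X Y =
    (x * X + y * Y) * ∑ j, q1 (l j) x y * q2 (cj (r j)) X Y -
      (x * X + y * Y) ^ 2 * ∑ j, c j * q1 (cj (l j)) X Y
  E0 : ∀ x y X Y, ∑ j, q3 (t j) x y * q3 (cj (t j)) X Y =
    (x * X + y * Y) * ∑ j, q2 (r j) x y * q2 (cj (r j)) X Y -
      (x * X + y * Y) ^ 2 * ∑ j, q1 (l j) x y * q1 (cj (l j)) X Y +
      (x * X + y * Y) ^ 3 * ∑ j, c j * star (c j)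

/-- (K5) the main computation at a critical point. Here `u = a x² + b x y + c y²`,
`u^*(x,y) = c̄ x² - b̄ x y + ā y²`, `ũ(X,Y) = c X² - b X Y + a Y²`.
Proof. Write `q_1 = q11 x² + q12 xy + q13 y²`, `q_2 = q21 x² + q22 xy + q23 y²`. Coefficients of
`x², xy, y²` in R1:
 `(α q11 X + β q21 Y) ū + k c̄ Y ũ = X q̄_1`, `(α q13 X + β q23 Y) ū + k ā Y ũ = Y q̄_2`,
 `(α q12 X + β q22 Y) ū - k b̄ Y ũ = Y q̄_1 + X q̄_2`. `XY·(xy) - Y²·(x²) - X²·(y²)` is divisible by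
`ū ≠ 0`, and after division: `q13 = 0`, `α q12 - β q23 = k c`, `β q22 - α q11 = -k b`,
`β q21 = -k a`. Then the `x²` and `y²` equations give
 (e1) `q̄11 = α ā q11`, (e2) `q̄12 = α q11 b̄ + k(|c|² - |a|²)`, (e3) `0 = α q11 c̄ - k(a b̄ + b c̄)`,
 (e4) `q̄21 = ā(β q23 + k c)`, (e5) `q̄22 = β q23 b̄ - k ā b`, (e6) `q̄23 = β q23 c̄ + k|a|²`.
Case `k ≠ 0`: (e4) and `β q21 = -k a`: `β q23 = -k c - k̄/β`; (e6): `|c|² = |a|² + 1/β²`;
`α q12 = -k̄/β`, (e2): `α q11 b̄ = -k(1/(αβ) + 1/β²)`; times `c̄` and (e3) times `b̄`: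
`a b̄² = -c̄ (|b|² + 1/(αβ) + 1/β²)`, so `|a||b|² > |c||b|²` (`c ≠ 0`), contradiction to `|c| > |a|`.
Case `k = 0`: all `q = 0`. In R2: `x³XY²`, `x³X²Y`: `(α-1) a c̄ = 0 = (α-1) a b̄`; `x³X³`:
`(α-1)(|a|² - 1/α) = 0`. If `α ≠ 1`: `b = c = 0`, `|a|² = 1/α`; `y³Y³`: `(α-β)/α = 1 - 1/β`, so
`α = β²`, `β > 1`; `xy²XY²`: `0 = 3 - 1/α - 2/β`, contradiction. If `α = 1`: dividing by
`(1-β) y Y`: `u ū - u^* ũ = s²/β`; `x²X²`: `|a|² - |c|² = 1/β`, `y²Y²`: `|c|² - |a|² = 1/β`. -/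
def CritMain : Prop := ∀ (α β : ℝ) (a b c k : ℂ) (p q : Fin 3 → ℂ), 0 < β → β < α → a ≠ 0 →
  (∀ x y X Y : ℂ,
    (α * q2 p x y * X + β * q2 q x y * Y) * (star a * X ^ 2 + star b * X * Y + star c * Y ^ 2) +
      k * (star c * x ^ 2 - star b * x * y + star a * y ^ 2) * Y *
        (c * X ^ 2 - b * X * Y + a * Y ^ 2) =
    (x * X + y * Y) * (x * q2 (cj p) X Y + y * q2 (cj q) X Y)) →
  (∀ x y X Y : ℂ,
    (a * x ^ 2 + b * x * y + c * y ^ 2) * (star a * X ^ 2 + star b * X * Y + star c * Y ^ 2) *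
        (α * x * X + β * y * Y) +
      (α - β) * y * Y * (star c * x ^ 2 - star b * x * y + star a * y ^ 2) *
        (c * X ^ 2 - b * X * Y + a * Y ^ 2) =
    (x * X + y * Y) ^ 3 - (x * X + y * Y) ^ 2 * (x * X / α + y * Y / β) +
      (x * X + y * Y) *
        ((a * x ^ 2 + b * x * y + c * y ^ 2) * (star a * X ^ 2 + star b * X * Y + star c * Y ^ 2) +
          α * q2 p x y * q2 (cj p) X Y + β * q2 q x y * q2 (cj q) X Y +
          k * star k / (α - β) * (star c * x ^ 2 - star b * x * y + star a * y ^ 2) *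
            (c * X ^ 2 - b * X * Y + a * Y ^ 2))) → False

/-- (K6) no system with `c ≠ 0`, `c ⊥ l` and `t` without common zeros.
Proof. Scale `|c| = 1`. The `l`-part is a linear map `ℂ^2 → c^⊥`; by a unitary change of `(x,y)`
(diagonalise the Gram matrix of the two coefficient vectors) and of `ℂ^4` assume
`c = e_0`, `l = (0, g1 x, g2 y, 0)`, `g1, g2 ≥ 0` (unitary changes of `(x,y)` act on `(X,Y)` by the
conjugate, `s` is invariant). Let `u, r1, r2, κ` be the components of `r`, `0, t1, t2, t3` those of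
`t` (E3). E2: `g1 t1 = x u`, `g2 t2 = y u`. E1: `r1 t̄1 + r2 t̄2 + κ t̄3 = s(g1 x r̄1 + g2 y r̄2)`. E0:
`t1 t̄1 + t2 t̄2 + t3 t̄3 = s³ - s²(g1² xX + g2² yY) + s(u ū + r1 r̄1 + r2 r̄2 + κ κ̄)`.
For a form `q` put `q^*(x,y) = q̄(-y, x)` (value on `(X,Y) = (-y,x)`, where `s = 0`);
`q^** = (-1)^(deg q) q`, `(pq)^* = p^* q^*`.
(A) `u ≠ 0`. Then `g1, g2 > 0`; `α = 1/g1²`, `β = 1/g2²`, `r_i = q_i/g_i`, `p = t3`. On `s = 0` E0 gives
`p p^* = (α-β) x y u u^*`. If `α = β`: `p = 0`, then the `t`'s have a common zero (a zero of `u`). So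
by symmetry `x ↔ y` let `α > β`. `u, p` have no common zero, hence no common factor: `u ∣ p^*`,
`u^* ∣ p`, `p = u^* l'` with `l'` linear, `l' l'^* = (α-β) x y`, which forces `l' = p₀ y`,
`|p₀|² = α - β`. On `s = 0` E1 gives `u^* ∣ κ p^*`, `p^* = p̄₀ x u`, and `u^*` is prime to `x u`
(as `p` is prime to `u`, `y ∤ u`), so `κ = k₀ u^*`. Put `k = k₀ p̄₀`; `a = u(1,0) ≠ 0` because
`p(1,0) = 0`. Now E1, E0 are the hypotheses of (K5).
(B) `u = 0`: `g1 t1 = 0`, `g2 t2 = 0`.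
(B1) `g1 = g2 = 0`: there is `Θ ≠ 0` in `ℂ^4` orthogonal to the coefficient vectors of `t1,t2,t3`
(functional on cubic forms); apply `Θ ⊗ Θ̄` to E0: `0 = [s³](Θ) + ... > 0`.
(B2) `g1, g2 > 0`: `t1 = t2 = 0`, `t3 t3^* = 0`, `t3 = 0`: common zero.
(B3) `g1 > 0 = g2` (or symmetric): `t1 = 0`. On `s = 0`: `t2 t2^* + t3 t3^* = 0`,
`r2 t2^* + κ t3^* = 0`, so `r2 t3 = κ t2`; `t2, t3` have no common zero, no common factor, so
`t2 ∣ r2`, degrees: `r2 = κ = 0`, then E1: `r1 = 0`, E0: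
`t2 t̄2 + t3 t̄3 = s² ((1-g1²) xX + yY)`. If `g1 > 1` evaluate at `x=X=1, y=Y=0`: negative. If
`g1 ≤ 1`: the functionals `Θ` killing `t2, t3` form a space of dimension `≥ 2`; on it
`[s² yY](Θ) = |Θ(x²y)|² + 2|Θ(xy²)|² + |Θ(y³)|² ≤ 0`, so `Θ` kills `y S²`, dimension `≤ 1`. -/
def Crit : Prop := ∀ c l r t, Sys c l r t → c ≠ 0 → (∀ i, ∑ j, l j i * star (c j) = 0) →
  (∀ x y : ℂ, (x ≠ 0 ∨ y ≠ 0) → ∃ j, q3 (t j) x y ≠ 0) → False

/-- (K7) no system with `c = 0` (base point), `t ≠ 0` and independent components.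
Proof: by unitary changes of `(x,y)` and `ℂ^4` assume the Gram matrix of `l` is diagonal.
Notation `q^*` as in (K6); E2: `∑ l_j t̄_j = 0`, E1: `∑ r_j t̄_j = s ∑ l_j r̄_j`, E0:
`∑ t_j t̄_j = s ∑ r_j r̄_j - s² ∑ l_j l̄_j`. On `s = 0`: `∑ t_j t_j^* = 0`, `∑ r_j t_j^* = 0`.
FACT (F): if `(t,t') ≠ 0` are cubic forms with `t t^* + t' t'^* = 0` and `r, r'` quadratic with
`r t^* + r' t'^* = 0` then (`r t' = r' t`) with `g = gcd(t,t')`: `t = g τ`, `t' = g τ'`, `τ, τ'`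
coprime of the same degree, `τ'^* = c τ`, `τ^* = -c τ'`, so the degree is odd (`q^** = ± q`), it is
3 and `r = r' = 0`, or it is 1 and then `τ τ̄ + τ' τ̄' = μ s` with `μ > 0`, `r = ρ τ`, `r' = ρ τ'` with
`ρ` linear, `g` quadratic.
(a) `l = 0`: `∑ r_j t̄_j = 0`: the coefficient vectors in `ℂ^4` of `r` and of `t` span orthogonal
subspaces; by independence of the components their dimensions add up to 4. E0:
`∑ t_j t̄_j = s ∑ r_j r̄_j`; ranks: `dim <t> = dim V_1 <r> ≥ dim <r> + 1` (if `<r> ≠ 0`), so `<r>` is one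
dimensional and `<t>` three dimensional, but `dim V_1 <r> = 2`. (`<r>` = span of the `r_j`.)
(b) `l` of rank 2: orthonormal basis with `l = (0, g1 x, g2 y, 0)`, `g_i > 0`; `t1 = t2 = 0`. (F) with
`(t0,t3)`, `(r0,r3)`. Degree 3: `r0=r3=0`, E1: `r1 = r2 = 0`, E0 at `x=X=1,y=Y=0`:
`|t0|²+|t3|² = -g1² < 0`. Degree 1: E1: `μ ρ ḡ = g1 x r̄1 + g2 y r̄2`, `ρ = ρ1 x + ρ2 y`, so
`g_i r̄_i = μ ρ_i ḡ`; E0/s: `μ g ḡ = μ s ρρ̄ + μ²(|ρ1|²/g1² + |ρ2|²/g2²) g ḡ - s(g1² xX + g2² yY)`; on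
`s = 0` the coefficients of `g ḡ` agree (`g g^* ≠ 0`), so `μ ρρ̄ = g1² xX + g2² yY`: the coefficients of
`xX, yY` give `ρ1, ρ2 ≠ 0`, that of `xY` gives `ρ1 ρ̄2 = 0`.
(c) `l` of rank 1: `l = (0, λ, 0, 0)`, `λ ≠ 0` linear form; `t1 = 0`; let `κ = r1`, `T' = (t0,t2,t3)`,
`R' = (r0,r2,r3)`; unitary changes of these three coordinates are free.
E1: `R'·T̄' = s λ κ̄`, E0: `T'·T̄' + s² λλ̄ = s(κκ̄ + R'·R̄')`.
(c1) `κ = 0`: ranges of psd forms: `V_1 <R'> = <T'> + λ S²` has dimension `≥ 3`, so `dim <R'> ≥ 2`;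
the coefficient vectors of `T'` are orthogonal to those of `R'`, so `dim <T'> ≤ 1`, `T' = τ v`,
`τ τ^* = 0`, `t = 0`, contradiction.
(c2) `κ ≠ 0`, `dim <T'> ≤ 2`: say `t3 = 0`. (F) with `(t0,t2), (r0,r2)`. Degree 3: E1: `κ = 0`.
Degree 1: E1: `μ ρ ḡ = λ κ̄`, so `ρ = θ₁ λ`, `κ = μ θ̄₁ g`, `θ₁ ≠ 0`; E0/s:
`μ g ḡ + s λλ̄ = μ²|θ₁|² g ḡ + μ|θ₁|² s λλ̄ + r3 r̄3`, i.e. `(1-θ)(μ g ḡ + s λλ̄) = r3 r̄3`,
`θ = μ|θ₁|²`; `s λλ̄` has rank 2, so `θ = 1`, `r3 = 0`, and the component `z r3 + t3 = 0`.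
(c3) `κ ≠ 0`, `t0,t2,t3` independent: E1 gives `R' = λ N(x,y)`, `N : ℂ^2 → ℂ^3` linear; unitary
changes: `N = (ν1 x, ν2 y, 0)` (now `λ` is a general linear form); E1: `ν1 t0 = x κ`, `ν2 t2 = y κ`, so
`ν_i > 0`; `α = 1/ν1²`, `β = 1/ν2²`, `p = t3 ≠ 0`. E0:
`p p̄ = (1-α)(xX κκ̄ + s λλ̄ xX/α) + (1-β)(yY κκ̄ + s λλ̄ yY/β)`. If `1-α, 1-β ≥ 0`, not both 0, say
`α < 1`: take `Θ` on cubic forms with `Θ(p) = 0`, not killing `λ x V_1`: contradiction. If `α > 1`: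
evaluate at `x=X=1,y=Y=0`: `|p|² = (1-α)(|κ|² + |λ|²/α)`, so `p, κ, λ` vanish at `(1,0)`, they are
divisible by `y`; then `β < 1`... (if also `β > 1` then `λ = 0`); divide the identity by `yY` and
evaluate at `(1,0)` again: `|p'|² = (1-α)(|κ'|² + |λ'|²/α) < 0`. Symmetric for `β > 1`. -/
def Base : Prop := ∀ l r t, Sys 0 l r t → t ≠ 0 →
  (∀ v : Fin 4 → ℂ, (∀ i, ∑ j, v j * l j i = 0) → (∀ i, ∑ j, v j * r j i = 0) →
    (∀ i, ∑ j, v j * t j i = 0) → v = 0) → False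

/-- (K8) normal form at a unit vector `ζ`: unitary change of coordinates of `ℂ^3` taking `e_3` to `ζ`,
expansion, and `Sys` from `main` (put `z`-coordinate `τ`, other one with `τ conj(τ') = -s`, compare
the powers of `τ`). -/
def NF : Prop := ∀ r (d : Dat 3 4 r 2) (ζ : Fin 3 → ℂ), ∑ k, ζ k * star (ζ k) = 1 →
  ∃ (U : Matrix (Fin 3) (Fin 3) ℂ) (c : Fin 4 → ℂ) (l : Fin 4 → Fin 2 → ℂ) (q : Fin 4 → Fin 3 → ℂ)
    (t : Fin 4 → Fin 4 → ℂ), U.conjTranspose * U = 1 ∧ U.mulVec ![0, 0, 1] = ζ ∧ Sys c l q t ∧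
    ∀ j x y z, eval (U.mulVec ![x, y, z]) (d.p j) =
      z ^ 3 * c j + z ^ 2 * q1 (l j) x y + z * q2 (q j) x y + q3 (t j) x y

/-- (K9) no cubic example without common factors. Proof: `Base` at a common zero `ζ` (there `c = 0`;
`t ≠ 0` because otherwise the linear form vanishing on `ζ^⊥` divides all `p j`; independence of the
`p j`), so the `p j` have no common zero `≠ 0`. Let `ζ` be a point of the unit sphere where
`∑ |p_j|²` is maximal (compactness). In the normal form `c ≠ 0` and for `v ∈ ℂ^2` the function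
`∑ |p_j(e_3 + τ v)|² / (1 + |τ|²|v|²)^3` of `τ ∈ ℂ` has a maximum at `0`, so `∑_j l_j(v) conj c_j = 0`.
The `t j` have no common zero. `Crit`. -/
def Cubic : Prop := ∀ r (d : Dat 3 4 r 2), ∃ π : Pol 3, Prime π ∧ ∀ j, π ∣ d.p j

/-- (K10) the last case -/
def Last : Prop := 4 ∉ S1 3

end Pool.Agent.W2helper74.SOS
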