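import Pool.Agent.W2helper74.SOS.Stm3

/-!
# MP_ce7760_an : the FULL determination of `S_1(n)` (project S1FULL, helper74) - statement file

Target `Full`: for every `n ≥ 1`: `m ∈ S_1(n)` iff `m ≥ n²` or `m = n r - s` with `r ≤ n` and
`s ∈ G(r) = [0, r²/4] ∪ ⋃_(2a ≥ r+1, a ≤ r) [C(a,2), C(a,2) + C(r+1-a, 2)]`; and `19 ∈ S_1(6)`.

Already proved (import what you need; every theorem `foo` proves the Prop `Foo` of `Stm.lean`):
B1 = `W2helper12.SOS.pB1`, B2 = `pB2`, B3 = `pB3`, C2' = `pC2'` (file W2helper12/SOS/J1, also the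
lemmas `res_lf`, `res_comp`, `rs_mul`, `eval_res`, `le_mx`, `mx_att`, `rk_mul_le`, `pts`, `ext0`),
B4 = `W2helper66.SOS.b4`, B5 = `b5` (J2; also `keyK`, `semi`, `coef`, `dvd_of_res_eq_zero`),
C0, C1, C2, C3 = `W2helper19.SOS.c0 / c1 / c2 / c3` (J3; also `coeff_mem_of_infinite`, `common`, `LF`,
`rs_LF`, `rk_LF`, `mx_LF`; Basic: `lfL`, `lf_injective`, `lf_ne_zero`, `DD`, `finrank_DD`,
`finrank_ker_add`, `mem_EE`, `EE_finite`, `finrank_EE_le`, `VF`), A4 = `W2helper4.SOS.a4` (J5, adjugate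
trick for orthogonal complements: `crv, evL, evM`), F4 = `W2helper18.SOS.f4` (J6: `Syz`, `tens`,
`exists_pts`, `span_evv`, `mem_span_tens`, `BB_nonneg`), F5, F6, G' = `W2helper22.SOSG.f5 / f6 / g'`
(F: `main_pol`, `phi_zero`, `X_mul_mem`), G = `W2helper22.SOSG.g` (G: `sb`, `dvd_iff`, `dvd_mul`),
SetUp, DatAlg = `W2helper17.SOS.setUp / datAlg` (SetUp: `rank_fact`), Wron = `W2helper9.SOS.wron` (K1),
`V_le_span`, `lf_sum_smul`, `anti`, `starUp` (W2helper74/SOS/L), `finV`, `finE`, `homE`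
(W2helper74/SOS/Main), `shift_mem`, `add_mem`, `self_mem`, `zero_mem`, `from_block`
(W2helper18/SOS/J9b).
Notation in the comments: `M_j = mx V j`, `k_j = M_j - M_(j-1)`, `e_j = mx E j`, `C(a,2) = a(a-1)/2`,
`V_1` = linear forms, `V_1 E = up E`, `emb_j = emb j (j+1)` etc.
Each piece may use the Props of `Stm.lean` as theorems (they are proved); a piece that uses another
piece `P` of this file should be stated as `theorem foo (h : P) : Foo`.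
-/

open MvPolynomial

namespace Pool.Agent.W2helper74.SOS

/-- `V_1 E`: the span of all `X_k f`, `f ∈ E` -/
noncomputable def up {n : ℕ} (E : Submodule ℂ (Pol n)) : Submodule ℂ (Pol n) :=
  Submodule.span ℂ {p | ∃ k : Fin n, ∃ f ∈ E, p = X k * f}

/-- the explicit set -/
def InS (n m : ℕ) : Prop := n * n ≤ m ∨ ∃ r s : ℕ, r ≤ n ∧ m + s = n * r ∧
  (s ≤ r * r / 4 ∨ ∃ a : ℕ, a ≤ r ∧ r + 1 ≤ 2 * a ∧ a * (a - 1) / 2 ≤ s ∧
    s ≤ a * (a - 1) / 2 + (r + 1 - a) * (r - a) / 2)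

/-- TARGET (assembled by helper74) -/
def Full : Prop := ∀ n m : ℕ, 1 ≤ n → (m ∈ S1 n ↔ InS n m ∨ (n = 6 ∧ m = 19))

/-! ### P1 : existence -/

/-- (P1) Proof. Use `shift_mem` (`(shift G).card ∈ S1 n` for every `G : Finset (Fin n → ℕ)`;
`shift G` = all `γ + e_k`), `add_mem`, `self_mem`, `zero_mem`.
Double star (DS): for `1 ≤ b ≤ a`, `c ≤ b - 1`, `a + b ≤ n + 1`:
`n (a + b - 1) - C(a,2) - C(b-1,2) - c ∈ S1 n`. Proof of (DS): for `b = 1` take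
`G = {e_0 + e_i : i < a}`: `shift G = {e_0 + e_i + e_k : i < a, i ≤ k < n}` has `∑_(i<a) (n - i) = n a - C(a,2)`
elements. For `b ≥ 2` (so `a ≤ n - 1`) let `y = n - 1` (last index), `I = {0..a-1}`,
`I' = {1..c} ∪ {a, .., a + b - 2 - c}` (`b - 1` elements, not containing `0`, all `≤ n - 1`),
`G = {e_0 + e_i : i ∈ I} ∪ {e_y + e_j : j ∈ I'}`. `shift` of the first: `n a - C(a,2)` elements, of the
second: `n (b-1) - C(b-1,2)`, the intersection is `{e_0 + e_y + e_i : i ∈ I ∩ I'}`: `c` elements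
(if `{0,i,k} = {y,j,l}` as multisets, `i ∈ I`, `j ∈ I'`: `y ∉ I`, `0 ∉ I'`, so `k = y`, `l = 0`, `i = j`).
General `m`, `m + s = n r`, `r ≤ n`: find `a, b, c` with `1 ≤ b ≤ a`, `c ≤ b - 1`, `a + b ≤ r + 1`,
`s = C(a,2) + C(b-1,2) + c`; then `m = [n (a+b-1) - s] + n (r + 1 - a - b)`. (`r = 0`: `m = 0`.)
Interval case (`a` given): `t = s - C(a,2) ≤ C(r+1-a,2)`; `b` with `C(b-1,2) ≤ t ≤ C(b,2)`,
`1 ≤ b ≤ r+1-a ≤ a`. Case `s ≤ r²/4`: `a ≥ 1` largest with `C(a,2) ≤ s`; then `a ≤ r`, and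
`t = s - C(a,2) ≤ a - 1`. If `2a ≥ r+1`: `C(a,2) + C(r+1-a,2) ≥ r²/4 ≥ s` (it is
`≥ (r²-1)/4`, convexity), go on as before; if `2a ≤ r`: `t ≤ a - 1 ≤ C(a,2)` (`a ≥ 2`; `a = 1`: `t = 0`),
so there is `b ≤ a` with `C(b-1,2) ≤ t ≤ C(b,2)`, and `a + b ≤ 2a ≤ r`.
`m ≥ n²`: `from_block` with `c = n² - n + 1` (`m = n² - s`, `s ≤ n - 1 ≤ n²/4` for `n ≥ 2`; `n = 1`
clear). -/
def Exi : Prop := ∀ n m : ℕ, 1 ≤ n → InS n m → m ∈ S1 n

/-! ### P2 : locally linearly dependent operators -/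

/-- (P2) Proof. `F4` gives `n ≤ r(r-1)/2`, so `r ≥ 2`, `D ≥ 1` (independent constants: `r ≤ 1`).
(1) As in the proof of `F4`: `x ∈ ℂ^r` with `∑ a_il x_i conj x_l < 0`. If `v ⊗ x ∈ Syz^⊥ = span {z ⊗ e(z)}`
then `v = 0`. So the map `Syz → ℂ^n`, `σ ↦ (∑_i σ_(k i) x_i)_k` is onto: there are `σ^(1)..σ^(n) ∈ Syz`
with `∑_i σ^(j)_(k i) x_i = δ_jk`. For `c ∈ ℂ^r` let `M_c ∈ Mat_n`, `(M_c)_(j k) = ∑_i σ^(j)_(k i) c_i`:
linear in `c`, `M_x = 1`, `M_(e(z)) z = 0` for all `z ∈ ℂ^n`.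
(2) `Jac(z) = (∂_l e_i (z))`, `r × n`; let `e` (call it `δ`) be its maximal rank. If `Jac(z)` has rank
`δ` and `e(z) ≠ 0` then `rank M_(e(z)) ≤ δ - 1`: differentiate `M_(e(z)) z = 0` in a direction
`v ∈ ker Jac(z)`: `M_(e(z)) v = 0`; `z ∉ ker Jac(z)` because `Jac(z) z = D e(z) ≠ 0`; so
`dim ker M_(e(z)) ≥ n - δ + 1`. The rank is `≤ δ - 1` for ALL `z` (if some `δ × δ` minor of `M_(e(z₀))`
is not zero then it is nonzero for all but finitely many points of the line from `z₀` to a good `z`),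
(3) (W) If `U ⊆ ℂ^r` is a subspace of codimension `≥ 2` there is `z` with
`dim (U + im Jac(z)) ≥ dim U + 2`: take independent functionals `α, β` killing `U`, `f = ∑ α_i e_i`,
`g = ∑ β_i e_i` (independent polynomials); otherwise the rows `∇f, ∇g` are dependent at every point,
`∂_l f ∂_k g = ∂_k f ∂_l g`, and by Euler `f ∂_k g = g ∂_k f`, contradiction to `Wron`. If `U` has
codimension `1` there is `z` with `U + im Jac(z) = ℂ^r` (Euler, `e(z) ∈ im Jac(z)`). So with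
`K = 1 + (r - δ + 1)/2` there are `z_1..z_K` with `∑ im Jac(z_j) = ℂ^r` (`z_1` with rank `δ`).
(4) The map `Φ(x_1..x_K) = ∑ e(x_j)` has surjective derivative at `(z_1..z_K)`, so (open mapping,
`HasStrictFDerivAt.map_nhds_eq_of_surj`) its image contains an open set; `det M_c` is a polynomial
in `c` and not zero (`det M_x = 1`), so it does not vanish on that open set (restrict to the line
through `x`): there are `x_j` with `det M_(∑ e(x_j)) ≠ 0`, and `n = rank ≤ ∑ rank M_(e(x_j)) ≤ K (δ - 1)`. -/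
def Lld : Prop := ∀ n m r D (d : Dat n m r D), 1 ≤ n → ¬ d.Psd →
  ∃ δ : ℕ, δ ≤ r ∧ n ≤ (δ - 1) * (1 + (r - δ + 1) / 2)

/-! ### P3 - P5 : removal of common factors, restriction to planes, degree two -/

/-- (P3) generalisation of `Red` (W2helper4/SOS/K2) to `n` variables. Proof: `π ∣ e i`; `p j` is in the
span of the `X_k e_i` (`V_le_span`), so `π ∣ p j`. `π` is homogeneous (factor of the homogeneous
`e 0 ≠ 0`, `isHomogeneous_of_mul`), of degree `≥ 1`. `e_i = π e'_i`, `p_j = π p'_j`, same matrix `a`. -/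
def RedN : Prop := ∀ n m r D (d : Dat n m r D) (π : Pol n), 1 ≤ n → 1 ≤ r → Prime π →
  (∀ i, π ∣ d.e i) → ∃ D', D' < D ∧ ∃ d' : Dat n m r D', d'.Psd → d.Psd

/-- (P4) generalisation of `Bez` (W2helper15/SOS/Bez). Proof: linear change of variables so that
`p_1(0,..,0,1) ≠ 0` (some `p_1 ≠ 0`). As in `Bez` (`exists_const`), with `R = ℂ[z_1..z_(n-1)]`, `X = z_n`:
`0 ≠ b = ∑ a_j p_j` with `b ∈ R`; take a nonzero homogeneous component of this identity, `b`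
homogeneous of degree `k`. Choose `y ∈ ℂ^(n-1)` with `b(y) ≠ 0`, `T x = (x_0 y, x_1)`. A common zero
`T x`: `0 = b(x_0 y) = x_0^k b(y)`, so `x_0 = 0` (or `k = 0`: contradiction), then
`0 = p_1(0, x_1) = x_1^N p_1(0,1)`, `x_1 = 0` (or `N = 0`: contradiction). -/
def BezN : Prop := ∀ (n R N : ℕ) (p : Fin R → Pol n), 2 ≤ n → (∀ j, (p j).IsHomogeneous N) →
  (∃ j, p j ≠ 0) → (∀ π : Pol n, Prime π → ∃ j, ¬ π ∣ p j) →
  ∃ T : Matrix (Fin n) (Fin 2) ℂ, ∀ x : Fin 2 → ℂ, x ≠ 0 → ∃ j, eval (T.mulVec x) (p j) ≠ 0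

/-- (P5a) binary forms without common zero. Proof: choose `u ≠ 0` among the `q_j`; it has finitely many
zeros up to scalars; choose `v` in the span of the `q_j` not vanishing at any of them (finitely many
proper subspaces). `u, v` have no common zero, hence no common factor (a nonconstant binary form has
a nonzero zero). `(g,h) ↦ u g + v h` on pairs of forms of degree `D-1` is injective: `u g = - v h` gives
`u ∣ h`, degrees: `h = 0`. So the dimension is `≥ 2 D`. -/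
def Fill : Prop := ∀ (R D : ℕ) (q : Fin R → Pol 2), 1 ≤ D → (∀ j, (q j).IsHomogeneous D) →
  (∀ x : Fin 2 → ℂ, x ≠ 0 → ∃ j, eval x (q j) ≠ 0) →
  2 * D ≤ Module.finrank ℂ (Submodule.span ℂ
    {p : Pol 2 | ∃ j, ∃ g : Pol 2, g.IsHomogeneous (D - 1) ∧ p = q j * g})

/-- (P14) restriction to a generic plane. Let `k_2 = 3`, `k_3 ≥ 5`, `mx E 2 ≥ 3`. Proof: (B3) gives
`T₃ : ℂ^3 → ℂ^n` with `rk V` maximal at levels 3, 2, 1 (`T₃`, `T = T₃ emb_2`, `T₃ emb_1`), `rk E T = mx E 2`,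
`rk Y T = mx Y 2`, `rank T = 2`. `U = V|_T₃`, `U₀ = V|_T`, `EE_1 = EE U₀`, `EE_2 = EE EE_1`,
`EE_3 = EE EE_2`. As in (C1) (filter `{p ∈ U : z_last ∣ p}` (dimension `k_3`) by the power of `z_last`
dividing `p`; if `p = z_last^i g`, then `λ_1 ... λ_i g|_h ∈ U₀` for all linear forms, i.e. `g|_h ∈ EE_i`,
`keyK` + polarisation): `k_3 ≤ dim EE_1 + dim EE_2 + ...`. `dim EE_1 ≤ k_2 = 3`. For independent `f, f'`
`dim V_1 <f,f'> ≥ 3` and `= 4` unless there is a linear syzygy; `V_1 EE_(i+1) ⊆ EE_i`.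
If `dim EE_1 ≤ 2` then `dim EE_2 ≤ 1`, `EE_3 = 0` (`dim V_1 f = 2`), so `k_3 ≤ 3`: contradiction. So
`dim EE_1 = 3 = k_2`, and (C0) `E|_T ⊆ EE_1`. If `dim EE_2 ≤ 1` then `EE_3 = 0` and `k_3 ≤ 4`. So there are
independent `f, f' ∈ EE_2`, `V_1 <f,f'> ⊆ EE_1` has dimension `3 < 4`: `λ f = λ' f'` with `λ, λ'` linear
forms, independent because `f, f'` are; `λ` is prime: `f = g λ'`, `f' = g λ`,
`EE_1 = V_1 <f,f'> = g S²(ℂ^2)`. -/
def Pl : Prop := ∀ (n D : ℕ) (d : Alg n) (Y : Submodule ℂ (Pol n)), Module.Finite ℂ Y → 3 ≤ n →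
  (∀ e ∈ d.E, e.IsHomogeneous D) → (∀ p ∈ d.V, p.IsHomogeneous (D + 1)) → 3 ≤ mx d.E 2 →
  mx d.V 2 = mx d.V 1 + 3 → mx d.V 2 + 5 ≤ mx d.V 3 →
  ∃ (T : Matrix (Fin n) (Fin 2) ℂ) (g : Pol 2), rk Y T = mx Y 2 ∧
    ∀ e ∈ rs d.E T, ∃ q : Pol 2, q.IsHomogeneous 2 ∧ e = g * q

/-- (P5b) Proof from `Pl`, `BezN`, `Fill`, `DatAlg`: `r ≥ 3` since `mx E 2 ≥ 3`, so `D ≥ 1`. (BezN) gives
`T₁` such that the `q_i = e_i ∘ T₁` have no common zero `x ≠ 0`; `T₁` is injective (`e_i(0) = 0`). Let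
`Y` = span of all `e g`, `e ∈ E`, `g ∈ ℂ[z_1..z_n]` homogeneous of degree `D - 1` (finite dimensional).
`Y|_T₁` contains all `q_i g'`, `g'` binary of degree `D-1` (`g' = g ∘ T₁`), so by (Fill) `mx Y 2 ≥ 2D`.
(Pl) with this `Y`: `rk Y T = mx Y 2`, `E|_T ⊆ g S²`. `g ≠ 0` is homogeneous of degree `D - 2`, and
`Y|_T ⊆ g S^(D+1)(ℂ^2)` has dimension `≤ D + 2`. So `2 D ≤ D + 2`. `D ≥ 2` since `E|_T ≠ 0`. -/
def DegTwo : Prop := ∀ n m r D (d : Dat n m r D), 3 ≤ n → 3 ≤ mx d.E 2 →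
  mx d.V 2 = mx d.V 1 + 3 → mx d.V 2 + 5 ≤ mx d.V 3 →
  (∀ π : Pol n, Prime π → ∃ i, ¬ π ∣ d.e i) → D = 2

/-! ### P6 : dimensions -/

/-- (P6a) stars have many syzygies. Proof: the map `(Fin n → E) → up E`, `c ↦ ∑ X_k c_k` is onto; for a
basis `w_1..w_J` of `L` and `i < l` the vectors `c_k = (w_i)_k h lf w_l - (w_l)_k h lf w_i` are in the
kernel and independent (compare `starUp` in W2helper74/SOS/L). -/
def StarSyz : Prop := ∀ (n : ℕ) (E : Submodule ℂ (Pol n)), Module.Finite ℂ E →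
  ∀ (h : Pol n) (L : Submodule ℂ (Fin n → ℂ)), h ≠ 0 → (∀ w ∈ L, h * lf w ∈ E) →
  Module.finrank ℂ (up E) + Module.finrank ℂ L * (Module.finrank ℂ L - 1) / 2 ≤
    n * Module.finrank ℂ E

/-- (P6b) psd quotients. Proof: `V ≤ up E` (`V_le_span`), `up E ≤ V` (`X_mul_mem`). -/
def PS : Prop := ∀ n m r D (d : Dat n m r D), d.Psd → m = Module.finrank ℂ (up d.E)

/-- (P6c) quotients that are not psd; `x` = number of negative squares. Proof: by the spectral theorem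
there is a basis `e'_i` of `E` and signs `ε_i = ±1` with `∑ a_il e_i(z) conj e_l(w) = ∑ ε_i e'_i(z) conj e'_i(w)`
(`a` is hermitian and invertible); `x` = number of `i` with `ε_i = -1`, `x ≥ 1` because `a` is not psd.
`E_±` = span of the `e'_i` with `ε_i = ±1`. For every functional `φ` on polynomials
`∑_j |φ(p_j)|² = ∑_k ∑_i ε_i |φ(X_k e'_i)|²`. So (i) `up E_- ≤ up E_+`: if `φ` kills `up E_+` the right side
is `≤ 0`, so `φ` kills `up E_-`; (ii) `up E ≤ V ⊔ up E_-`: if `φ` kills `V` and `up E_-` then it kills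
`up E_+`. Hence `dim up E ≤ m + n x`, `dim up E = dim up E_+ ≤ n (r - x)`. If `h lf w ∈ E` for `w ∈ L`,
`dim L = J`, let `L_+ = {w ∈ L : h lf w ∈ E_+}`, of dimension `≥ J - x`; (P6a) for `E_+, L_+`. -/
def NP : Prop := ∀ n m r D (d : Dat n m r D), ¬ d.Psd → ∃ x : ℕ, 1 ≤ x ∧
  Module.finrank ℂ (up d.E) ≤ m + n * x ∧ Module.finrank ℂ (up d.E) + n * x ≤ n * r ∧
  ∀ (h : Pol n) (L : Submodule ℂ (Fin n → ℂ)), h ≠ 0 → (∀ w ∈ L, h * lf w ∈ d.E) →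
    Module.finrank ℂ (up d.E) + n * x +
      (Module.finrank ℂ L - x) * (Module.finrank ℂ L - x - 1) / 2 ≤ n * r

/-- (P6d) Proof: (B3) with `E` at levels `1..n` and the linear forms at level `n` gives an invertible
`T : ℂ^n → ℂ^n` with `rk E (T emb_j) = mx E j` for all `j ≤ n`. `Y = up E`. For `j < n`:
`rk Y (T emb_(j+1)) ≥ rk Y (T emb_j) + rk E (T emb_(j+1))`, because the kernel of
`Y|_(T emb_(j+1)) → Y|_(T emb_j)` contains `z_last · E|_(T emb_(j+1))` (`z_last` = restriction of a linear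
form of `ℂ^n`, as `T` is invertible). Sum up. -/
def UpDim : Prop := ∀ (n : ℕ) (E : Submodule ℂ (Pol n)), Module.Finite ℂ E →
  ∑ j ∈ Finset.range n, mx E (j + 1) ≤ Module.finrank ℂ (up E)

/-! ### P7 - P10 : arithmetic -/

/-- (P7) Proof. `i_j = e_j - e_(j-1)`, `i_1 = 1`; `J` = least `j ≥ 1` with `e_j = r`; `i_j = 0` for
`J < j ≤ n`, `i_j ≥ 1` for `1 ≤ j ≤ J` (chain, downwards from `i_J ≥ 1`), so `e_j ≥ j` for `j ≤ J`, `J ≤ r`.
Let `b = r + 1 - J ≥ 1` and let `t` be the largest index `≥ 2` with `i_t ≥ 2` (`t = 1` if none); then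
`i_j ≥ 2` for `2 ≤ j ≤ t` and `i_j = 1` for `t < j ≤ J`. So `e_j ≥ 2j - 1` for `j ≤ t` and
`e_j = r - (J - j) = j + b - 1` for `t ≤ j ≤ J`; thus `e_j ≥ min(2j-1, j+b-1)` for `1 ≤ j ≤ J`.
If `2J ≤ r + 2` (`b ≥ J - 1`): `e_j ≥ 2j - 1` for `j ≤ J - 1`, and `∑_(j<J) (r - e_j) ≤ ∑_(j<J) (r - 2j + 1)
= (J-1)(r+1-J) ≤ r²/4`. If `2J ≥ r + 3` (`b ≤ J - 2`): `i_J ≥ 2` would give `r ≥ 2J - 1`, so
`e_(J-1) = r - 1`; `i_(J-1) ≥ 2` would give `r ≥ 1 + 2(J-2) + 1`, so `e_(J-2) = r - 2` (`J ≥ 3`);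
`r - e_j ≤ max(r - 2j + 1, J - j)`, which is `r - 2j + 1` for `j ≤ b`, `J - j` for `j ≥ b`:
`∑ ≤ b (r - b) + C(J-b, 2) = C(J,2) + C(b,2)`. (Checked by computer.) -/
def Prof : Prop := ∀ (n r : ℕ) (e : ℕ → ℕ), 1 ≤ n → 2 ≤ r → e 0 = 0 → e 1 = 1 → e n = r →
  (∀ j, e j ≤ e (j + 1)) →
  (∀ j, 1 ≤ j → j + 1 ≤ n → min (e (j + 1) - e j) j ≤ e j - e (j - 1)) →
  ∃ J, 1 ≤ J ∧ J ≤ n ∧ J ≤ r ∧
    ((2 * J ≤ r + 2 ∧ n * r ≤ (∑ j ∈ Finset.range n, e (j + 1)) + r * r / 4 ∧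
        ∀ j, 1 ≤ j → j ≤ n → 2 * j ≤ r + 1 → 2 * j ≤ e j + 1) ∨
      (r + 3 ≤ 2 * J ∧ e J = r ∧ e (J - 1) + 1 = r ∧ e (J - 2) + 2 = r ∧
        n * r ≤ (∑ j ∈ Finset.range n, e (j + 1)) + (J * (J - 1) / 2 + (r + 1 - J) * (r - J) / 2) ∧
        ∀ j, 1 ≤ j → j ≤ n → j ≤ r + 1 - J → 2 * j ≤ e j + 1))

/-- (P8a) everything large is in the set. HINT (T1): if `R ≤ n`, `4 (n - 1) ≤ R * R` and
`n * (R - 1) ≤ m` then `InS n m` (for `r ≥ R`, `s < n` one has `s ≤ r²/4`). For (P8a) take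
`R = (n+1)/2 + 1` (`n ≥ 9`, `n = 7`); `n = 8`: by hand. -/
def NumA : Prop := ∀ n m : ℕ, 7 ≤ n → n * (n + 1) / 2 ≤ m → InS n m

/-- (P8b) Here `m ≥ n r - s - n x ≥ n r - 2 (r²/4)`, `1 ≤ x`, `n x ≤ s ≤ r²/4`, `r ≤ n`. Without the last
hypothesis (which only matters for `(n,r) = (9,6), (15,8), (16,8), (20,9), (36,12)`) there would be
the exceptions `(n,m) = (9,37), (15,91), (16,98), (20,141), (36,361)`. Proof: the last hypothesis
gives `8 n ≤ (r + 2)²` (as `(δ-1)(r - δ + 3) ≤ (r+2)²/4`). `n r - 2 (r²/4)` is increasing in `r ≤ n`. For large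
`n` (`n ≥ 60` say) use (T1) with the least `R` with `4 (n-1) ≤ R²` (`n (R-1) ≤ 2 n^(3/2)`, while
`n r - r²/2 ≥ (√8) n^(3/2) - 6 n`). For small `n`: finite check (`decide +kernel` on a boolean version of
`InS`; it is enough to check `m < n (R-1)`). Checked by computer for all `n ≤ 200`. `n = 7`: `m ≥ 26`. -/
def NumR1 : Prop := ∀ n m r s x δ : ℕ, 7 ≤ n → r ≤ n → 1 ≤ x → s ≤ r * r / 4 → n * x ≤ s →
  n * r ≤ m + s + n * x → δ ≤ r → n ≤ (δ - 1) * (1 + (r - δ + 1) / 2) →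
  InS n m ∧ (n = 7 → 24 ≤ m)

/-- (P9) Checked by computer for `n ≤ 200` (minimal `m`: `n = 7`: 25, 8: 30, 9: 39, 10: 45, 16: 108, 30: 360,
50: 889, 100: 2589; always larger than the largest gap of `InS n`; from `n = 20` on even larger
than `n (R - 1)`, `R` least with `4 (n-1) ≤ R²`, so (T1) applies). Proof for large `n`: let `u = n - J`,
`m ≥ n (J + b - 1 - x) - C(J,2) - C(b,2) = J (2n - J + 1)/2 + n (b - 1 - x) - C(b,2)` and
`x (2u + x + 1) ≤ b (b - 1)`, so `x ≤ b - 1`; `b ≤ J - 2`, `b ≤ n/2`. If `2J ≥ n`: `m ≥ 3n²/8 - n²/8 = n²/4`.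
If `2 J < n`: `u > n/2`, `x ≤ b²/(2u) < b²/n ≤ b/2`, so `m ≥ 3nJ/4 + n (b/2 - 1) - b n/4`; if `J ≥ (8/3) √n` it is
`≥ 2 n^(3/2) - n`; if `J < (8/3) √n`: `b ≥ √(2u)`, `x ≤ 3`, and `x = 2, 3` need `b² ≥ 4u, 6u`:
`m ≥ J (2n-J+1)/2 + n (b-1-x) - b²/2 ≥ 2 n b - O(n)`, `b ≥ √2 √n - O(1)`. Small `n`: finite check
(loop over `J, b, x`). Any other proof is fine. -/
def NumR2 : Prop := ∀ n m J b s x : ℕ, 7 ≤ n → J ≤ n → 1 ≤ b → b + 2 ≤ J → 2 * b ≤ n → 1 ≤ x →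
  s ≤ J * (J - 1) / 2 + b * (b - 1) / 2 → n * x + (J - x) * (J - x - 1) / 2 ≤ s →
  n * (J + b - 1) ≤ m + s + n * x → InS n m ∧ (n = 7 → 24 ≤ m)

/-- (P10) `k_j = M j - M (j-1)`. Conditions: chain, strictness, (BT) `min(2j-1, k_(j+1)) ≤ k_j` for
`2j ≤ n + 1`, and `M t + M (n-t) ≤ M n`. Proof: `k_n ≥ 1` (from `t = 1`), `k_(n-1) ≥ 3`
(`k_n + k_(n-1) ≥ M 2 ≥ 4`, and `k_n ≥ 2` gives `k_(n-1) ≥ 3`), downwards `k_j ≥ min(k_(j+1), j) + 1` for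
`2 ≤ j < n`, and (BT). With `f = n/2`: `m ≥ M f + M (n - f)`. Lower bounds for `m` obtained in this way:
`n = 7: 23, 8: 28, 9: 36, 10: 42, 11: 53, 12: 60, 13: 72, 14: 80, 15: 95, 16: 104, 17: 120, 20: 160, 30: 352,
50: 962`; from `n = 11` on this is larger than the largest gap of `InS n`. For `n ≥ 50` the theorem
`Num` (W2helper18/SOS/J9a) with `κ = (n-1)/2` and (T1) suffice. Small `n`: the sequence of lower bounds
and (T1)/finite check. `n = 10`: the value `42` is impossible (`k_1..k_5 = 1,3,5,6,6` and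
`k_6 + .. + k_10 ≤ 20`). Enumeration for `n = 7`, `M 7 = 23`: `k = 1,3,5,5,5,3,1` or `1,3,5,5,4,3,2`;
`n = 9`, `M 9 = 37`: `k = 1,3,5,6,6,6,5,4,1` or `1,3,5,6,6,6,5,3,2` (`36 ∈ InS 9`). -/
def NumR3 : Prop := ∀ (n : ℕ) (M : ℕ → ℕ), 7 ≤ n → (∀ j, M j ≤ M (j + 1)) → M 1 = 1 →
  (∀ j, 1 ≤ j → j + 1 ≤ n → min (M (j + 1) - M j) j ≤ M j - M (j - 1)) →
  (∀ j, 2 ≤ j → j + 1 ≤ n → M (j + 1) - M j ≤ j → M (j + 1) - M j ≠ M j - M (j - 1)) →
  (∀ j, 2 ≤ j → j + 1 ≤ n → j + 1 ≤ M (j + 1) - M j → j + 1 ≤ M j - M (j - 1)) →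
  (∀ j, 2 ≤ j → j + 1 ≤ n → 2 * j ≤ n + 1 →
    min (2 * j - 1) (M (j + 1) - M j) ≤ M j - M (j - 1)) →
  (∀ t, 1 ≤ t → t + 1 ≤ n → M t + M (n - t) ≤ M n) →
  (n = 7 → 23 ≤ M n) ∧ (InS n (M n) ∨
    (n = 7 ∧ M 7 = 23 ∧ M 2 = 4 ∧ M 3 = 9 ∧ M 4 = 14 ∧
      ((M 5 = 19 ∧ M 6 = 22) ∨ (M 5 = 18 ∧ M 6 = 21))) ∨
    (n = 9 ∧ M 9 = 37 ∧ M 2 = 4 ∧ M 3 = 9 ∧ M 4 = 15 ∧ M 5 = 21))

/-! ### P11, P12 : the star theorem -/

/-- (P11) Let `r = dim U`. Proof. `J = j + 1`, `j ≥ 2`. (B3) (levels `j+1` for the linear forms, `j`, `j-1`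
for `U`) gives an invertible `T` with `rk U (T emb_j) = r - 1`, `rk U (T emb_(j-1)) = r - 2`; replace `U` by
`U|_T`: we may assume `T = 1`. `U₀ = U|_(emb_j)`, dimension `r - 1`, `U₀|_(emb_(j-1))` has dimension `r - 2`.
`{p ∈ U : z_last ∣ p}` has dimension 1, spanned by `z_last g₀`.
(a) `z_last ∤ g₀`: otherwise (B5) there is `f ≠ 0` with `μ ν f ∈ U₀` for all linear `μ, ν`, so the kernel of
`U₀ → U₀|_(emb_(j-1))`, of dimension 1, contains the `j ≥ 2` dimensional space `z_last' V_1(j) f`.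
So `h₀ = g₀|_(emb_j) ≠ 0`.
(b) For `w ∈ ℂ^j` let `S_w : ℂ^(j-1) → ℂ^j` parametrise `w^⊥`. For `b ∈ ℂ^j` not a multiple of `e_last` and
`w_τ = e_last + τ b` one can take `S_τ x = ((τ b_last + 1) x_i (i < last), - τ ∑ b_i x_i)` as in the proof
of `C0`; `S_0 = emb`. So for all but finitely many `τ`: `rk U₀ S_τ ≥ r - 2` and `lf w_τ ∤ h₀` (infinitely
many pairwise independent linear forms do not divide `h₀ ≠ 0`). Claim (c): for such `w = w_τ`: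
`lf (w,0) g₀ ∈ U`. As `{w : lf (w,0) g₀ ∈ U}` is a subspace it contains `e_last` and `b`, hence it is
everything; with `z_last g₀ ∈ U` we get `h = g₀`.
Proof of (c): `λ = lf (w,0)`, `R = emb_j ∘ S_w` (`{λ = z_last = 0}`), `K_R` = kernel of `U → U|_R`,
`dim K_R = 2`. Every nonzero linear form `ℓ` divides some nonzero element of `U` (`mx U j = r - 1 < r`):
`λ g₁ ∈ U`, `g₁ ≠ 0`. `z_last g₀, λ g₁` are independent (else `λ ∣ g₀`, `lf w ∣ h₀`), so they span `K_R`. For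
`t ≠ 0` let `ℓ_t = z_last + t λ`, `0 ≠ ℓ_t g_t ∈ U`; it is in `K_R`: `ℓ_t g_t = x_t z_last g₀ + y_t λ g₁ ≡
λ (y_t g₁ - t x_t g₀)` modulo `ℓ_t`, `ℓ_t ∤ λ`, so `ℓ_t ∣ u_t = y_t g₁ - t x_t g₀`. If `g₀, g₁` were independent
then `u_t ≠ 0`, and `u_t|_R = 0`; `g₀|_R ≠ 0` (`lf w ∤ h₀`), so `{u ∈ <g₀,g₁> : u|_R = 0}` is at most one
dimensional and its generator is divisible by infinitely many `ℓ_t`: contradiction. So `g₁ = c g₀`,
`c ≠ 0`, `λ g₀ ∈ U`. -/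
def LemH : Prop := ∀ (J D : ℕ) (U : Submodule ℂ (Pol J)), Module.Finite ℂ U → 3 ≤ J →
  (∀ p ∈ U, p.IsHomogeneous D) → mx U (J - 1) + 1 = Module.finrank ℂ U →
  mx U (J - 2) + 2 = Module.finrank ℂ U → ∃ h : Pol J, h ≠ 0 ∧ ∀ k, X k * h ∈ U

/-- (P12) the star theorem, from (P11). Proof. `r = dim E`. For a column index `k` let
`del_k : ℂ^(J-1) → ℂ^J` be the inclusion missing the coordinate `k`. GOOD(T) (`T : ℂ^J → ℂ^n`):
`rk E T = r`, `rk E (T del_k) = r - 1` for all `k`, and for all `k` there is `k'` (a further deletion) with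
`rk E (T del_k del'_k') = r - 2`. A generic `T` is GOOD (take `T` maximising the sum of all these ranks, as
in the proof of (B3)). If `T` is GOOD then `U = E|_T` satisfies the hypotheses of (P11):
`h_T ≠ 0`, `V_1(J) h_T ⊆ U`. `W_T = {u ∈ E : u|_T ∈ h_T V_1(J)}` has dimension `J`.
For `S = T del_k`: `dim EE(E|_S) ≤ 1` (kernel of `E|_S → E|_(S del')`), `h_T|_S ∈ EE(E|_S)`, and
`h_T|_S ≠ 0` (otherwise the one dimensional kernel of `E|_T → E|_S` contains `V_1 h_T`). So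
`EE(E|_S) = <h_T|_S>`, and `Y_S = {u ∈ E : u|_S ∈ (EE(E|_S)) V_1(J-1)}` has dimension `1 + (J-1) = J` and
contains `W_T`; hence `W_T = Y_S` depends only on `S`. If `T, T'` are GOOD and differ in one column then
`W_T = W_T'`. Fix a GOOD `T`, `W = W_T`, and a matrix `P` with `rk W (P emb_2) = mx W 2`. For `t ∈ ℂ` let
`T'_t = T + t (P - T)` and `H_k(t)` = first `k` columns of `T'_t`, the other columns of `T`; `H_k(0) = T`.
By (B2) for all but finitely many `t` all `H_k(t)`, `k ≤ J`, are GOOD and `rk W (T'_t emb_2) ≥ mx W 2`.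
Then `W = W_(T'_t)`, so `W|_(T'_t emb_2) ⊆ h V_1(2)` has dimension `≤ 2`: `mx W 2 ≤ 2`. (G) (`dim W = J ≥ 3`):
`W ⊆ h V_1(n)`, `L = {w : h lf w ∈ W}` has dimension `J`. -/
def Star : Prop := ∀ (n D J : ℕ) (E : Submodule ℂ (Pol n)), Module.Finite ℂ E →
  (∀ e ∈ E, e.IsHomogeneous D) → 3 ≤ J → J ≤ n → mx E J = Module.finrank ℂ E →
  mx E (J - 1) + 1 = Module.finrank ℂ E → mx E (J - 2) + 2 = Module.finrank ℂ E →
  ∃ (h : Pol n) (L : Submodule ℂ (Fin n → ℂ)), h ≠ 0 ∧ Module.finrank ℂ L = J ∧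
    ∀ w ∈ L, h * lf w ∈ E

/-! ### P13 : the refined chain inequality -/

/-- (P13) Suppose `k_j < mx E j`. Proof: `T̃ : ℂ^(j+1) → ℂ^n` as in (C2) (`common` in W2helper19/SOS/J3):
`rk V` maximal at levels `j+1, j, j-1`, `rk E` at level `j`, `rank (T̃ emb_j) = j`. `T = T̃ emb_j`,
`U = V|_T̃`, `U₀ = V|_T`, `EE_1 = EE U₀`, `EE_2 = EE EE_1`, `EE_3 = EE EE_2`. `dim EE_1 ≤ k_j` (multiply by
`z_last`), and `dim EE_1 = k_j` would give `E|_T ⊆ EE_1` by (C0), `mx E j ≤ k_j`. So `dim EE_1 ≤ k_j - 1`.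
`{p ∈ U : z_last ∣ p}` (dimension `k_(j+1)`) is filtered by the power `i` of `z_last` dividing `p`; if
`p = z_last^i g` then `λ_1 .. λ_i g|_h ∈ U₀` for all linear forms (`keyK`, polarisation as in (B5)), so
the `i`-th quotient embeds into `EE_i` and `k_(j+1) ≤ dim EE_1 + dim EE_2 + ...`. If `EE_2 = 0` then all
later ones are 0: first implication. If `dim EE_1 ≤ 2j - 2` then `dim EE_2 ≤ 1` (for independent
`f, f' ∈ EE_2` the space `V_1 <f,f'> ⊆ EE_1` has dimension `≥ 2j - 1`: `λ f = λ' f'` has up to scalars at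
most one solution) and `EE_3 = 0` (`V_1 f ⊆ EE_2` has dimension `j ≥ 2`): second implication. -/
def BTX : Prop := ∀ (n : ℕ) (d : Alg n) (j : ℕ), 2 ≤ j → j + 1 ≤ n →
  mx d.V j - mx d.V (j - 1) < mx d.E j →
  ∃ T : Matrix (Fin n) (Fin j) ℂ, T.rank = j ∧ rk d.V T = mx d.V j ∧
    Module.finrank ℂ (EE (rs d.V T)) + 1 ≤ mx d.V j - mx d.V (j - 1) ∧
    ((∀ f : Pol j, (∀ w w' : Fin j → ℂ, lf w * lf w' * f ∈ rs d.V T) → f = 0) →
      mx d.V (j + 1) - mx d.V j ≤ Module.finrank ℂ (EE (rs d.V T))) ∧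
    (Module.finrank ℂ (EE (rs d.V T)) + 2 ≤ 2 * j →
      mx d.V (j + 1) - mx d.V j ≤ Module.finrank ℂ (EE (rs d.V T)) + 1)

/-! ### P15 - P18 : making data, subtraction, restriction to `ℂ^3` -/

/-- (P15) data from an identity. Proof: `p`-side: let `Vq` = span of the `q j`, `m'` its dimension;
`K(z,w) = ∑ q_j(z) conj q_j(w)`; choose a basis `b_1..b_m'` of `Vq`, `q_j = ∑ C_ji b_i`,
`K = ∑ (C^* C)-coefficients b_i conj b_l` with `C^* C` positive definite; with `B^* B = C^* C` (square root or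
Cholesky) `p = B b` satisfies `K = ∑ p_i conj p_i`, `p` independent, same span. `A`-side: `rank_fact`
(W2helper17/SOS/SetUp) / spectral theorem: first write the `f_i` in a basis, get a hermitian matrix `c'`
on independent `f'`, then `c' = ∑ l_i u_i u_i^*` with `l_i ≠ 0` real, `e_i = ∑ u_i f'`,
`a = diagonal l`. -/
def Mk : Prop := ∀ (n D M R : ℕ) (q : Fin M → Pol n) (f : Fin R → Pol n)
  (c : Matrix (Fin R) (Fin R) ℂ), 1 ≤ n → c.IsHermitian → (∀ j, (q j).IsHomogeneous (D + 1)) →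
  (∀ i, (f i).IsHomogeneous D) →
  (∀ z w : Fin n → ℂ, ∑ j, eval z (q j) * star (eval w (q j)) =
    (∑ k, z k * star (w k)) * ∑ i, ∑ l, c i l * eval z (f i) * star (eval w (f l))) →
  ∃ (m r : ℕ) (d : Dat n m r D), m = Module.finrank ℂ (Submodule.span ℂ (Set.range q)) ∧
    d.V = Submodule.span ℂ (Set.range q) ∧
    ∀ z w : Fin n → ℂ, ∑ i, ∑ l, d.a i l * eval z (d.e i) * star (eval w (d.e l)) =
      ∑ i, ∑ l, c i l * eval z (f i) * star (eval w (f l))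

/-- (P16) subtraction, from (P15). Proof: `X_k g = ∑_j B_kj p_j`; `‖z‖² g conj g = ∑ (B^* B)`-form in the
`p_j`; `λ > 0` the largest eigenvalue of `B^* B` (`B ≠ 0`), `ε = 1/λ`: `1 - ε B^* B` is psd, singular, of rank
`≥ m - n` (`rank B ≤ n`). `1 - ε B^* B = N^* N`, `q_k = ∑ N_kj p_j`:
`∑ q_k conj q_k = ∑ p_j conj p_j - ε ‖z‖² g conj g = <z,w> (A - ε g conj g)`. Apply (P15) with
`f = (e, g)`, `c = a ⊕ (-ε)`. `m' = rank N < m`. `p_j ∈ <q> + <X_k g>`. If the new `A' = A - ε g conj g` is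
psd (as a kernel: `∑ t_k conj t_l A'(z_k, z_l) ≥ 0` for all finite families; equivalent to `Psd` because
every vector of `ℂ^r` is `∑ t_k e(z_k)`) so is `A`. -/
def Sub : Prop := ∀ n m r D (d : Dat n m r D) (g : Pol n), 1 ≤ n → g ≠ 0 → g.IsHomogeneous D →
  (∀ k, X k * g ∈ d.V) → ∃ (m' r' : ℕ) (d' : Dat n m' r' D), m' < m ∧ m ≤ m' + n ∧ d'.V ≤ d.V ∧
    d.V ≤ d'.V ⊔ Submodule.span ℂ (Set.range fun k => X k * g) ∧ (d'.Psd → d.Psd)

/-- (P17) `D = 2`; restriction to the hyperplane `f = 0` of `im T ≅ ℂ^4`. From (P15). Proof: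
`U = V|_T ⊆ S³(ℂ^4)`; `f` is homogeneous of degree 1 (`X_0² f ∈ U`), `f = lf w`, `w ≠ 0`, and
`f S²(ℂ^4) ⊆ U`. `G : ℂ^3 → ℂ^4` injective with image `{f = 0}`; the kernel of `U → U|_G` is
`f S²(ℂ^4)`, dimension 10. `T G : ℂ^3 → ℂ^n` is injective; choose `H ∈ GL_3` with `Q = T G H` isometric
(`Q^* Q = 1`; `(TG)^* (TG)` is positive definite). (P15) for `q_j = p_j ∘ Q`, `f_i = e_i ∘ Q`, `c = a`
(`<Q y, Q y'> = <y, y'>`): `d'.V = V|_Q`, `m' = rk V T - 10`. `EE (V|_Q) ≅ EE (U|_G)` via `H`. The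
restriction `EE U → EE (U|_G)` is onto (let `g₁ ∈ EE (U|_G)`, homogeneous of degree 2, `g̃ ∘ G = g₁`; then
`X_i g̃ ∘ G = (X_i ∘ G) g₁ ∈ U|_G`, so `X_i g̃ ∈ U + f S² = U`) with kernel `f V_1(4)`, dimension 4. -/
def Spf : Prop := ∀ n m r (d : Dat n m r 2) (T : Matrix (Fin n) (Fin 4) ℂ) (f : Pol 4),
  T.rank = 4 → f ≠ 0 → (∀ w w' : Fin 4 → ℂ, lf w * lf w' * f ∈ rs d.V T) →
  ∃ (m' r' : ℕ) (d' : Dat 3 m' r' 2), m' + 10 = rk d.V T ∧
    Module.finrank ℂ (EE d'.V) + 4 = Module.finrank ℂ (EE (rs d.V T))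

/-- (P18) from (P16) and `Last` (`4 ∉ S1 3`, proved). Proof: let `EE d.V = <g>`, `g ≠ 0` homogeneous of
degree `D`. (P16): `d' : Dat 3 m' r' D`, `2 ≤ m' < 5`. `m' ∈ S1 3` (a `Dat` gives an element of `S1`:
put `w = z`), so `m' = 3` (`conjecture` in W2helper74/SOS/Final: `S1 3 ⊆ {0,3} ∪ [5,∞)`).
Claim: every `d' : Dat 3 3 r' D` has `r' = 1` and is psd. `M_1 = 1`, (A4) `M_1 + M_2 ≤ 3`, `M_3 = 3`, (C1)
`min(k_3,2) ≤ k_2`: so `M_2 = 2`, `k_2 = k_3 = 1`; (C2) with `j = 2`, `c = 1`: `r' ≤ 1` or `mx E' 2 ≤ 2`. If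
`r' ≥ 3`: (G), (G') psd. If not psd: (F4) `3 ≤ r'(r'-1)/2`, so `r' ≥ 3`, contradiction. So psd, (F5)
`r' + 2 ≤ 3`. Hence `X_k g' ∈ d'.V ≤ d.V` with `g'` spanning `E'` (`X_mul_mem`), `g' ∈ EE d.V = <g>`, so
`d'.V = <X_k g>` (dimension 3) and `d.V ≤ d'.V ⊔ <X_k g>` has dimension `≤ 3`: contradiction. -/
def Sp2 : Prop := ∀ r D (d : Dat 3 5 r D), Module.finrank ℂ (EE d.V) ≠ 1

/-! ### P19, P20 : the last case `n = 7`, `k = (1,3,5,5,4,3,2)` -/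

/-- (P19) Let `k_n = 2`, `k_(n-1) = 3`, `k_(n-2) = 4`, `n ≥ 6`; `w₀, w₁` independent linear forms vanishing
on `im T`, `T : ℂ^(n-2) → ℂ^n` injective and generic for `V` (also one hyperplane of it), `rk E T ≥ 5`.
Proof. `U = V|_T`. `dim EE U ≤ 3`: `dim EE U ≤ k_(n-2) = 4` (multiplication by `z_last`), and
`dim EE U = 4` would give `E|_T ⊆ EE U` by (C0), `rk E T ≤ 4`. `EE (EE U) = 0`: `V_1 f ⊆ EE U` has dimension
`n - 2 ≥ 4`. Choose `u₀, u₁ ∈ ℂ^n` with `w_i · u_l = δ_il`; `ℂ^n = im T ⊕ <u₀, u₁>`. For `p ∈ ℂ[z_1..z_n]`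
define `p_ab ∈ ℂ[x_1..x_(n-2)]` by `p(T x + s₀ u₀ + s₁ u₁) = ∑ s₀^a s₁^b p_ab(x)`. For row vectors `λ₀, λ₁` and
`T_t = T + t (u₀ λ₀ + u₁ λ₁)`: `p ∘ T_t = ∑ t^(a+b) λ₀^a λ₁^b p_ab`. Let `0 ≠ p ∈ V` and `i` minimal with some
`p_ab ≠ 0`, `a + b = i`. By the argument of (B4) (`T_t` at `t = 0`, `rk V T` maximal):
`∑_(a+b=i) λ₀^a λ₁^b p_ab ∈ U` for all `λ₀, λ₁`; replacing `λ₁` by `s λ₁`: each `λ₀^a λ₁^b p_ab ∈ U`. If `i ≥ 2`,
polarisation gives `f ≠ 0` with `μ ν f ∈ U` for all linear forms: contradiction. If `i = 1`: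
`p_10, p_01 ∈ EE U`. So on `P = {p ∈ V : p|_T = 0}` (dimension `k_n + k_(n-1) = 5`) the map
`lead : p ↦ (p_10, p_01) ∈ (EE U)²` is injective; so `dim EE U = 3` and `W = lead(P)` is the kernel of a
nonzero functional `θ` on `(EE U)²`. For `w = α w₀ + β w₁ ≠ 0` let `F_w = {g : lf w g ∈ V}`:
`lead(lf w g) = (α g|_T, β g|_T)`; `dim F_w ≥ 2` (`rk V` on `w^⊥` is `≤ M_(n-1)`), `g ↦ g|_T` is injective on
`F_w`. `F_(w₀)|_T`, `F_(w₁)|_T` are subspaces of dimension `≥ 2` of the 3 dimensional `EE U`: there are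
`c₀ ∈ F_(w₀)`, `c₁ ∈ F_(w₁)`, `c₀|_T = c₁|_T = c ≠ 0`. For `w = w₀ + t w₁`: `K_t = {q : (q, t q) ∈ W}` is
`{θ(q,0) + t θ(0,q) = 0}`, of dimension 2 for all but at most one `t`, then `K_t = F_w|_T`, and `c ∈ K_t`.
So there is `c_t ∈ F_w` with `c_t|_T = c`, and `lead` of `lf w c_t` and of `lf w₀ c₀ + t lf w₁ c₁` agree, so
`lf w c_t = lf w₀ c₀ + t lf w₁ c₁ = lf w c₀ + t lf w₁ (c₁ - c₀)`, `lf w ∣ c₁ - c₀` (`t ≠ 0`, `lf w` prime,
`∤ lf w₁`) for infinitely many `t`: `c₁ = c₀ =: c`. -/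
def LemX : Prop := ∀ (n : ℕ) (d : Alg n), 6 ≤ n → mx d.V (n - 1) + 2 = mx d.V n →
  mx d.V (n - 2) + 3 = mx d.V (n - 1) → mx d.V (n - 3) + 4 = mx d.V (n - 2) →
  ∀ (T : Matrix (Fin n) (Fin (n - 2)) ℂ) (w₀ w₁ : Fin n → ℂ), LinearIndependent ℂ ![w₀, w₁] →
  T.rank = n - 2 → Matrix.vecMul w₀ T = 0 → Matrix.vecMul w₁ T = 0 →
  rk d.V T = mx d.V (n - 2) → rk d.V (T * emb (n - 3) (n - 2)) = mx d.V (n - 3) →
  5 ≤ rk d.E T → ∃ c : Pol n, c ≠ 0 ∧ lf w₀ * c ∈ d.V ∧ lf w₁ * c ∈ d.V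

/-- (P20) from (P19). Proof. Let `N = n + dim E + 3` and consider `w = (w_1..w_N) ∈ (ℂ^n)^N`. Call a set `C`
of such `w` generic if it is nonempty and for `w ∈ C` and every `w'` the set
`{t : w + t (w' - w) ∉ C}` is finite; finite intersections of generic sets are generic (line through
two points). Generic sets: (1) `w_1..w_n` span `ℂ^n`; (2) the span of the `a(w_i)` is `E` (`Alg.hom`,
`spanE`); (3) `dim F_(w_i) = 2`, `F_w = {g : lf w g ∈ V}`, i.e. `rk V (w_i^⊥) = M_(n-1)`; (4) for `i < l` the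
pair `(w_i, w_l)` satisfies the hypotheses of (P19) for some `T`. For (3), (4) use the adjugate as in
A4 (W2helper4/SOS/J5): by (B3) there is an invertible `T̂` with `rk V (T̂ emb_j) = M_j` for
`j = n-3, n-2, n-1` and `rk E (T̂ emb_(n-2)) = mx E (n-2)`; let `R_1..R_n` be the rows of `T̂^(-1)`,
`S(w)` the matrix with rows `R_1..R_(n-2), w_i, w_l`: the first `n-2` columns of `adj S(w)` span the
common kernel of `w_i, w_l` when `det S(w) ≠ 0`; at `(w_i, w_l) = (R_(n-1), R_n)` we have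
`adj S = det S T̂`. Entries of `adj S` are polynomial in `w`, so (B2) applies on lines.
Take `w` in all these sets. By (P19) `F_(w_i) ∩ F_(w_l) ≠ 0` for all `i ≠ l`. Linear algebra: two
dimensional subspaces `F_i` with pairwise nonzero intersections have a common vector `c ≠ 0`, or
`dim ∑ F_i ≤ 3` (if `F_i ≠ F_l`, `F_i ∩ F_l = <c>`, `Q = F_i + F_l`: if `c ∉ F_k` then `F_k ⊆ Q`; if such a
`k` exists and `c ∈ F_l'` then `F_l' ∩ F_k ≠ 0` gives `F_l' ⊆ Q`). Common `c`: `lf w_i c ∈ V` for all `i`, so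
`X_k c ∈ V` for all `k`, `c = 0` by hypothesis. Otherwise `a(w_i) ∈ F_(w_i) ⊆ Q`, so `dim E ≤ 3`. -/
def Fw : Prop := ∀ (n : ℕ) (d : Alg n), 6 ≤ n → mx d.V (n - 1) + 2 = mx d.V n →
  mx d.V (n - 2) + 3 = mx d.V (n - 1) → mx d.V (n - 3) + 4 = mx d.V (n - 2) →
  5 ≤ mx d.E (n - 2) → (∀ c : Pol n, (∀ k, X k * c ∈ d.V) → c = 0) → Module.finrank ℂ d.E ≤ 3

end Pool.Agent.W2helper74.SOS
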