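import Pool.Agent.W2helper74.SOS.Stm4
import Pool.Agent.W2helper19.SOS.J3
import Pool.Agent.W2helper12.SOS.J1

set_option autoImplicit false

/-!
# MP_ce7760_an : piece P6d (`UpDim`)
-/

open MvPolynomial

namespace Pool.Agent.W2helper74.SOS

open Pool.Agent.W2helper19.SOS

instance up_finite {n : ℕ} (E : Submodule ℂ (Pol n)) [Module.Finite ℂ E] :
    Module.Finite ℂ (up E) := by
  have h : up E ≤ ⨆ k : Fin n, E.map (LinearMap.mulLeft ℂ (X k : Pol n)) := by
    unfold up
    rw [Submodule.span_le]
    rintro _ ⟨k, f, hf, rfl⟩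
    exact Submodule.mem_iSup_of_mem k (Submodule.mem_map.2 ⟨f, hf, rfl⟩)
  exact Submodule.finiteDimensional_of_le h

lemma lf_mul_mem_up {n : ℕ} {E : Submodule ℂ (Pol n)} {f : Pol n} (hf : f ∈ E) (w : Fin n → ℂ) :
    lf w * f ∈ up E := by
  unfold lf
  rw [Finset.sum_mul]
  refine Submodule.sum_mem _ fun k _ => ?_
  rw [mul_assoc, ← MvPolynomial.smul_eq_C_mul]
  exact Submodule.smul_mem _ _ (Submodule.subset_span ⟨k, f, hf, rfl⟩)

lemma lev_cast {n N c c' : ℕ} {V V' : Submodule ℂ (Pol n)} {T : Matrix (Fin n) (Fin N) ℂ}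
    (hV : V = V') (h : c = c') (h1 : rk V (T * emb c N) = mx V c) :
    rk V' (T * emb c' N) = mx V' c' := by
  subst hV h
  exact h1

theorem upDim : UpDim := by
  intro n E hE
  have hB1 : B1 := Pool.Agent.W2helper12.SOS.pB1
  have hB3 : B3 := Pool.Agent.W2helper12.SOS.pB3
  have := hE
  obtain ⟨T, hT⟩ := hB3 n n (n + 1) (fun i => if (i : ℕ) < n then E else LF n)
    (fun i => if (i : ℕ) < n then (i : ℕ) + 1 else n)
    (by
      intro i
      by_cases h : (i : ℕ) < n
      · rw [if_pos h]; exact hE
      · rw [if_neg h]; exact (inferInstance : Module.Finite ℂ (LF n)))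
    (by
      intro i
      by_cases h : (i : ℕ) < n
      · rw [if_pos h]; omega
      · rw [if_neg h])
  -- invertible
  have hr : T.rank = n := by
    have h1 := lev_cast (if_neg (by simp)) (if_neg (by simp)) (hT (Fin.last n))
    rw [emb_self, Matrix.mul_one, rk_LF, mx_LF hB1 le_rfl] at h1
    exact h1
  have hlev : ∀ j, j < n → rk E (T * emb (j + 1) n) = mx E (j + 1) := by
    intro j hj
    exact lev_cast (if_pos hj) (if_pos hj) (hT ⟨j, by omega⟩)
  have hU : IsUnit T := by
    rw [← Matrix.linearIndependent_rows_iff_isUnit, linearIndependent_iff_card_eq_finrank_span]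
    rw [Matrix.rank_eq_finrank_span_row] at hr
    rw [Set.finrank, hr, Fintype.card_fin]
  -- the step
  have step : ∀ j, j < n → rk (up E) (T * emb j n) + mx E (j + 1) ≤
      rk (up E) (T * emb (j + 1) n) := by
    intro j hj
    have : Module.Finite ℂ (rs (up E) (T * emb (j + 1) n)) := by
      unfold rs; infer_instance
    have h1 := finrank_DD (rs (up E) (T * emb (j + 1) n))
    rw [← rk_mul, Matrix.mul_assoc, emb_mul (by omega)] at h1
    have h2 : rs E (T * emb (j + 1) n) ≤ DD (rs (up E) (T * emb (j + 1) n)) := by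
      intro g hg
      obtain ⟨f, hf, rfl⟩ := mem_rs.1 hg
      rw [mem_DD]
      -- the linear form
      obtain ⟨w, hw⟩ : ∃ w : Fin n → ℂ, Matrix.vecMul w T = Pi.single ⟨j, hj⟩ 1 := by
        obtain ⟨u, hu⟩ := hU
        refine ⟨Matrix.vecMul (Pi.single ⟨j, hj⟩ 1) (↑u⁻¹ : Matrix (Fin n) (Fin n) ℂ), ?_⟩
        rw [Matrix.vecMul_vecMul, ← hu, Units.inv_mul, Matrix.vecMul_one]
      have h3 : res (T * emb (j + 1) n) (lf w) = X (Fin.last j) := by
        rw [res_lf, ← Matrix.vecMul_vecMul, hw, ← lf_single]
        congr 1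
        funext i
        rw [Matrix.single_one_vecMul]
        show emb (j + 1) n ⟨j, hj⟩ i = _
        unfold emb
        by_cases hi : i = Fin.last j
        · subst hi; simp
        · rw [Pi.single_eq_of_ne hi, if_neg]
          intro h
          apply hi
          ext
          simp at h
          simp [← h]
      rw [← h3, ← map_mul]
      exact res_mem (lf_mul_mem_up hf w)
    have h3 := Submodule.finrank_mono h2
    have h4 := hlev j hj
    unfold rk at h4
    have h5 : Module.finrank ℂ (rs (up E) (T * emb (j + 1) n)) =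
      rk (up E) (T * emb (j + 1) n) := rfl
    omega
  have hsum : ∀ t, t ≤ n → ∑ j ∈ Finset.range t, mx E (j + 1) ≤ rk (up E) (T * emb t n) := by
    intro t
    induction t with
    | zero => intro _; simp
    | succ t ih =>
      intro ht
      rw [Finset.sum_range_succ]
      have a := ih (by omega)
      have b := step t (by omega)
      omega
  exact (hsum n le_rfl).trans (Pool.Agent.W2helper12.SOS.rk_le (up E) inferInstance _)

end Pool.Agent.W2helper74.SOS
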